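import Pool.Agent.MP_47b17d_nt.H77.Spec

/-! The main inequality for all integers. -/

set_option autoImplicit false

namespace Pool.Agent.MP_47b17d_nt.H77

open Finset Filter Real

namespace A

/-- the members of the chain -/
noncomputable def xx (a : ℕ → ℤ) (R s m : ℕ) : ℝ :=
  ∑ i ∈ range (R + 1), ∑ j ∈ range (R + 1),
    (a i : ℝ) * a j * (log (pp (m + (i + j) * s + 1)) - log (pp (m + (i + j) * s)))

theorem comb (h : RowCOMB) (a : ℕ → ℤ) (R s m N : ℕ) (S : Finset ℕ) (ha : ∀ i, |a i| ≤ 1)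
    (hm : 1 ≤ m) (hN : m + 2 * R * s + 1 ≤ N)
    (hS : ∀ n, 1 ≤ n → n ≤ N → (pp n).primeFactors ⊆ S) :
    Comb S (((R : ℝ) + 1) ^ 2 * (2 * N)) (xx a R s m) := by
  have one : ∀ n, 1 ≤ n → n ≤ N → Comb S N (log (pp n)) := fun n h1 h2 =>
    h.mono S n N _ (h.base S n (hS n h1 h2)) (by exact_mod_cast h2)
  have key := h.sum (ℕ × ℕ) S (range (R + 1) ×ˢ range (R + 1)) (fun p => a p.1 * a p.2)
    ((N : ℝ) + N) (fun p => log (pp (m + (p.1 + p.2) * s + 1)) - log (pp (m + (p.1 + p.2) * s)))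
    (fun p hp => by
      obtain ⟨h1, h2⟩ := mem_product.1 hp
      have h3 : (p.1 + p.2) * s ≤ 2 * R * s :=
        Nat.mul_le_mul_right _ (by have := mem_range.1 h1; have := mem_range.1 h2; omega)
      exact h.sub S _ _ _ _ (one _ (by omega) (by omega)) (one _ (by omega) (by omega)))
  have e : xx a R s m = ∑ p ∈ range (R + 1) ×ˢ range (R + 1), ((a p.1 * a p.2 : ℤ) : ℝ) *
      (log (pp (m + (p.1 + p.2) * s + 1)) - log (pp (m + (p.1 + p.2) * s))) := by
    rw [sum_product]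
    simp only [xx, Int.cast_mul]
  rw [e]
  refine h.mono S _ _ _ key ?_
  rw [← two_mul]
  refine mul_le_mul_of_nonneg_right ?_ (by positivity)
  refine (sum_le_card_nsmul _ _ 1 fun p _ => ?_).trans_eq (by simp; ring)
  have : |a p.1 * a p.2| ≤ 1 := by
    rw [abs_mul]; exact mul_le_one₀ (ha _) (abs_nonneg _) (ha _)
  exact_mod_cast this

theorem bern (Y L : ℕ) (hY : 1 ≤ Y) : (2 : ℝ) ^ L ≤ (1 + 1 / (Y : ℝ)) ^ (Y * L) := by
  have hY' : (0 : ℝ) < Y := by exact_mod_cast hY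
  rw [pow_mul]
  refine pow_le_pow_left₀ (by norm_num) ?_ L
  have := one_add_mul_le_pow (a := 1 / (Y : ℝ)) (by
    have : (0 : ℝ) ≤ 1 / Y := by positivity
    linarith) Y
  rw [mul_one_div_cancel hY'.ne'] at this
  linarith

theorem low (h : RowLOW) (a : ℕ → ℤ) (R s Y L N : ℕ) (X : ℝ) (h0 : |a 0| = 1) (ha : ∀ i, |a i| ≤ 1)
    (hR : 1 ≤ R) (hY : 1 ≤ Y) (hL : 1 ≤ L) (h2 : 2 * R + 2 ≤ 2 ^ L) (hL3 : (L : ℝ) ≤ 3 * log N)
    (hX : 0 < X) (hX2 : X ≤ 2 * s * (Y : ℝ) ^ 2) (hs : Y * L + 1 ≤ s * Y ^ 2) (h8 : 8 ≤ N)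
    (hsN : s ≤ N) (hRN : R ≤ N) (hl : 1 ≤ log N) :
    exp (-(33 * Y * log N)) ≤ EE a R s X := by
  have k := h a R Y (Y * L) s X h0 ha hR hY (Nat.le_mul_of_pos_right _ hL)
    (le_trans (by exact_mod_cast h2) (bern Y L hY)) hX hX2 (by exact_mod_cast hs)
  refine le_trans ?_ k
  have hN : (0 : ℝ) < N := by exact_mod_cast (by omega : 0 < N)
  have hs0 : (0 : ℝ) < s := by
    rcases Nat.eq_zero_or_pos s with h | h
    · simp [h] at hs
    · exact_mod_cast h
  have hR0 : (0 : ℝ) < R := by exact_mod_cast hR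
  have hY1 : (1 : ℝ) ≤ Y := by exact_mod_cast hY
  rw [le_div_iff₀ (by positivity)]
  have e4 : 8 * (s : ℝ) * (R : ℝ) ^ 2 ≤ exp (4 * log N) := by
    rw [show (4 : ℝ) * log N = ((4 : ℕ) : ℝ) * log N by norm_num, exp_nat_mul, exp_log hN]
    have a1 : (8 : ℝ) ≤ N := by exact_mod_cast h8
    have a2 : (s : ℝ) ≤ N := by exact_mod_cast hsN
    have a3 : (R : ℝ) ≤ N := by exact_mod_cast hRN
    calc 8 * (s : ℝ) * (R : ℝ) ^ 2 ≤ N * N * (N : ℝ) ^ 2 := by gcongr
      _ = _ := by ring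
  refine (mul_le_mul_of_nonneg_left e4 (exp_pos _).le).trans ?_
  rw [← exp_add, exp_le_exp]
  push_cast
  nlinarith [mul_le_mul_of_nonneg_left hL3 (le_trans zero_le_one hY1),
    mul_le_mul_of_nonneg_right hY1 (le_trans zero_le_one hl)]

end A

theorem rowA (h1 : RowCOMB) (h2 : RowCH) (h3 : RowPIG) (h4 : RowUP) (h5 : RowLOW) (h6 : RowMON)
    (h7 : RowMEM) : RowA := by
  obtain ⟨c, n₀, hc, hM⟩ := h7
  refine ⟨100 + n₀ + 38 / c, by have : 0 ≤ 38 / c := by positivity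
                                have : (0 : ℝ) ≤ n₀ := by positivity
                                linarith, fun T P N S hP hT hTl hN hS => ?_⟩
  have hc' : 0 ≤ 38 / c := by positivity
  have hn0 : (0 : ℝ) ≤ n₀ := by positivity
  have T100 : 100 ≤ T := by
    have : (100 : ℝ) ≤ T := by linarith
    exact_mod_cast this
  have Tn : n₀ ≤ T := by
    have : (n₀ : ℝ) ≤ T := by linarith
    exact_mod_cast this
  have T1 : 1 ≤ T := by omega
  have pw : ∀ i j : ℕ, i ≤ j → T ^ i * P ^ 2 ≤ T ^ j * P ^ 2 := fun i j h =>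
    Nat.mul_le_mul_right _ (Nat.pow_le_pow_right T1 h)
  have pw2 : ∀ i : ℕ, 100 * (T ^ i * P ^ 2) ≤ T ^ (i + 1) * P ^ 2 := fun i => by
    rw [pow_succ T i]; nlinarith [Nat.zero_le (T ^ i * P ^ 2)]
  have P2 : 1 ≤ P ^ 2 := Nat.one_le_pow _ _ hP
  have one : 1 ≤ T ^ 0 * P ^ 2 := by simpa using P2
  obtain ⟨s, hs⟩ : ∃ s, s = T ^ 6 := ⟨_, rfl⟩
  obtain ⟨R, hR⟩ : ∃ R, R = T ^ 3 * P ^ 2 := ⟨_, rfl⟩
  obtain ⟨M₀, hM0⟩ : ∃ M, M = T ^ 6 * P ^ 2 := ⟨_, rfl⟩
  obtain ⟨M₁, hM1⟩ : ∃ M, M = T ^ 10 * P ^ 2 := ⟨_, rfl⟩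
  have q0 := pw2 0
  have q1 := pw2 1
  have q2 := pw2 2
  have q3 := pw2 3
  have q9 := pw2 9
  have q10 := pw2 10
  have r46 := pw 4 6 (by norm_num)
  have r69 := pw 6 9 (by norm_num)
  have r11 := pw 11 12 (by norm_num)
  have Rs : R * s = T ^ 9 * P ^ 2 := by rw [hR, hs]; ring
  norm_num only at q0 q1 q2 q3 q9 q10
  have R1 : 1 ≤ R := by omega
  have RN : 2 * R + 2 ≤ N := by omega
  have sM : s ≤ M₀ := by rw [hs, hM0]; exact Nat.le_mul_of_pos_right _ P2
  have TM : T ≤ s := by rw [hs]; exact Nat.le_self_pow (by norm_num) T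
  have M01 : M₀ ≤ M₁ := by omega
  have Nbig : 1728 ≤ N := by omega
  have hN0 : (0 : ℝ) < N := by exact_mod_cast (by omega : 0 < N)
  set l : ℝ := log N with hl
  have l1 : 1 ≤ l := by
    rw [hl, le_log_iff_exp_le hN0]
    have : (1728 : ℝ) ≤ N := by exact_mod_cast Nbig
    linarith [exp_one_lt_d9]
  have lT : 100 * l ≤ T := by nlinarith
  have lc : 38 * l ≤ c * T := by
    have : 38 / c * l ≤ T := by nlinarith
    rw [div_mul_eq_mul_div, div_le_iff₀ hc] at this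
    linarith
  have eN : ∀ k : ℕ, (N : ℝ) ^ k = exp (k * l) := fun k => by rw [exp_nat_mul, hl, exp_log hN0]
  obtain ⟨L, hL1, hL2, hL3⟩ : ∃ L : ℕ, 1 ≤ L ∧ 2 * R + 2 ≤ 2 ^ L ∧ (L : ℝ) ≤ 3 * l := by
    refine ⟨Nat.log 2 (2 * R + 2) + 1, by omega, (Nat.lt_pow_succ_log_self (by norm_num) _).le, ?_⟩
    have a1 : 2 ^ Nat.log 2 (2 * R + 2) ≤ N := (Nat.pow_log_le_self 2 (by omega)).trans RN
    have a2 : (Nat.log 2 (2 * R + 2) : ℝ) * log 2 ≤ l := by
      rw [hl, ← log_pow]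
      exact log_le_log (by positivity) (by exact_mod_cast a1)
    push_cast
    nlinarith [log_two_gt_d9, Nat.cast_nonneg (α := ℝ) (Nat.log 2 (2 * R + 2))]
  have LT : L ≤ T := by
    have : (L : ℝ) ≤ T := by linarith
    exact_mod_cast this
  obtain ⟨a, a0, a1, aJ⟩ := h3 R (T * P) (by
    have J1 : 1 ≤ T * P := Nat.mul_pos T1 hP
    have b1 : (R + 1) ^ (T * P) + 1 ≤ (2 ^ L) ^ (T * P) := by
      have := Nat.one_le_pow (T * P) (R + 1) (by omega)
      have b2 : 2 ≤ 2 ^ (T * P) := Nat.le_self_pow (by omega) 2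
      calc (R + 1) ^ (T * P) + 1 ≤ 2 ^ (T * P) * (R + 1) ^ (T * P) := by nlinarith
        _ = (2 * R + 2) ^ (T * P) := by rw [← mul_pow]; rfl
        _ ≤ _ := Nat.pow_le_pow_left hL2 _
    refine (Nat.pow_le_pow_left b1 _).trans_lt ?_
    rw [← pow_mul, ← pow_mul]
    refine Nat.pow_lt_pow_right (by norm_num) (Nat.lt_succ_of_le ?_)
    calc L * (T * P * (T * P)) ≤ T * (T * P * (T * P)) := Nat.mul_le_mul_right _ LT
      _ = R := by rw [hR]; ring)
  obtain ⟨mon, slow⟩ := h6 a R s a1 (by positivity)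
  have Tr : (100 : ℝ) ≤ T := by exact_mod_cast T100
  have Pr : (1 : ℝ) ≤ P := by exact_mod_cast hP
  have M0r : (M₀ : ℝ) = (T : ℝ) ^ 6 * P ^ 2 := by rw [hM0]; push_cast; ring
  have M1r : (M₁ : ℝ) = (T : ℝ) ^ 10 * P ^ 2 := by rw [hM1]; push_cast; ring
  have sr : (s : ℝ) = (T : ℝ) ^ 6 := by rw [hs]; push_cast; ring
  have M0big : (100 : ℝ) ≤ M₀ := by exact_mod_cast (by omega : 100 ≤ M₀)
  have M1big : (100 : ℝ) ≤ M₁ := by exact_mod_cast (by omega : 100 ≤ M₁)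
  have RN2 : ((R : ℝ) + 1) ^ 2 ≤ exp (2 * l) := by
    have : (R : ℝ) + 1 ≤ N := by exact_mod_cast (by omega : R + 1 ≤ N)
    have := eN 2
    push_cast at this
    rw [← this]
    gcongr
  have N16 : (16 : ℝ) ≤ exp l := by
    rw [hl, exp_log hN0]; exact_mod_cast (by omega : 16 ≤ N)
  have gen : ∀ Y : ℕ, 1 ≤ Y → Y * L + 1 ≤ s * Y ^ 2 := fun Y hY => by
    have b1 : T * T ≤ s := by
      rw [hs, ← pow_two]; exact Nat.pow_le_pow_right T1 (by norm_num)
    have b2 : Y ≤ Y ^ 2 := Nat.le_self_pow (by norm_num) Y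
    have b3 : L + 1 ≤ s := by nlinarith
    nlinarith
  -- the floor of the chain
  set E : ℝ := exp (-(33 * ((T ^ 2 * P : ℕ) : ℝ) * l)) with hE
  have E0 : 0 < E := exp_pos _
  have floor : ∀ X : ℝ, 0 < X → X ≤ M₁ + 3 → E ≤ EE a R s X := fun X hX hX' => by
    have Y1 : 1 ≤ T ^ 2 * P := Nat.mul_pos (Nat.one_le_pow _ _ T1) hP
    refine A.low h5 a R s (T ^ 2 * P) L N X a0 a1 R1 Y1 hL1 hL2 hL3 hX ?_ (gen _ Y1) (by omega)
      (by omega) (by omega) l1
    have : 2 * (s : ℝ) * ((T ^ 2 * P : ℕ) : ℝ) ^ 2 = 2 * M₁ := by rw [sr, M1r]; push_cast; ring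
    linarith
  have TP : (1 : ℝ) ≤ (T : ℝ) ^ 2 * P := by nlinarith
  have err : ∀ m : ℕ, M₀ ≤ m → ((R : ℝ) + 1) ^ 2 * exp (-(c * √m)) ≤ E / 16 := fun m hm => by
    have b1 : (T : ℝ) ^ 3 * P ≤ √m := by
      refine le_sqrt_of_sq_le ?_
      have : (M₀ : ℝ) ≤ m := by exact_mod_cast hm
      rw [M0r] at this
      linarith [show ((T : ℝ) ^ 3 * P) ^ 2 = T ^ 6 * P ^ 2 by ring]
    rw [le_div_iff₀ (by norm_num)]
    calc ((R : ℝ) + 1) ^ 2 * exp (-(c * √m)) * 16 ≤ exp (2 * l) * exp (-(c * √m)) * exp l := by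
          gcongr
      _ ≤ E := by
          rw [← exp_add, ← exp_add, hE, exp_le_exp]
          push_cast
          have b2 := mul_le_mul_of_nonneg_left b1 hc.le
          have b3 := mul_le_mul_of_nonneg_right lc (le_trans zero_le_one TP)
          have b4 := mul_le_mul_of_nonneg_left TP (le_trans zero_le_one l1)
          nlinarith
  have tail : ∀ X : ℝ, M₀ - 1 ≤ X → 2 * ((R : ℝ) + 1) ^ 2 * exp (-(X / 200)) ≤ E := fun X hX => by
    calc 2 * ((R : ℝ) + 1) ^ 2 * exp (-(X / 200)) ≤ exp l * exp (2 * l) * exp (-(X / 200)) := by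
          gcongr; linarith
      _ ≤ E := by
          rw [← exp_add, ← exp_add, hE, exp_le_exp]
          push_cast
          have b4 := mul_le_mul_of_nonneg_left TP (le_trans zero_le_one l1)
          have b5 := mul_le_mul_of_nonneg_right lT (le_trans zero_le_one TP)
          have b6 : (10 : ℝ) ^ 6 ≤ (T : ℝ) ^ 3 * P := by
            have : (100 : ℝ) ^ 3 ≤ (T : ℝ) ^ 3 := by gcongr
            nlinarith
          have b7 : (M₀ : ℝ) = ((T : ℝ) ^ 3 * P) * ((T : ℝ) ^ 3 * P) := by rw [M0r]; ring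
          have b8 := mul_le_mul_of_nonneg_right b6 (le_trans (by norm_num) b6)
          nlinarith
  have step : ∀ X : ℝ, M₀ - 1 ≤ X → X + 2 ≤ M₁ + 3 → EE a R s X ≤ 3 * EE a R s (X + 2) :=
    fun X hX hX' => by
      linarith [slow X (by linarith), tail X hX, floor (X + 2) (by linarith) hX']
  have two : ∀ m : ℕ, M₀ ≤ m → m ≤ M₁ + 1 → EE a R s ((m : ℝ) + 1) / 8 ≤ A.xx a R s m ∧
      A.xx a R s m ≤ 3 * EE a R s ((m : ℝ) - 1) := fun m hm hm' => by
    obtain ⟨u, v⟩ := hM a R s m a1 (by omega)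
    have b1 : (M₀ : ℝ) ≤ m := by exact_mod_cast hm
    have b2 : (m : ℝ) ≤ M₁ + 1 := by exact_mod_cast hm'
    have b3 := err m hm
    have b4 := floor (m + 1) (by linarith) (by linarith)
    have b5 := floor (m - 1) (by linarith) (by linarith)
    unfold A.xx
    constructor <;> linarith
  have main := h2 S (M₁ - M₀) (N ^ 4) (((R : ℝ) + 1) ^ 2 * (2 * N)) 216
    (fun k => A.xx a R s (M₀ + k)) (by norm_num) (by positivity) (by
      have b1 : (R : ℝ) + 1 ≤ N := by exact_mod_cast (by omega : R + 1 ≤ N)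
      have b2 : (1728 : ℝ) ≤ N := by exact_mod_cast Nbig
      push_cast
      calc 4 * (((R : ℝ) + 1) ^ 2 * (2 * N)) * 216 = 1728 * ((R : ℝ) + 1) ^ 2 * N := by ring
        _ ≤ N * (N : ℝ) ^ 2 * N := by gcongr
        _ = _ := by ring)
    (fun k hk => by
      have b1 : ((M₀ + k : ℕ) : ℝ) ≤ M₁ := by exact_mod_cast (by omega : M₀ + k ≤ M₁)
      have b2 := floor (((M₀ + k : ℕ) : ℝ) + 1) (by positivity) (by linarith)
      refine ⟨by linarith [(two (M₀ + k) (by omega) (by omega)).1], ?_⟩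
      refine A.comb h1 a R s _ N S a1 (by omega) ?_ hS
      rw [mul_assoc, Rs]
      omega)
    (fun k hk => by
      have b1 : ((M₀ + k : ℕ) : ℝ) ≤ M₁ := by exact_mod_cast (by omega : M₀ + k ≤ M₁)
      have b0 : (M₀ : ℝ) ≤ ((M₀ + k : ℕ) : ℝ) := by exact_mod_cast (by omega : M₀ ≤ M₀ + k)
      have b2 := (two (M₀ + k) (by omega) (by omega)).2
      have b3 := (two (M₀ + (k + 1)) (by omega) (by omega)).1
      have b4 := step (((M₀ + k : ℕ) : ℝ) - 1) (by linarith) (by linarith)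
      have b5 := step (((M₀ + k : ℕ) : ℝ) - 1 + 2) (by linarith) (by linarith)
      have b6 := mon (((M₀ + (k + 1) : ℕ) : ℝ) + 1) (((M₀ + k : ℕ) : ℝ) - 1 + 2 + 2)
        (by positivity) (by push_cast; linarith)
      linarith)
  rw [add_zero, Nat.add_sub_cancel' M01] at main
  have lo : exp (-(33 * P * l)) ≤ EE a R s ((M₀ : ℝ) + 1) := by
    refine A.low h5 a R s P L N _ a0 a1 R1 hP hL1 hL2 hL3 (by positivity) ?_ (gen _ hP) (by omega)
      (by omega) (by omega) l1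
    have : 2 * (s : ℝ) * (P : ℝ) ^ 2 = 2 * M₀ := by rw [sr, M0r]; ring
    linarith
  have hi : EE a R s ((M₁ : ℝ) - 1) ≤ 2 * exp (2 * l) * exp (-(2 * (T * P))) := by
    refine (h4 a R (T * P) s _ a1 aJ (by positivity) (by linarith)).trans ?_
    have b1 : 4 * (R : ℝ) * s / (M₁ - 1) ≤ exp (-1) := by
      have b2 : 100 * ((R : ℝ) * s) ≤ M₁ := by
        have : 100 * (R * s) ≤ M₁ := by rw [Rs]; omega
        exact_mod_cast this
      have b3 : (1 / 3 : ℝ) ≤ exp (-1) := by linarith [exp_neg_one_gt_d9]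
      refine le_trans ?_ b3
      rw [div_le_iff₀ (by linarith)]
      linarith
    have b4 : (4 * (R : ℝ) * s / (M₁ - 1)) ^ (2 * (T * P)) ≤ exp (-(2 * (T * P))) := by
      refine (pow_le_pow_left₀ (div_nonneg (by positivity) (by linarith)) b1 _).trans_eq ?_
      rw [← exp_nat_mul]
      push_cast
      ring_nf
    exact mul_le_mul (by linarith) b4
      (pow_nonneg (div_nonneg (by positivity) (by linarith)) _) (by positivity)
  have u := (two M₀ le_rfl (by omega)).1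
  have v := (two M₁ M01 (by omega)).2
  have eD : (((N ^ 4 : ℕ) : ℝ)) ^ S.card = exp (4 * S.card * l) := by
    push_cast
    rw [← pow_mul, eN]
    push_cast
    rfl
  rw [eD] at main
  have fin : exp (-(33 * P * l)) ≤ exp (4 * S.card * l + 4 * l - 2 * (T * P)) := by
    have b1 : A.xx a R s M₁ ≤ 6 * (exp (2 * l) * exp (-(2 * (T * P)))) := by linarith
    have b2 := mul_le_mul_of_nonneg_left b1 (exp_pos (4 * S.card * l)).le
    have b3 : (48 : ℝ) ≤ exp (2 * l) := by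
      rw [two_mul, exp_add]; nlinarith
    have b4 : exp (4 * S.card * l + 4 * l - 2 * (T * P)) =
        exp (2 * l) * (exp (4 * S.card * l) * (exp (2 * l) * exp (-(2 * (T * P))))) := by
      simp only [← exp_add]; ring_nf
    rw [b4]
    have b5 : 0 ≤ exp (4 * S.card * l) * (exp (2 * l) * exp (-(2 * (T * P)))) := by positivity
    nlinarith
  rw [exp_le_exp] at fin
  have b1 := mul_le_mul_of_nonneg_right lT (le_trans zero_le_one Pr)
  have b2 := mul_le_mul_of_nonneg_left Pr (le_trans zero_le_one l1)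
  have b3 : (P : ℝ) * l ≤ S.card * l := by nlinarith
  exact_mod_cast le_of_mul_le_mul_right b3 (by linarith)

end Pool.Agent.MP_47b17d_nt.H77
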