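import Pool.Agent.MP_47b17d_nt.H77.Spec

/-! The approximation of `log p(n)` by a function with a simple derivative. -/

set_option autoImplicit false

namespace Pool.Agent.MP_47b17d_nt.H77

open Finset Filter Real

namespace APX

/-- the constant `2 √(π² / 6)` -/
noncomputable def ka : ℝ := 2 * √be

/-- the coefficients -/
noncomputable def bb : ℕ → ℝ
  | 0 => ka / 2
  | 1 => -1
  | (j + 2) => (1 / ka) ^ (j + 1) / 2

/-- the primitive, as a function of `Z = x - 1 / 24` -/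
noncomputable def FF (K : ℕ) (Z : ℝ) : ℝ :=
  log (be / √3) - 2 * log ka - log Z + ka * Z ^ (1 / 2 : ℝ) -
    ∑ j ∈ range K, (1 / ka) ^ (j + 1) / ((j : ℝ) + 1) * Z ^ (-(((j : ℝ) + 1) / 2))

theorem be_ge : 3 / 2 ≤ be := by
  unfold be
  have := pi_gt_three
  nlinarith

theorem be_le : be ≤ 4 := by
  unfold be
  have h1 := pi_lt_four
  have h2 := pi_pos
  nlinarith

theorem sqrt_be_ge : 1 ≤ √be := by
  rw [Real.one_le_sqrt]
  linarith [be_ge]

theorem sqrt_be_le : √be ≤ 2 := by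
  rw [Real.sqrt_le_left (by norm_num)]
  linarith [be_le]

theorem ka_ge : 2 ≤ ka := by
  unfold ka
  linarith [sqrt_be_ge]

theorem adm : Adm bb := by
  refine ⟨?_, ?_, ?_⟩
  · show 1 ≤ ka / 2
    linarith [ka_ge]
  · show ka / 2 ≤ 2
    unfold ka
    linarith [sqrt_be_le]
  · intro k
    cases k with
    | zero => show |(-1 : ℝ)| ≤ 1; simp
    | succ j =>
      show |(1 / ka) ^ (j + 1) / 2| ≤ 1
      have h0 : 0 ≤ 1 / ka := by have := ka_ge; positivity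
      have h1 : 1 / ka ≤ 1 := by
        rw [div_le_one (by linarith [ka_ge])]; linarith [ka_ge]
      have h2 : (1 / ka) ^ (j + 1) ≤ 1 := pow_le_one₀ h0 h1
      have h3 : 0 ≤ (1 / ka) ^ (j + 1) := pow_nonneg h0 _
      rw [abs_of_nonneg (by positivity)]
      linarith

theorem gg_eq (K : ℕ) (Z : ℝ) : gg bb (K + 2) Z =
    ka / 2 * Z ^ (-(1 / 2) : ℝ) - Z ^ (-1 : ℝ) +
      ∑ j ∈ range K, (1 / ka) ^ (j + 1) / 2 * Z ^ (-(((j : ℝ) + 1) / 2) - 1) := by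
  unfold gg
  rw [Finset.sum_range_succ', Finset.sum_range_succ']
  have h1 : ∀ j ∈ range K, bb (j + 1 + 1) * Z ^ (-((((j + 1 + 1 : ℕ) : ℝ) + 1) / 2)) =
      (1 / ka) ^ (j + 1) / 2 * Z ^ (-(((j : ℝ) + 1) / 2) - 1) := by
    intro j _
    have e : (-((((j + 1 + 1 : ℕ) : ℝ) + 1) / 2)) = -(((j : ℝ) + 1) / 2) - 1 := by
      push_cast; ring
    rw [e]; rfl
  rw [Finset.sum_congr rfl h1]
  have e1 : (-((((0 + 1 : ℕ) : ℝ) + 1) / 2)) = -1 := by norm_num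
  have e0 : (-((((0 : ℕ) : ℝ) + 1) / 2)) = -(1 / 2) := by norm_num
  rw [e1, e0]
  show _ + (-1) * _ + ka / 2 * _ = _
  ring

theorem hasDerivAt_FF (K : ℕ) (Z : ℝ) (hZ : 0 < Z) : HasDerivAt (FF K) (gg bb (K + 2) Z) Z := by
  rw [gg_eq]
  have h1 : HasDerivAt (fun Z : ℝ => log Z) (Z ^ (-1 : ℝ)) Z := by
    rw [Real.rpow_neg_one]; exact Real.hasDerivAt_log hZ.ne'
  have h2 : HasDerivAt (fun Z : ℝ => ka * Z ^ (1 / 2 : ℝ)) (ka / 2 * Z ^ (-(1 / 2) : ℝ)) Z := by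
    have := (Real.hasDerivAt_rpow_const (x := Z) (p := (1 / 2 : ℝ)) (Or.inl hZ.ne')).const_mul ka
    have e : (1 / 2 : ℝ) - 1 = -(1 / 2) := by norm_num
    rw [e] at this
    exact this.congr_deriv (by ring)
  have h3 : HasDerivAt
      (fun Z : ℝ => ∑ j ∈ range K, (1 / ka) ^ (j + 1) / ((j : ℝ) + 1) * Z ^ (-(((j : ℝ) + 1) / 2)))
      (∑ j ∈ range K, -((1 / ka) ^ (j + 1) / 2 * Z ^ (-(((j : ℝ) + 1) / 2) - 1))) Z := by
    refine HasDerivAt.fun_sum (fun j _ => ?_)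
    have := (Real.hasDerivAt_rpow_const (x := Z) (p := -(((j : ℝ) + 1) / 2))
      (Or.inl hZ.ne')).const_mul ((1 / ka) ^ (j + 1) / ((j : ℝ) + 1))
    refine this.congr_deriv ?_
    have : (j : ℝ) + 1 ≠ 0 := by positivity
    field_simp
  have h4 := ((((hasDerivAt_const Z (log (be / √3) - 2 * log ka)).fun_sub h1).fun_add h2).fun_sub
    h3)
  rw [Finset.sum_neg_distrib] at h4
  exact h4.congr_deriv (by ring)

theorem mu_eq (x : ℝ) : mu x = ka * (x - 1 / 24) ^ (1 / 2 : ℝ) := by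
  unfold mu ka
  rw [Real.sqrt_mul (by linarith [be_ge]), Real.sqrt_eq_rpow (x - 1 / 24)]
  ring

theorem mu_ge (x : ℝ) (hx : 1 ≤ x) : 2 ≤ mu x := by
  unfold mu
  have : 1 ≤ √(be * (x - 1 / 24)) := by
    rw [Real.one_le_sqrt]
    nlinarith [be_ge]
  linarith

theorem FF_eq (K : ℕ) (x : ℝ) (hx : 1 ≤ x) : FF K (x - 1 / 24) =
    log (be / √3) - 2 * log (mu x) - ∑ j ∈ range K, (1 / mu x) ^ (j + 1) / ((j : ℝ) + 1) +
      mu x := by
  have hZ : 0 < x - 1 / 24 := by linarith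
  have hk : 0 < ka := by linarith [ka_ge]
  unfold FF
  rw [mu_eq]
  set Z := x - 1 / 24
  have h1 : log (ka * Z ^ (1 / 2 : ℝ)) = log ka + 1 / 2 * log Z := by
    rw [Real.log_mul hk.ne' (by positivity), Real.log_rpow hZ]
  have h2 : ∀ j ∈ range K, (1 / ka) ^ (j + 1) / ((j : ℝ) + 1) * Z ^ (-(((j : ℝ) + 1) / 2)) =
      (1 / (ka * Z ^ (1 / 2 : ℝ))) ^ (j + 1) / ((j : ℝ) + 1) := by
    intro j _
    have e : Z ^ (-(((j : ℝ) + 1) / 2)) = ((Z ^ (1 / 2 : ℝ))⁻¹) ^ (j + 1) := by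
      rw [← Real.rpow_neg hZ.le, ← Real.rpow_natCast, ← Real.rpow_mul hZ.le]
      congr 1
      push_cast; ring
    rw [e, one_div (ka * _), mul_inv, mul_pow, one_div]
    ring
  rw [h1, Finset.sum_congr rfl h2]
  ring

theorem abs_ff_sub (K : ℕ) (x : ℝ) (hx : 1 ≤ x) : |ff x - FF K (x - 1 / 24)| ≤ (1 / 2) ^ K := by
  rw [FF_eq K x hx]
  have hm := mu_ge x hx
  have h0 : 0 ≤ 1 / mu x := by positivity
  have h1 : 1 / mu x ≤ 1 / 2 := one_div_le_one_div_of_le (by norm_num) hm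
  have ha : |1 / mu x| = 1 / mu x := abs_of_nonneg h0
  have h := Real.abs_log_sub_add_sum_range_le (x := 1 / mu x) (by rw [ha]; linarith) K
  have e : ff x - (log (be / √3) - 2 * log (mu x) -
      ∑ j ∈ range K, (1 / mu x) ^ (j + 1) / ((j : ℝ) + 1) + mu x) =
      ∑ j ∈ range K, (1 / mu x) ^ (j + 1) / ((j : ℝ) + 1) + log (1 - 1 / mu x) := by
    unfold ff; ring
  rw [e]
  refine h.trans ?_
  rw [ha, div_le_iff₀ (by linarith)]
  have h2 : (1 / mu x) ^ (K + 1) ≤ (1 / 2) ^ (K + 1) := pow_le_pow_left₀ h0 h1 _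
  have h3 : (0 : ℝ) ≤ (1 / 2) ^ K := by positivity
  rw [pow_succ (1 / 2 : ℝ)] at h2
  nlinarith

end APX

theorem rowAPX (h : RowHR) : RowAPX := by
  obtain ⟨c, hc, h⟩ := h
  obtain ⟨n₀, hn₀⟩ := eventually_atTop.1 h
  refine ⟨c, max n₀ 1, APX.bb, hc, APX.adm, fun K => ⟨fun x => APX.FF K (x - 1 / 24), ?_, ?_⟩⟩
  · intro x hx
    exact (APX.hasDerivAt_FF K (x - 1 / 24) (by linarith)).comp_sub_const x (1 / 24)
  · intro n hn
    have h1 := hn₀ n (le_trans (le_max_left _ _) hn)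
    have h2 := APX.abs_ff_sub K n (by exact_mod_cast le_trans (le_max_right _ _) hn)
    have h3 := abs_sub_le (log (pp n)) (ff n) (APX.FF K (n - 1 / 24))
    linarith

end Pool.Agent.MP_47b17d_nt.H77
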