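import Pool.Agent.MP_47b17d_nt.H77.Spec

/-! The saddle point integral (row ARC). -/

set_option autoImplicit false

namespace Pool.Agent.MP_47b17d_nt.H77

open Real MeasureTheory Set

namespace ARC

/-- the integrand -/
noncomputable def hh (m : ℝ) (u : ℂ) : ℂ := Complex.sqrt u * Complex.exp (m / 2 * (u + u⁻¹))

lemma re_pos {u : ℂ} (hu : u ∈ Metric.ball (1 : ℂ) 1) : 0 < u.re := by
  rw [Metric.mem_ball, dist_eq_norm] at hu
  have h := (abs_le.1 (Complex.abs_re_le_norm (u - 1))).1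
  simp only [Complex.sub_re, Complex.one_re] at h
  linarith

lemma hh_diff (m : ℝ) : DifferentiableOn ℂ (hh m) (Metric.ball 1 1) := by
  intro u hu
  have hs : u ∈ Complex.slitPlane := Or.inl (re_pos hu)
  have h0 : u ≠ 0 := Complex.slitPlane_ne_zero hs
  refine DifferentiableAt.differentiableWithinAt ?_
  unfold hh
  refine (Complex.differentiableAt_sqrt hs).mul ?_
  fun_prop (disch := assumption)

lemma mem_ball (x y : ℝ) (h : (x - 1) ^ 2 + y ^ 2 < 1) :
    ((x : ℂ) + y * Complex.I) ∈ Metric.ball (1 : ℂ) 1 := by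
  rw [Metric.mem_ball, dist_eq_norm]
  have e : ‖(x : ℂ) + y * Complex.I - 1‖ ^ 2 = (x - 1) ^ 2 + y ^ 2 := by
    rw [Complex.sq_norm, Complex.normSq_apply]
    simp
    ring
  nlinarith [norm_nonneg ((x : ℂ) + y * Complex.I - 1)]

lemma norm_hh (m x y : ℝ) (hm : 0 ≤ m) (hx0 : 0 ≤ x) (hx : x ≤ 1) (hy : y ^ 2 = 1 / 4) :
    ‖hh m (x + y * Complex.I)‖ ≤ 2 * exp (39 / 40 * m) := by
  unfold hh
  rw [norm_mul, Complex.norm_exp]
  have hn : Complex.normSq ((x : ℂ) + y * Complex.I) = x ^ 2 + 1 / 4 := by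
    rw [Complex.normSq_apply, ← hy]
    simp
    ring
  have h1 : ‖Complex.sqrt ((x : ℂ) + y * Complex.I)‖ ≤ 2 := by
    have e : ‖Complex.sqrt ((x : ℂ) + y * Complex.I)‖ ^ 2 = ‖(x : ℂ) + y * Complex.I‖ := by
      rw [← norm_pow, Complex.sqrt, Complex.cpow_ofNat_inv_pow]
    have e2 : ‖(x : ℂ) + y * Complex.I‖ ^ 2 = x ^ 2 + 1 / 4 := by rw [Complex.sq_norm, hn]
    have e3 : ‖(x : ℂ) + y * Complex.I‖ ≤ 2 := by
      nlinarith [norm_nonneg ((x : ℂ) + y * Complex.I)]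
    nlinarith [norm_nonneg (Complex.sqrt ((x : ℂ) + y * Complex.I))]
  have h2 : ((m : ℂ) / 2 * (((x : ℂ) + y * Complex.I) + ((x : ℂ) + y * Complex.I)⁻¹)).re =
      m / 2 * (x + x / (x ^ 2 + 1 / 4)) := by
    have : ((m : ℂ) / 2) = ((m / 2 : ℝ) : ℂ) := by push_cast; ring
    rw [this, Complex.re_ofReal_mul, Complex.add_re, Complex.inv_re, hn]
    simp
  have h3 : x / (x ^ 2 + 1 / 4) ≤ 39 / 20 - x := by
    rw [div_le_iff₀ (by positivity)]
    nlinarith [mul_nonneg (sq_nonneg x) (sub_nonneg.2 hx), sq_nonneg (x - 2 / 3)]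
  rw [h2]
  refine mul_le_mul h1 (exp_le_exp.2 ?_) (exp_pos _).le (by norm_num)
  nlinarith

lemma seg (m : ℝ) (hm : 0 ≤ m) (P : ℂ → ℂ)
    (hP : ∀ z ∈ Metric.ball (1 : ℂ) 1, HasDerivAt P (hh m z) z) (a y : ℝ) (ha : 1 / 2 ≤ a)
    (ha1 : a ≤ 1) (hy : y ^ 2 = 1 / 4) :
    ‖P (1 + y * Complex.I) - P (a + y * Complex.I)‖ ≤ 2 * exp (39 / 40 * m) := by
  have hd : ∀ x ∈ Icc a 1, HasDerivWithinAt (fun x : ℝ => P (x + y * Complex.I))
      (hh m (x + y * Complex.I)) (Icc a 1) x := by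
    intro x hx
    have h1 : HasDerivAt (fun x : ℝ => (x : ℂ) + y * Complex.I) 1 x :=
      (Complex.ofRealCLM.hasDerivAt (x := x)).add_const _
    have h2 := (hP _ (mem_ball x y (by nlinarith [hx.1, hx.2]))).comp x h1
    rw [mul_one] at h2
    exact h2.hasDerivWithinAt
  have h := norm_image_sub_le_of_norm_deriv_le_segment' hd
    (fun x hx => norm_hh m x y hm (by linarith [hx.1]) hx.2.le hy) 1 ⟨ha1, le_rfl⟩
  simp only [Complex.ofReal_one] at h
  nlinarith [exp_pos (39 / 40 * m)]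

lemma path1 (m : ℝ) (P : ℂ → ℂ) (hP : ∀ z ∈ Metric.ball (1 : ℂ) 1, HasDerivAt P (hh m z) z) :
    (∫ t in (-(1 / 2) : ℝ)..(1 / 2), hh m (1 + t * Complex.I)).re =
      (P (1 + ((1 / 2 : ℝ) : ℂ) * Complex.I) - P (1 + ((-(1 / 2) : ℝ) : ℂ) * Complex.I)).im := by
  have hb : ∀ t ∈ uIcc (-(1 / 2) : ℝ) (1 / 2), (1 + (t : ℂ) * Complex.I) ∈ Metric.ball (1 : ℂ) 1 := by
    intro t ht
    rw [uIcc_of_le (by norm_num)] at ht
    have := mem_ball 1 t (by nlinarith [ht.1, ht.2])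
    simpa using this
  have hd : ∀ t ∈ uIcc (-(1 / 2) : ℝ) (1 / 2), HasDerivAt (fun t : ℝ => P (1 + t * Complex.I))
      (hh m (1 + t * Complex.I) * Complex.I) t := by
    intro t ht
    have h1 : HasDerivAt (fun t : ℝ => 1 + (t : ℂ) * Complex.I) Complex.I t := by
      have := ((Complex.ofRealCLM.hasDerivAt (x := t)).mul_const Complex.I).const_add 1
      simpa using this
    exact (hP _ (hb t ht)).comp t h1
  have hc : ContinuousOn (fun t : ℝ => hh m (1 + t * Complex.I) * Complex.I)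
      (uIcc (-(1 / 2) : ℝ) (1 / 2)) := by
    refine ContinuousOn.mul ?_ continuousOn_const
    exact (hh_diff m).continuousOn.comp (by fun_prop) hb
  have h := intervalIntegral.integral_eq_sub_of_hasDerivAt hd hc.intervalIntegrable
  rw [intervalIntegral.integral_mul_const] at h
  rw [← h]
  simp

/-- the point of the unit circle -/
noncomputable def ww (φ : ℝ) : ℂ := (cos φ : ℝ) + (sin φ : ℝ) * Complex.I

lemma ww_sq (φ : ℝ) : ww φ ^ 2 = (cos (2 * φ) : ℝ) + (sin (2 * φ) : ℝ) * Complex.I := by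
  unfold ww
  rw [cos_two_mul', sin_two_mul]
  push_cast
  ring_nf
  rw [Complex.I_sq]
  ring

lemma hh_ww (m φ : ℝ) (h : 0 < cos φ) :
    hh m (ww φ ^ 2) = ww φ * ((exp m * exp (-(2 * m) * sin φ ^ 2) : ℝ) : ℂ) := by
  unfold hh
  have h1 : Complex.sqrt (ww φ ^ 2) = ww φ := by
    refine Complex.sq_cpow_two_inv ?_
    unfold ww
    simpa [Complex.cos_ofReal_re] using h
  have h2 : (ww φ ^ 2)⁻¹ = (cos (2 * φ) : ℝ) - (sin (2 * φ) : ℝ) * Complex.I := by
    rw [ww_sq]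
    refine inv_eq_of_mul_eq_one_right ?_
    have e : ((cos (2 * φ) : ℝ) : ℂ) ^ 2 + ((sin (2 * φ) : ℝ) : ℂ) ^ 2 = 1 := by
      exact_mod_cast cos_sq_add_sin_sq (2 * φ)
    linear_combination e - ((sin (2 * φ) : ℝ) : ℂ) ^ 2 * Complex.I_sq
  rw [h1, h2, ww_sq, ← exp_add, Complex.ofReal_exp]
  congr 2
  have e : cos (2 * φ) = 1 - 2 * sin φ ^ 2 := by
    rw [cos_two_mul']; nlinarith [cos_sq_add_sin_sq φ]
  rw [e]
  push_cast
  ring

/-- the Gaussian primitive -/
noncomputable def ps (m s : ℝ) : ℝ := ∫ σ in (0 : ℝ)..s, exp (-(2 * m) * σ ^ 2)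

lemma ps_deriv (m s : ℝ) : HasDerivAt (ps m) (exp (-(2 * m) * s ^ 2)) s :=
  (Continuous.integral_hasStrictDerivAt (f := fun σ : ℝ => exp (-(2 * m) * σ ^ 2))
    (by fun_prop) 0 s).hasDerivAt

/-- the real primitive -/
noncomputable def RR (m s : ℝ) : ℝ :=
  2 * exp m * ((1 - 1 / m) * ps m s + s / m * exp (-(2 * m) * s ^ 2))

lemma RR_deriv (m s : ℝ) (hm : m ≠ 0) :
    HasDerivAt (RR m) (2 * exp m * ((1 - 4 * s ^ 2) * exp (-(2 * m) * s ^ 2))) s := by
  have h1 : HasDerivAt (fun s : ℝ => exp (-(2 * m) * s ^ 2))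
      (exp (-(2 * m) * s ^ 2) * (-(2 * m) * (2 * s))) s := by
    have := ((hasDerivAt_pow 2 s).const_mul (-(2 * m))).exp
    simpa using this
  have h2 := (((ps_deriv m s).const_mul (1 - 1 / m)).add
    (((hasDerivAt_id s).div_const m).mul h1)).const_mul (2 * exp m)
  refine HasDerivAt.congr_deriv h2 ?_
  simp only [id]
  field_simp
  ring

lemma path2 (m : ℝ) (hm : m ≠ 0) (P : ℂ → ℂ)
    (hP : ∀ z ∈ Metric.ball (1 : ℂ) 1, HasDerivAt P (hh m z) z) :
    (P (ww (π / 12) ^ 2) - P (ww (-(π / 12)) ^ 2)).im =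
      RR m (sin (π / 12)) - RR m (-sin (π / 12)) := by
  have hd : ∀ φ ∈ uIcc (-(π / 12)) (π / 12),
      HasDerivAt (fun φ : ℝ => (P (ww φ ^ 2)).im - RR m (sin φ)) ((fun _ => (0 : ℝ)) φ) φ := by
    intro φ hφ
    rw [uIcc_of_le (by linarith [pi_pos])] at hφ
    have hq : φ ^ 2 ≤ 1 / 9 := by nlinarith [hφ.1, hφ.2, pi_lt_four, pi_pos]
    have hc : 0 < cos φ := by nlinarith [one_sub_sq_div_two_le_cos (x := φ)]
    have hb : ww φ ^ 2 ∈ Metric.ball (1 : ℂ) 1 := by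
      rw [ww_sq]
      refine mem_ball _ _ ?_
      nlinarith [one_sub_sq_div_two_le_cos (x := 2 * φ), cos_sq_add_sin_sq (2 * φ)]
    have h1 : HasDerivAt ww (((-sin φ : ℝ) : ℂ) + (cos φ : ℝ) * Complex.I) φ :=
      (hasDerivAt_cos φ).ofReal_comp.add ((hasDerivAt_sin φ).ofReal_comp.mul_const _)
    have h2 := (hP _ hb).comp φ (h1.pow 2)
    have h3 := Complex.imCLM.hasFDerivAt.comp_hasDerivAt φ h2
    have h4 := (RR_deriv m (sin φ) hm).comp φ (hasDerivAt_sin φ)
    have h5 := h3.sub h4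
    refine HasDerivAt.congr_deriv h5 ?_
    rw [hh_ww m φ hc]
    unfold ww
    generalize exp m = A
    generalize exp (-(2 * m) * sin φ ^ 2) = B
    have e := cos_sq_add_sin_sq φ
    generalize cos φ = c at e
    generalize sin φ = s at e
    simp
    linear_combination (2 * A * B * c) * e
  have h := intervalIntegral.integral_eq_sub_of_hasDerivAt hd (by simp)
  simp only [intervalIntegral.integral_zero, sin_neg] at h
  rw [Complex.sub_im]
  linarith

lemma tail (m g : ℝ) (hm : 0 < m) (hg : 0 ≤ g) :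
    |ps m g - ps m (-g) - √(π / (2 * m))| ≤ exp (-(m * g ^ 2)) * √(π / m) := by
  have hi : Integrable fun σ : ℝ => exp (-(2 * m) * σ ^ 2) :=
    integrable_exp_neg_mul_sq (by positivity)
  have hj : Integrable fun σ : ℝ => exp (-(m * g ^ 2)) * exp (-m * σ ^ 2) :=
    (integrable_exp_neg_mul_sq hm).const_mul _
  unfold ps
  rw [intervalIntegral.integral_interval_sub_left hi.intervalIntegrable hi.intervalIntegrable,
    intervalIntegral.integral_of_le (by linarith), ← integral_gaussian (2 * m),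
    ← integral_add_compl (s := Ioc (-g) g) measurableSet_Ioc hi, sub_add_cancel_left, abs_neg,
    abs_of_nonneg (integral_nonneg fun σ => (exp_pos _).le), ← integral_gaussian m,
    ← integral_const_mul]
  refine le_trans ?_ (setIntegral_le_integral (s := (Ioc (-g) g)ᶜ) hj
    (Filter.Eventually.of_forall fun σ => by positivity))
  refine setIntegral_mono_on hi.integrableOn hj.integrableOn measurableSet_Ioc.compl ?_
  intro σ hσ
  rw [← exp_add]
  refine exp_le_exp.2 ?_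
  have h : g ^ 2 ≤ σ ^ 2 := by
    simp only [mem_compl_iff, mem_Ioc, not_and_or, not_lt, not_le] at hσ
    rcases hσ with h | h <;> nlinarith
  nlinarith

end ARC

open ARC in
theorem rowARC : RowARC := by
  have hg : 0 < sin (π / 12) := sin_pos_of_pos_of_lt_pi (by positivity) (by linarith [pi_pos])
  have hg1 : sin (π / 12) ≤ 1 := sin_le_one _
  refine ⟨min (1 / 40) (sin (π / 12) ^ 2), 12, lt_min (by norm_num) (by positivity), ?_⟩
  intro m hm
  have hm0 : 0 < m := by linarith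
  obtain ⟨P, hP⟩ := (hh_diff m).isExactOn_ball
  have h1 := path1 m P hP
  have h2 := path2 m hm0.ne' P hP
  have hc : 1 / 2 ≤ cos (π / 6) := by
    nlinarith [one_sub_sq_div_two_le_cos (x := π / 6), pi_lt_four, pi_pos]
  have h3 := seg m hm0.le P hP (cos (π / 6)) (1 / 2) hc (cos_le_one _) (by norm_num)
  have h4 := seg m hm0.le P hP (cos (π / 6)) (-(1 / 2)) hc (cos_le_one _) (by norm_num)
  have e1 : ww (π / 12) ^ 2 = (cos (π / 6) : ℝ) + ((1 / 2 : ℝ) : ℂ) * Complex.I := by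
    rw [ww_sq, show 2 * (π / 12) = π / 6 by ring, sin_pi_div_six]
  have e2 : ww (-(π / 12)) ^ 2 = (cos (π / 6) : ℝ) + ((-(1 / 2) : ℝ) : ℂ) * Complex.I := by
    rw [ww_sq, show 2 * (-(π / 12)) = -(π / 6) by ring, sin_neg, cos_neg, sin_pi_div_six]
  rw [e1, e2] at h2
  have h5 := abs_le.1 ((Complex.abs_im_le_norm _).trans h3)
  have h6 := abs_le.1 ((Complex.abs_im_le_norm _).trans h4)
  have h7 := abs_le.1 (tail m _ hm0 hg.le)
  unfold hh at h1
  rw [h1]
  simp only [Complex.sub_im] at h2 h5 h6 ⊢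
  unfold RR at h2
  rw [neg_sq] at h2
  generalize sin (π / 12) = g at *
  have hE : 0 < exp ((1 - min (1 / 40) (g ^ 2)) * m) := exp_pos _
  have b1 : exp (39 / 40 * m) ≤ exp ((1 - min (1 / 40) (g ^ 2)) * m) :=
    exp_le_exp.2 (by nlinarith [min_le_left (1 / 40 : ℝ) (g ^ 2)])
  have b2 : exp m * exp (-(m * g ^ 2)) ≤ exp ((1 - min (1 / 40) (g ^ 2)) * m) := by
    rw [← exp_add]
    exact exp_le_exp.2 (by nlinarith [min_le_right (1 / 40 : ℝ) (g ^ 2)])
  have b3 : exp m * exp (-(2 * m) * g ^ 2) ≤ exp ((1 - min (1 / 40) (g ^ 2)) * m) := by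
    rw [← exp_add]
    exact exp_le_exp.2 (by nlinarith [min_le_right (1 / 40 : ℝ) (g ^ 2), sq_nonneg g])
  have b4 : √(π / m) ≤ 2 := by
    rw [sqrt_le_left (by norm_num), div_le_iff₀ hm0]
    nlinarith [pi_lt_four]
  have b5 : 0 ≤ 1 - 1 / m := by rw [sub_nonneg, div_le_one hm0]; exact hm
  have b6 : 1 - 1 / m ≤ 1 := by have : 0 < 1 / m := by positivity
                                linarith
  have b7 : 0 ≤ g / m := by positivity
  have b8 : g / m ≤ 1 := by rw [div_le_one hm0]; linarith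
  have b9 : |exp m * ((1 - 1 / m) * (ps m g - ps m (-g) - √(π / (2 * m))))| ≤
      2 * exp ((1 - min (1 / 40) (g ^ 2)) * m) := by
    rw [abs_mul, abs_mul, abs_of_pos (exp_pos m), abs_of_nonneg b5]
    have c1 : (1 - 1 / m) * |ps m g - ps m (-g) - √(π / (2 * m))| ≤ exp (-(m * g ^ 2)) * 2 := by
      calc _ ≤ 1 * (exp (-(m * g ^ 2)) * √(π / m)) :=
            mul_le_mul b6 (abs_le.2 h7) (abs_nonneg _) (by norm_num)
        _ ≤ _ := by rw [one_mul]; exact mul_le_mul_of_nonneg_left b4 (exp_pos _).le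
    nlinarith [mul_le_mul_of_nonneg_left c1 (exp_pos m).le]
  have b10 : 0 ≤ g / m * (exp m * exp (-(2 * m) * g ^ 2)) := by positivity
  have b11 : g / m * (exp m * exp (-(2 * m) * g ^ 2)) ≤ exp ((1 - min (1 / 40) (g ^ 2)) * m) := by
    calc _ ≤ 1 * exp ((1 - min (1 / 40) (g ^ 2)) * m) :=
          mul_le_mul b8 b3 (by positivity) (by norm_num)
      _ = _ := one_mul _
  have b12 := abs_le.1 b9
  rw [neg_div] at h2
  have key : 2 * exp m * ((1 - 1 / m) * ps m g + g / m * exp (-(2 * m) * g ^ 2)) -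
      2 * exp m * ((1 - 1 / m) * ps m (-g) + -(g / m) * exp (-(2 * m) * g ^ 2)) =
      2 * (exp m * ((1 - 1 / m) * (ps m g - ps m (-g) - √(π / (2 * m))))) +
        4 * (g / m * (exp m * exp (-(2 * m) * g ^ 2))) +
        2 * √(π / (2 * m)) * (1 - 1 / m) * exp m := by ring
  rw [key] at h2
  rw [abs_le]
  constructor <;> linarith [h5.1, h5.2, h6.1, h6.2, b12.1, b12.2]

end Pool.Agent.MP_47b17d_nt.H77
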