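import Pool.Agent.MP_47b17d_nt.H77.Spec

/-! The formula of Hardy and Ramanujan with an exponentially small error. -/

set_option autoImplicit false

namespace Pool.Agent.MP_47b17d_nt.H77

open Finset Filter Real MeasureTheory

namespace HR

lemma norm_sqrt_le {w : ℂ} (h : ‖w‖ ≤ 1) : ‖Complex.sqrt w‖ ≤ 1 := by
  have := Complex.norm_cpow_inv_nat w 2
  rw [Nat.cast_ofNat] at this
  rw [Complex.sqrt, this]
  exact rpow_le_one (norm_nonneg _) h (by positivity)

lemma csqrt_mul {r : ℝ} (hr : 0 < r) {w : ℂ} (hw : w ≠ 0) :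
    Complex.sqrt (r * w) = (√r : ℝ) * Complex.sqrt w := by
  have r0 : (r : ℂ) ≠ 0 := by exact_mod_cast hr.ne'
  rw [Complex.sqrt, Complex.sqrt, Complex.cpow_def_of_ne_zero (mul_ne_zero r0 hw),
    Complex.cpow_def_of_ne_zero hw, Complex.log_ofReal_mul hr hw, add_mul, Complex.exp_add,
    sqrt_eq_rpow, rpow_def_of_pos hr, Complex.ofReal_exp]
  congr 2
  push_cast
  ring

lemma be_ge : 3 / 2 ≤ be := by
  unfold be
  nlinarith [pi_gt_three]

lemma be_le : be ≤ 2 := by
  unfold be
  nlinarith [pi_lt_d2, pi_pos]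

/-- the main part of the integrand -/
noncomputable def gm (X : ℝ) (z : ℂ) : ℂ :=
  Complex.sqrt (z / (2 * π)) * Complex.exp (X * z + be / z)

lemma gm_le {X : ℝ} {z : ℂ} (h0 : 0 < z.re) (h1 : ‖z‖ ≤ 2) :
    ‖gm X z‖ ≤ exp (X * z.re + be / z.re) := by
  have a1 : ‖z / (2 * π)‖ ≤ 1 := by
    rw [norm_div, norm_mul, Complex.norm_real, Complex.norm_ofNat, norm_of_nonneg pi_pos.le,
      div_le_one (by positivity)]
    linarith [pi_gt_three]
  have a2 : ((be : ℂ) / z).re ≤ be / z.re := by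
    refine (Complex.re_le_norm _).trans ?_
    rw [norm_div, Complex.norm_real, norm_of_nonneg (by linarith [be_ge])]
    exact div_le_div_of_nonneg_left (by linarith [be_ge]) h0 (Complex.re_le_norm z)
  rw [gm, norm_mul, Complex.norm_exp, Complex.add_re, Complex.re_ofReal_mul]
  exact (mul_le_of_le_one_left (exp_pos _).le (norm_sqrt_le a1)).trans (exp_le_exp.2 (by linarith))

lemma split (h2 : RowMOD) (n : ℕ) {z : ℂ} (h0 : 0 < z.re) :
    Complex.exp (n * z) * (QQ (Complex.exp (-z)))⁻¹ =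
      gm (n - 1 / 24) z * (QQ (Complex.exp (-(4 * π ^ 2 / z))))⁻¹ := by
  rw [h2 z h0, gm, ← mul_assoc, mul_left_comm, ← Complex.exp_add]
  congr 3
  push_cast
  ring

lemma dual (h3 : RowQB) {a θ : ℝ} (a0 : 0 < a) (a1 : a ≤ 1) (hθ : |θ| ≤ a / 2) :
    ‖(QQ (Complex.exp (-(4 * π ^ 2 / ((a : ℂ) + θ * Complex.I)))))⁻¹ - 1‖ ≤ 4 * exp (-(28 / a)) := by
  have b1 : 28 / a ≤ (4 * π ^ 2 / ((a : ℂ) + θ * Complex.I)).re := by
    have e : (4 * π ^ 2 / ((a : ℂ) + θ * Complex.I)).re = 4 * π ^ 2 * a / (a ^ 2 + θ ^ 2) := by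
      rw [show (4 * π ^ 2 : ℂ) = ((4 * π ^ 2 : ℝ) : ℂ) by push_cast; ring, div_eq_mul_inv,
        Complex.re_ofReal_mul, Complex.inv_re, Complex.normSq_add_mul_I]
      simp [mul_div_assoc]
    have c1 : θ ^ 2 ≤ (a / 2) ^ 2 := by
      rw [← sq_abs θ]
      exact pow_le_pow_left₀ (abs_nonneg _) hθ 2
    have c2 : 9 ≤ π ^ 2 := by nlinarith [pi_gt_three]
    rw [e, div_le_div_iff₀ a0 (by positivity)]
    nlinarith [mul_le_mul_of_nonneg_right c2 (sq_nonneg a)]
  have b2 : ‖Complex.exp (-(4 * π ^ 2 / ((a : ℂ) + θ * Complex.I)))‖ ≤ exp (-(28 / a)) := by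
    rw [Complex.norm_exp, Complex.neg_re]
    exact exp_le_exp.2 (by linarith)
  have b3 : exp (-(28 / a)) ≤ 1 / 4 := by
    have c1 : 28 ≤ 28 / a := by rw [le_div_iff₀ a0]; linarith
    have c2 := add_one_le_exp (28 / a)
    rw [exp_neg, one_div]
    exact inv_anti₀ (by norm_num) (by linarith)
  exact (h3 _ (b2.trans b3)).trans (by linarith)

lemma exp_small {a : ℝ} (a0 : 0 < a) (a1 : a ≤ 1) : 4 * exp (-(28 / a)) ≤ 1 := by
  have c1 : 28 ≤ 28 / a := by rw [le_div_iff₀ a0]; linarith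
  have c2 := add_one_le_exp (28 / a)
  rw [exp_neg, ← div_eq_mul_inv, div_le_one (exp_pos _)]
  linarith

lemma norm_z {a θ : ℝ} (a0 : 0 < a) (a1 : a ≤ 1) (hθ : |θ| ≤ a / 2) :
    ‖(a : ℂ) + θ * Complex.I‖ ≤ 2 := by
  refine (norm_add_le _ _).trans ?_
  rw [norm_mul, Complex.norm_I, Complex.norm_real, Complex.norm_real, norm_of_nonneg a0.le,
    norm_eq_abs]
  linarith

lemma main (h1 : RowGEN) (h2 : RowMOD) (h3 : RowQB) (h4 : RowMIN) (n : ℕ) {m a : ℝ} (m4 : 4 ≤ m)
    (ha : a = 2 * be / m) (hX : (n - 1 / 24) * a = m / 2) :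
    |2 * π * pp n - a * √(a / (2 * π)) *
      (∫ t in (-(1 / 2) : ℝ)..(1 / 2), Complex.sqrt (1 + t * Complex.I) *
        Complex.exp (m / 2 * ((1 + t * Complex.I) + (1 + t * Complex.I)⁻¹))).re| ≤
      4 * π * exp ((1 - 1 / 4000) * m) + 4 := by
  have b1 := be_ge
  have b2 := be_le
  have m0 : 0 < m := by linarith
  have a0 : 0 < a := by rw [ha]; positivity
  have a1 : a ≤ 1 := by rw [ha, div_le_one m0]; linarith
  have e1 : be / a = m / 2 := by rw [ha]; field_simp
  have e2 : 1 / a = m / (2 * be) := by rw [ha]; field_simp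
  have re : ∀ θ : ℝ, ((a : ℂ) + θ * Complex.I).re = a := fun θ => by simp
  set f : ℝ → ℂ := fun θ => Complex.exp (n * ((a : ℂ) + θ * Complex.I)) *
    (QQ (Complex.exp (-((a : ℂ) + θ * Complex.I))))⁻¹ with hf
  set g : ℝ → ℂ := fun θ => gm (n - 1 / 24) ((a : ℂ) + θ * Complex.I) with hg
  have fc : Continuous f := Continuous.mul (by fun_prop) (h1 a a0).1
  have gc : Continuous g := by
    have ne : ∀ θ : ℝ, (a : ℂ) + θ * Complex.I ≠ 0 := fun θ h => by
      have := re θ
      rw [h, Complex.zero_re] at this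
      linarith
    refine Continuous.mul (Continuous.cpow (by fun_prop) continuous_const fun θ => Or.inl ?_)
      (Complex.continuous_exp.comp (Continuous.add (by fun_prop)
        (continuous_const.div (by fun_prop) ne)))
    rw [show (2 * π : ℂ) = ((2 * π : ℝ) : ℂ) by push_cast; ring, Complex.div_ofReal_re, re]
    positivity
  have out : ∀ θ : ℝ, a / 2 ≤ |θ| → |θ| ≤ π → ‖f θ‖ ≤ 2 * exp ((1 - 1 / 4000) * m) := by
    intro θ t1 t2
    have c1 := h4 a θ a0 a1 t1 t2
    have c2 := congrArg norm (split h2 n (z := (a : ℂ) + (0 : ℝ) * Complex.I) (by rwa [re]))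
    have c3 := gm_le (X := n - 1 / 24) (z := (a : ℂ) + (0 : ℝ) * Complex.I) (by rwa [re])
      (norm_z a0 a1 (by simpa using by positivity))
    have c4 := dual h3 (θ := 0) a0 a1 (by simpa using by positivity)
    have c5 := (norm_le_norm_sub_add _ 1).trans (add_le_add_left (c4.trans (exp_small a0 a1)) _)
    rw [norm_mul, norm_mul, Complex.norm_exp] at c2
    rw [re, hX, e1, add_halves] at c3
    have c6 := mul_le_mul c3 c5 (norm_nonneg _) (exp_pos _).le
    rw [← c2, norm_one] at c6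
    simp only [Complex.ofReal_zero, zero_mul, add_zero] at c6
    have c7 : ((n : ℂ) * ((a : ℂ) + θ * Complex.I)).re = ((n : ℂ) * a).re := by simp
    have c8 : exp (-(1 / 1000 / a)) * exp m ≤ exp ((1 - 1 / 4000) * m) := by
      rw [← exp_add, exp_le_exp, div_right_comm, e2]
      have : m / 4 ≤ m / (2 * be) := div_le_div_of_nonneg_left m0.le (by linarith) (by linarith)
      linarith
    rw [hf]
    simp only
    rw [norm_mul, Complex.norm_exp, c7]
    have c9 := mul_le_mul_of_nonneg_left c1 (exp_pos ((n : ℂ) * a).re).le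
    have c10 := mul_le_mul_of_nonneg_left c6 (exp_pos (-(1 / 1000 / a))).le
    linarith
  have ins : ∀ θ : ℝ, |θ| ≤ a / 2 → ‖f θ - g θ‖ ≤ 4 := by
    intro θ t1
    have c3 := gm_le (X := n - 1 / 24) (z := (a : ℂ) + θ * Complex.I) (by rwa [re])
      (norm_z a0 a1 t1)
    rw [re, hX, e1, add_halves] at c3
    rw [hf, hg]
    simp only
    rw [split h2 n (by rwa [re]), ← mul_sub_one, norm_mul]
    refine (mul_le_mul c3 (dual h3 a0 a1 t1) (norm_nonneg _) (exp_pos _).le).trans ?_
    rw [mul_left_comm, ← exp_add]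
    refine mul_le_of_le_one_right (by norm_num) (exp_le_one_iff.2 ?_)
    rw [show 28 / a = 28 * (1 / a) by ring, e2]
    have : m / 4 ≤ m / (2 * be) := div_le_div_of_nonneg_left m0.le (by linarith) (by linarith)
    linarith
  have pi3 := pi_gt_three
  have i1 : ‖∫ θ in (-π)..(-(a / 2)), f θ‖ ≤ 2 * exp ((1 - 1 / 4000) * m) * π := by
    refine (intervalIntegral.norm_integral_le_of_norm_le_const fun θ hθ => ?_).trans
      (mul_le_mul_of_nonneg_left ?_ (by positivity))
    · rw [Set.uIoc_of_le (by linarith)] at hθ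
      refine out θ ?_ ?_ <;> rw [abs_of_neg (by linarith [hθ.2])] <;> linarith [hθ.1, hθ.2]
    · rw [abs_le]
      constructor <;> linarith
  have i2 : ‖∫ θ in (a / 2)..π, f θ‖ ≤ 2 * exp ((1 - 1 / 4000) * m) * π := by
    refine (intervalIntegral.norm_integral_le_of_norm_le_const fun θ hθ => ?_).trans
      (mul_le_mul_of_nonneg_left ?_ (by positivity))
    · rw [Set.uIoc_of_le (by linarith)] at hθ
      refine out θ ?_ ?_ <;> rw [abs_of_pos (by linarith [hθ.1])] <;> linarith [hθ.1, hθ.2]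
    · rw [abs_le]
      constructor <;> linarith
  have i3 : ‖∫ θ in (-(a / 2))..(a / 2), (f θ - g θ)‖ ≤ 4 * 1 := by
    refine (intervalIntegral.norm_integral_le_of_norm_le_const fun θ hθ => ?_).trans
      (mul_le_mul_of_nonneg_left ?_ (by positivity))
    · rw [Set.uIoc_of_le (by linarith)] at hθ
      exact ins θ (abs_le.2 ⟨hθ.1.le, hθ.2⟩)
    · rw [abs_le]
      constructor <;> linarith
  have i4 : ∫ θ in (-(a / 2))..(a / 2), g θ = ((a * √(a / (2 * π)) : ℝ) : ℂ) *
      ∫ t in (-(1 / 2) : ℝ)..(1 / 2), Complex.sqrt (1 + t * Complex.I) *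
        Complex.exp (m / 2 * ((1 + t * Complex.I) + (1 + t * Complex.I)⁻¹)) := by
    have c1 := intervalIntegral.smul_integral_comp_mul_left (a := -(1 / 2)) (b := 1 / 2) g a
    rw [show a * -(1 / 2) = -(a / 2) by ring, show a * (1 / 2) = a / 2 by ring] at c1
    rw [← c1, Complex.real_smul, Complex.ofReal_mul, mul_assoc,
      ← intervalIntegral.integral_const_mul (((√(a / (2 * π)) : ℝ)) : ℂ)]
    congr 1
    refine intervalIntegral.integral_congr fun t _ => ?_
    have ne : (1 : ℂ) + t * Complex.I ≠ 0 := fun h => by simpa using congrArg Complex.re h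
    have a0' : (a : ℂ) ≠ 0 := by exact_mod_cast a0.ne'
    simp only [hg, gm]
    rw [← mul_assoc, ← csqrt_mul (by positivity) ne]
    have d1 : ((n - 1 / 24 : ℝ) : ℂ) * a = m / 2 := by exact_mod_cast congrArg Complex.ofReal hX
    have d2 : (be : ℂ) = m / 2 * a := by
      have : be = m / 2 * a := by rw [← e1]; field_simp
      rw [this]
      push_cast
      ring
    congr 2
    · push_cast
      ring
    · rw [d2, show (a : ℂ) + ((a * t : ℝ) : ℂ) * Complex.I = a * (1 + t * Complex.I) by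
        push_cast; ring, ← mul_assoc, d1]
      field_simp
  have j1 := (h1 a a0).2 n
  rw [← intervalIntegral.integral_add_adjacent_intervals (fc.intervalIntegrable _ (a / 2))
    (fc.intervalIntegrable _ _), ← intervalIntegral.integral_add_adjacent_intervals
    (fc.intervalIntegrable _ (-(a / 2))) (fc.intervalIntegrable _ _)] at j1
  rw [intervalIntegral.integral_sub (fc.intervalIntegrable _ _) (gc.intervalIntegrable _ _),
    i4] at i3
  rw [← Complex.re_ofReal_mul, show 2 * π * (pp n : ℝ) = (2 * π * pp n : ℂ).re by simp, j1,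
    ← Complex.sub_re]
  refine (Complex.abs_re_le_norm _).trans ?_
  rw [add_sub_right_comm, add_sub_assoc]
  linarith [norm_add₃_le (a := ∫ θ in (-π)..(-(a / 2)), f θ) (c := ∫ θ in (a / 2)..π, f θ)
    (b := (∫ θ in (-(a / 2))..(a / 2), f θ) - ((a * √(a / (2 * π)) : ℝ) : ℂ) *
      ∫ t in (-(1 / 2) : ℝ)..(1 / 2), Complex.sqrt (1 + t * Complex.I) *
        Complex.exp (m / 2 * ((1 + t * Complex.I) + (1 + t * Complex.I)⁻¹)))]

lemma log_close {x G ε : ℝ} (G0 : 0 < G) (h : |x - G| ≤ ε * G) (hε : ε ≤ 1 / 2) :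
    |log x - log G| ≤ 2 * ε := by
  rw [abs_le] at h
  have x0 : 0 < x := by nlinarith
  have e0 : 0 ≤ ε := by nlinarith
  have a1 := log_le_sub_one_of_pos (div_pos x0 G0)
  have a2 := log_le_sub_one_of_pos (div_pos G0 x0)
  rw [log_div x0.ne' G0.ne'] at a1
  rw [log_div G0.ne' x0.ne'] at a2
  have a3 : x / G ≤ 1 + ε := by rw [div_le_iff₀ G0]; linarith
  have a4 : G / x ≤ 1 + 2 * ε := by
    rw [div_le_iff₀ x0]
    nlinarith [mul_le_mul_of_nonneg_left h.1 (by linarith : 0 ≤ 1 + 2 * ε),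
      mul_nonneg (mul_nonneg e0 G0.le) (by linarith : 0 ≤ 1 - 2 * ε)]
  rw [abs_le]
  constructor <;> linarith

end HR

open HR in
theorem rowHR (h1 : RowGEN) (h2 : RowMOD) (h3 : RowQB) (h4 : RowMIN) (h5 : RowARC) : RowHR := by
  obtain ⟨c, C, c0, hC⟩ := h5
  set d := min c (1 / 4000) with hd
  have d0 : 0 < d := lt_min c0 (by norm_num)
  have b1 := be_ge
  have b2 := be_le
  refine ⟨d / 2, by positivity, ?_⟩
  have t1 : Tendsto (fun n : ℕ => √(n : ℝ)) atTop atTop :=
    tendsto_sqrt_atTop.comp tendsto_natCast_atTop_atTop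
  have t2 : ∀ n : ℕ, 1 ≤ n → √(n : ℝ) ≤ mu n := fun n hn => by
    have : (1 : ℝ) ≤ n := by exact_mod_cast hn
    rw [mu, show (2 : ℝ) = √4 by rw [show (4 : ℝ) = 2 ^ 2 by norm_num, sqrt_sq (by norm_num)],
      ← sqrt_mul (by norm_num)]
    exact sqrt_le_sqrt (by nlinarith)
  have t3 : Tendsto (fun n : ℕ => mu n) atTop atTop :=
    tendsto_atTop_mono' _ ((eventually_ge_atTop 1).mono t2) t1
  have t4 := (tendsto_exp_div_pow_atTop 2).comp (t3.const_mul_atTop (half_pos d0))
  filter_upwards [eventually_ge_atTop 1, t3.eventually_ge_atTop 4,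
    t4.eventually_ge_atTop (8 * (|C| + 3) / (d / 2) ^ 2)] with n n1 m4 n3
  have n1' : (1 : ℝ) ≤ n := by exact_mod_cast n1
  have t5 := t2 n n1
  have msq : mu n ^ 2 = 4 * (be * (n - 1 / 24)) := by
    rw [mu, mul_pow, sq_sqrt (by nlinarith)]
    norm_num
  simp only [Function.comp] at n3
  rw [ff]
  generalize mu n = m at *
  have m0 : 0 < m := by linarith
  have a1 := main h1 h2 h3 h4 n m4 rfl (by field_simp; linarith)
  have a2 := hC m (by linarith)
  set a := 2 * be / m with ha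
  have a0 : 0 < a := by positivity
  have pi3 := pi_gt_three
  have u1 : 1 / m ≤ 1 / 4 := one_div_le_one_div_of_le (by norm_num) m4
  have s3 : 0 < √3 := by positivity
  have s4 : √3 ≤ 2 := sqrt_le_iff.2 ⟨by norm_num, by norm_num⟩
  set G := be / √3 / m ^ 2 * (1 - 1 / m) * exp m with hG
  have G1 : exp m / (2 * m ^ 2) ≤ G := by
    have e1 : 3 / 4 ≤ be / √3 := by rw [le_div_iff₀ s3]; linarith
    have e2 := mul_le_mul e1 (show 3 / 4 ≤ 1 - 1 / m by linarith) (by norm_num) (by linarith)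
    calc _ = 1 / 2 * (exp m / m ^ 2) := by ring
      _ ≤ be / √3 * (1 - 1 / m) * (exp m / m ^ 2) :=
          mul_le_mul_of_nonneg_right (by linarith) (by positivity)
      _ = _ := by rw [hG]; ring
  have G0 : 0 < G := lt_of_lt_of_le (by positivity) G1
  have G2 : log (be / √3) - 2 * log m + log (1 - 1 / m) + m = log G := by
    rw [hG, log_mul (by have : 0 < 1 - 1 / m := by linarith
                        positivity) (exp_pos _).ne', log_mul (by positivity) (by linarith),
      log_div (x := be / √3) (by positivity) (by positivity), log_pow, log_exp]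
    norm_num
  have G3 : a * √(a / (2 * π)) * (2 * √(π / (2 * m)) * (1 - 1 / m) * exp m) = 2 * π * G := by
    have e1 : √(a / (2 * π)) * √(π / (2 * m)) = π / √3 / (2 * m) := by
      rw [← sqrt_mul (by positivity), sqrt_eq_iff_mul_self_eq (by positivity) (by positivity), ha,
        be, div_mul_div_comm (π / √3), div_mul_div_comm π, mul_self_sqrt (by norm_num)]
      field_simp
      norm_num
    calc _ = a * (√(a / (2 * π)) * √(π / (2 * m))) * 2 * (1 - 1 / m) * exp m := by ring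
      _ = _ := by
        rw [e1, hG, ha]
        field_simp
  have w1 : a * √(a / (2 * π)) ≤ 1 := by
    have e1 : a ≤ 1 := by rw [ha, div_le_one m0]; linarith
    exact mul_le_one₀ e1 (sqrt_nonneg _) (sqrt_le_one.2 (by
      rw [div_le_one (by positivity)]; linarith))
  have w0 : 0 ≤ a * √(a / (2 * π)) := by positivity
  have x1 : exp ((1 - c) * m) ≤ exp ((1 - d) * m) :=
    exp_le_exp.2 (by nlinarith [min_le_left c (1 / 4000)])
  have x2 : exp ((1 - 1 / 4000) * m) ≤ exp ((1 - d) * m) :=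
    exp_le_exp.2 (by nlinarith [min_le_right c (1 / 4000)])
  have x3 : 1 ≤ exp ((1 - d) * m) := one_le_exp (by nlinarith [min_le_right c (1 / 4000)])
  have y1 : |(pp n : ℝ) - G| ≤ (|C| + 3) * exp ((1 - d) * m) := by
    have e1 := mul_le_mul w1 (a2.trans (mul_le_mul (le_abs_self C) x1 (exp_pos _).le
      (abs_nonneg C))) (abs_nonneg _) zero_le_one
    rw [← abs_of_nonneg w0, ← abs_mul, mul_sub, G3] at e1
    have e2 := (abs_sub_le _ _ _).trans (add_le_add a1 e1)
    rw [← mul_sub, abs_mul, abs_of_pos (by positivity : 0 < 2 * π)] at e2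
    have e3 : 0 ≤ |C| * exp ((1 - d) * m) := by positivity
    refine le_of_mul_le_mul_left (e2.trans ?_) (by positivity : 0 < 2 * π)
    nlinarith [mul_le_mul_of_nonneg_left x2 pi_pos.le, mul_le_mul_of_nonneg_left x3 pi_pos.le,
      mul_le_mul_of_nonneg_right pi3.le e3]
  have y2 : (|C| + 3) * exp ((1 - d) * m) ≤ exp (-(d / 2 * m)) / 2 * G := by
    refine le_trans ?_ (mul_le_mul_of_nonneg_left G1 (by positivity))
    rw [div_le_div_iff₀ (by positivity) (by positivity), mul_pow] at n3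
    have e1 : 8 * (|C| + 3) * m ^ 2 ≤ exp (d / 2 * m) :=
      le_of_mul_le_mul_right (by linarith) (by positivity : 0 < (d / 2) ^ 2)
    have e2 : exp (-(d / 2 * m)) * exp m = exp (d / 2 * m) * exp ((1 - d) * m) := by
      rw [← exp_add, ← exp_add]
      congr 1
      ring
    rw [div_mul_div_comm, e2, le_div_iff₀ (by positivity)]
    have e3 := mul_le_mul_of_nonneg_right e1 (exp_pos ((1 - d) * m)).le
    have e4 : 0 ≤ (|C| + 3) * m ^ 2 * exp ((1 - d) * m) := by positivity
    linarith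
  have y3 : exp (-(d / 2 * m)) ≤ 1 := exp_le_one_iff.2 (by nlinarith)
  rw [G2]
  refine (log_close G0 (y1.trans y2) (by linarith)).trans ?_
  rw [mul_div_cancel₀ _ two_ne_zero, exp_le_exp]
  nlinarith

end Pool.Agent.MP_47b17d_nt.H77
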