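import Pool.Agent.MP_47b17d_nt.H77.Spec

/-! Row MIN: the minor arc. -/

set_option autoImplicit false

namespace Pool.Agent.MP_47b17d_nt.H77

open Finset Filter Real Topology

namespace MIN

theorem factor {w : ℂ} (hw : ‖w‖ < 1) :
    ‖(1 : ℂ) - (‖w‖ : ℝ)‖ * exp ((‖w‖ - w.re) / 5) ≤ ‖1 - w‖ := by
  have h0 := norm_nonneg w
  have h1 := abs_le.1 (Complex.abs_re_le_norm w)
  have h2 : ‖(1 : ℂ) - (‖w‖ : ℝ)‖ = 1 - ‖w‖ := by
    rw [← Complex.ofReal_one, ← Complex.ofReal_sub, Complex.norm_real, Real.norm_of_nonneg]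
    linarith
  have h3 : ‖1 - w‖ ^ 2 = (1 - ‖w‖) ^ 2 + 2 * (‖w‖ - w.re) := by
    have := Complex.sq_norm w
    rw [Complex.sq_norm, Complex.normSq_apply] at *
    simp only [Complex.sub_re, Complex.one_re, Complex.sub_im, Complex.one_im]
    have h4 : ‖w‖ ^ 2 = w.re * w.re + w.im * w.im := by rw [Complex.sq_norm, Complex.normSq_apply]
    linear_combination -h4
  set D := ‖w‖ - w.re with hD
  have h5 : 0 ≤ D := by linarith
  have h6 : D ≤ 2 := by linarith
  have h7 : exp (D / 5) ^ 2 ≤ 1 + 2 * D := by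
    rw [← exp_nat_mul]
    have := (abs_le.1 (abs_exp_sub_one_sub_id_le (x := (2 : ℕ) * (D / 5))
      (by rw [abs_of_nonneg (by positivity)]; push_cast; linarith))).2
    push_cast at this ⊢
    nlinarith
  rw [h2]
  refine (abs_le_of_sq_le_sq' ?_ (norm_nonneg _)).2
  rw [mul_pow, h3]
  have h8 : (1 - ‖w‖) ^ 2 ≤ 1 := by nlinarith
  nlinarith [sq_nonneg (1 - ‖w‖)]

theorem prod_ge {q : ℂ} (hq : ‖q‖ < 1) :
    ‖QQ (‖q‖ : ℝ)‖ * exp ((‖q‖ / (1 - ‖q‖) - (q / (1 - q)).re) / 5) ≤ ‖QQ q‖ := by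
  have hr : ‖((‖q‖ : ℝ) : ℂ)‖ < 1 := by simpa using hq
  have h1 := (ModularForm.multipliable_one_sub_pow hq).hasProd.tendsto_prod_nat.norm
  have h2 := (ModularForm.multipliable_one_sub_pow hr).hasProd.tendsto_prod_nat.norm
  have h3 : HasSum (fun k : ℕ => q ^ (k + 1)) (q / (1 - q)) := by
    simpa [pow_succ', div_eq_mul_inv] using (hasSum_geometric_of_norm_lt_one hq).mul_left q
  have h4 : HasSum (fun k : ℕ => ‖q‖ ^ (k + 1)) (‖q‖ / (1 - ‖q‖)) := by
    simpa [pow_succ', div_eq_mul_inv] using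
      (hasSum_geometric_of_lt_one (norm_nonneg q) hq).mul_left ‖q‖
  have h5 := ((h4.sub (Complex.hasSum_re h3)).div_const 5).tendsto_sum_nat
  refine le_of_tendsto_of_tendsto' (h2.mul (continuous_exp.continuousAt.tendsto.comp h5)) h1
    fun K => ?_
  simp only [Function.comp, exp_sum, norm_prod, ← prod_mul_distrib]
  refine prod_le_prod (fun k _ => by positivity) fun k _ => ?_
  have := factor (w := q ^ (k + 1)) (by
    rw [norm_pow]
    exact pow_lt_one₀ (norm_nonneg q) hq (by omega))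
  rwa [norm_pow, Complex.ofReal_pow] at this

theorem ne_zero {q : ℂ} (hq : ‖q‖ < 1) : QQ q ≠ 0 := by
  have := tprod_one_add_ne_zero_of_summable (f := fun n : ℕ => -q ^ (n + 1)) (fun i h => by
    have h1 : q ^ (i + 1) = 1 := by linear_combination -h
    have h2 := pow_lt_one₀ (norm_nonneg q) hq (Nat.succ_ne_zero i)
    rw [← norm_pow, h1, norm_one] at h2
    exact lt_irrefl _ h2) (by
    simpa using (summable_nat_add_iff 1).mpr (summable_geometric_of_lt_one (norm_nonneg _) hq))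
  simpa [QQ, sub_eq_add_neg] using this

theorem gap {a θ : ℝ} {q : ℂ} (ha : 0 < a) (h1 : a ≤ 1) (h2 : a / 2 ≤ |θ|) (h3 : |θ| ≤ π)
    (hn : ‖q‖ = exp (-a)) (hre : q.re = exp (-a) * cos θ) :
    1 / 1000 / a ≤ (‖q‖ / (1 - ‖q‖) - (q / (1 - q)).re) / 5 := by
  set r := exp (-a) with hr
  have r1 : r < 1 := exp_lt_one_iff.2 (by linarith)
  have r2 : 0.367 < r := lt_of_lt_of_le (by linarith [exp_neg_one_gt_d9])
    (exp_le_exp.2 (neg_le_neg h1))
  have r3 : 1 - r ≤ a := by linarith [add_one_le_exp (-a)]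
  have hc := cos_le_one_sub_mul_cos_sq h3
  have hθ : a ^ 2 / 4 ≤ θ ^ 2 := by
    rw [← sq_abs θ]
    nlinarith
  have hp : π ^ 2 < 10 := by nlinarith [pi_lt_d2, pi_pos]
  have hp2 : 1 / 5 ≤ 2 / π ^ 2 := by
    rw [div_le_div_iff₀ (by norm_num) (by positivity)]
    linarith
  have hc2 : a ^ 2 / 20 ≤ 1 - cos θ := by nlinarith [sq_nonneg a]
  have h4 : ‖1 - q‖ ^ 2 = (1 - r) ^ 2 + 2 * r * (1 - cos θ) := by
    have h5 : r ^ 2 = q.re * q.re + q.im * q.im := by
      rw [← hn, Complex.sq_norm, Complex.normSq_apply]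
    rw [Complex.sq_norm, Complex.normSq_apply]
    simp only [Complex.sub_re, Complex.one_re, Complex.sub_im, Complex.one_im]
    linear_combination -h5 - 2 * hre
  have h6 : (1 - r) * (61 / 60) ≤ ‖1 - q‖ := by
    refine (abs_le_of_sq_le_sq' ?_ (norm_nonneg _)).2
    rw [h4]
    have h7 : (1 - r) ^ 2 ≤ a ^ 2 := by nlinarith
    nlinarith [sq_nonneg a]
  have h8 : (q / (1 - q)).re ≤ r / ((1 - r) * (61 / 60)) := by
    refine (Complex.re_le_norm _).trans ?_
    rw [norm_div, hn]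
    exact div_le_div_of_nonneg_left (by linarith) (by linarith) h6
  have h9 : r / a ≤ r / (1 - r) := div_le_div_of_nonneg_left (by linarith) (by linarith) r3
  have h10 : 0.367 / a ≤ r / a := div_le_div_of_nonneg_right r2.le ha.le
  have h11 : 0 < 1 / a := by positivity
  rw [hn]
  rw [div_mul_eq_div_div] at h8
  have e1 : 1 / 1000 / a = 1 / 1000 * (1 / a) := by ring
  have e2 : 0.367 / a = 0.367 * (1 / a) := by ring
  linarith

end MIN

theorem rowMIN : RowMIN := by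
  intro a θ ha h1 h2 h3
  set q := Complex.exp (-((a : ℂ) + θ * Complex.I)) with hq
  have hn : ‖q‖ = exp (-a) := by simp [hq, Complex.norm_exp]
  have hre : q.re = exp (-a) * cos θ := by simp [hq, Complex.exp_re]
  have hlt : ‖q‖ < 1 := hn ▸ exp_lt_one_iff.2 (by linarith)
  have e : Complex.exp (-(a : ℂ)) = ((‖q‖ : ℝ) : ℂ) := by rw [hn]; simp
  have h4 := MIN.prod_ge hlt
  have h5 := exp_le_exp.2 (MIN.gap ha h1 h2 h3 hn hre)
  have h6 : 0 < ‖QQ (‖q‖ : ℝ)‖ := norm_pos_iff.2 (MIN.ne_zero (by simpa using hlt))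
  rw [e, norm_inv, norm_inv, exp_neg, ← mul_inv, mul_comm]
  exact inv_anti₀ (by positivity) ((mul_le_mul_of_nonneg_left h5 h6.le).trans h4)

end Pool.Agent.MP_47b17d_nt.H77
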