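import Pool.Agent.MP_47b17d_nt.H77.Spec

/-! The modular transformation of the Euler product and its size near zero. -/

set_option autoImplicit false

namespace Pool.Agent.MP_47b17d_nt.H77

open Finset Filter Real MeasureTheory

namespace MOD

theorem sq {w : ℂ} (h : 0 < w.re) :
    Complex.sqrt (Complex.I * w) = Complex.sqrt Complex.I * Complex.sqrt w := by
  have w0 : w ≠ 0 := fun e => by simp [e] at h
  have a := abs_lt.1 (Complex.abs_arg_lt_pi_div_two_iff.2 (.inl h))
  have l : Complex.log (Complex.I * w) = Complex.log Complex.I + Complex.log w :=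
    (Complex.log_mul_eq_add_log_iff Complex.I_ne_zero w0).2 (by
      rw [Complex.arg_I]
      constructor <;> linarith [a.1, a.2, pi_pos])
  simp only [Complex.sqrt]
  rw [Complex.cpow_def_of_ne_zero (mul_ne_zero Complex.I_ne_zero w0),
    Complex.cpow_def_of_ne_zero Complex.I_ne_zero, Complex.cpow_def_of_ne_zero w0, l, add_mul,
    Complex.exp_add]

theorem et (τ : ℂ) : ModularForm.eta τ = Complex.exp (2 * π * Complex.I * τ / 24) *
    QQ (Complex.exp (2 * π * Complex.I * τ)) := by
  simp only [ModularForm.eta, QQ, ModularForm.eta_q_eq_pow, Function.Periodic.qParam]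
  norm_num

theorem near {q : ℂ} (h : ‖q‖ ≤ 1 / 4) : ‖QQ q - 1‖ ≤ 16 / 9 * ‖q‖ := by
  have n0 := norm_nonneg q
  have m := (ModularForm.multipliable_one_sub_pow (q := q) (by linarith)).hasProd.tendsto_prod_nat
  refine le_of_tendsto' ((m.sub_const 1).norm) fun K => ?_
  have s : ∑ k ∈ range K, ‖-q ^ (k + 1)‖ ≤ 4 / 3 * ‖q‖ := by
    simp only [norm_neg, norm_pow]
    suffices ∑ k ∈ range K, ‖q‖ ^ (k + 1) ≤ 4 / 3 * (‖q‖ - ‖q‖ ^ (K + 1)) by
      have := pow_nonneg n0 (K + 1)
      linarith
    induction K with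
    | zero => simp
    | succ K ih =>
      rw [sum_range_succ, pow_succ _ (K + 1)]
      have := mul_le_mul_of_nonneg_left h (pow_nonneg n0 (K + 1))
      linarith
  have e := (range K).norm_prod_one_add_sub_one_le fun k => -q ^ (k + 1)
  simp only [← sub_eq_add_neg] at e
  have b := abs_le.1 (Real.abs_exp_sub_one_sub_id_le (x := 4 / 3 * ‖q‖)
    (by rw [abs_of_nonneg (by positivity)]; linarith))
  have := Real.exp_le_exp.2 s
  nlinarith [b.2]

end MOD

open MOD

theorem rowMOD : RowMOD := by
  intro z h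
  have z0 : z ≠ 0 := fun e => by simp [e] at h
  have p0 : (π : ℂ) ≠ 0 := Complex.ofReal_ne_zero.2 pi_pos.ne'
  have hw : 0 < (z / (2 * π)).re := by
    rw [show (2 * π : ℂ) = ((2 * π : ℝ) : ℂ) by push_cast; rfl, Complex.div_ofReal_re]
    positivity
  have hm : Complex.I * (z / (2 * π)) ∈ UpperHalfPlane.upperHalfPlaneSet := by
    show 0 < (Complex.I * (z / (2 * π))).im
    rwa [Complex.I_mul_im]
  have k := ModularForm.eta_comp_eq_csqrt_I_inv hm
  have n0 := ModularForm.eta_ne_zero hm
  have s0 : Complex.sqrt Complex.I ≠ 0 := by simp [Complex.sqrt]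
  have s1 : Complex.sqrt (z / (2 * π)) ≠ 0 := by simp [Complex.sqrt, z0]
  have e1 : 2 * π * Complex.I * (Complex.I * (z / (2 * π))) = -z := by
    field_simp
    simp
  have e2 : 2 * π * Complex.I * (-1 / (Complex.I * (z / (2 * π)))) = -(4 * π ^ 2 / z) := by
    field_simp
    ring
  simp only [Function.comp, Pi.smul_apply, Pi.mul_apply, smul_eq_mul, et, sq hw, e1, e2] at k n0
  have q0 := right_ne_zero_of_mul n0
  have e3 : Complex.exp (-(4 * π ^ 2 / z) / 24) * Complex.exp (be / z - z / 24) =
      Complex.exp (-z / 24) := by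
    rw [← Complex.exp_add, be]
    congr 1
    push_cast
    ring
  have e4 : QQ (Complex.exp (-(4 * π ^ 2 / z))) = Complex.sqrt (z / (2 * π)) *
      Complex.exp (be / z - z / 24) * QQ (Complex.exp (-z)) := by
    refine mul_left_cancel₀ (Complex.exp_ne_zero (-(4 * π ^ 2 / z) / 24)) ?_
    rw [k, ← e3]
    field_simp
  have x0 := Complex.exp_ne_zero (be / z - z / 24)
  rw [e4]
  field_simp

theorem rowQB : RowQB := by
  intro q h
  have n0 := norm_nonneg q
  have a := near h
  have b : 5 / 9 ≤ ‖QQ q‖ := by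
    have := norm_sub_norm_le (1 : ℂ) (QQ q)
    rw [norm_one, norm_sub_rev] at this
    linarith
  have q0 : QQ q ≠ 0 := norm_pos_iff.1 (by linarith)
  rw [show (QQ q)⁻¹ - 1 = -(QQ q - 1) / QQ q by field_simp; ring, norm_div, norm_neg,
    div_le_iff₀ (by linarith)]
  nlinarith

end Pool.Agent.MP_47b17d_nt.H77
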