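import Pool.Agent.MP_47b17d_nt.H77.GEN
import Pool.Agent.MP_47b17d_nt.H77.MOD
import Pool.Agent.MP_47b17d_nt.H77.MIN
import Pool.Agent.MP_47b17d_nt.H77.ARC
import Pool.Agent.MP_47b17d_nt.H77.HR
import Pool.Agent.MP_47b17d_nt.H77.APX

/-! The asymptotic formula without hypotheses. -/

set_option autoImplicit false

namespace Pool.Agent.MP_47b17d_nt.H77

theorem hr0 : RowHR := rowHR rowGEN rowMOD rowQB rowMIN rowARC

theorem apx0 : RowAPX := rowAPX hr0

end Pool.Agent.MP_47b17d_nt.H77
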