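import Pool.Agent.MP_47b17d_nt.H77.Spec

/-! Combinations of logarithms and the chain lemma. -/

set_option autoImplicit false

namespace Pool.Agent.MP_47b17d_nt.H77

open Finset Filter Real

namespace CH

theorem pp_pos (n : ℕ) : 0 < pp n := by
  unfold pp
  exact Fintype.card_pos

theorem pp_le (n : ℕ) : pp n ≤ 2 ^ n := by
  unfold pp
  have h1 : Fintype.card (Nat.Partition n) ≤ Fintype.card (Composition n) :=
    Fintype.card_le_of_surjective (Nat.Partition.ofComposition n) Nat.Partition.ofComposition_surj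
  rw [composition_card] at h1
  exact h1.trans (Nat.pow_le_pow_right (by norm_num) (Nat.sub_le n 1))

theorem base_gen (S : Finset ℕ) (m n : ℕ) (hm : 0 < m) (hle : m ≤ 2 ^ n)
    (hS : m.primeFactors ⊆ S) : Comb S n (log m) := by
  have hprod : ∏ l ∈ m.primeFactors, l ^ m.factorization l = m := by
    have := Nat.prod_factorization_pow_eq_self hm.ne'
    rw [Finsupp.prod, Nat.support_factorization] at this
    exact this
  have hz : ∀ l ∈ S, l ∉ m.primeFactors → m.factorization l = 0 := by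
    intro l _ hl
    rw [← Nat.support_factorization, Finsupp.mem_support_iff] at hl
    exact not_not.mp hl
  refine ⟨fun l => (m.factorization l : ℤ), ?_, ?_⟩
  · have h1 : log (m : ℝ) = ∑ l ∈ m.primeFactors, (m.factorization l : ℝ) * log l := by
      conv_lhs => rw [← hprod]
      push_cast
      rw [Real.log_prod]
      · exact Finset.sum_congr rfl fun l _ => by rw [Real.log_pow]
      · intro l hl
        have := (Nat.prime_of_mem_primeFactors hl).pos
        positivity
    rw [h1]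
    push_cast
    refine Finset.sum_subset hS ?_
    intro l hl hl'
    rw [hz l hl hl']
    simp
  · have h2 : 2 ^ (∑ l ∈ m.primeFactors, m.factorization l) ≤ m := by
      conv_rhs => rw [← hprod]
      rw [← Finset.prod_pow_eq_pow_sum]
      refine Finset.prod_le_prod (fun _ _ => Nat.zero_le _) fun l hl => ?_
      exact Nat.pow_le_pow_left (Nat.prime_of_mem_primeFactors hl).two_le _
    have h3 : ∑ l ∈ m.primeFactors, m.factorization l ≤ n :=
      (Nat.pow_le_pow_iff_right (by norm_num)).mp (h2.trans hle)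
    have h4 : ∑ l ∈ S, |((m.factorization l : ℤ) : ℝ)| =
        ∑ l ∈ m.primeFactors, (m.factorization l : ℝ) := by
      rw [← Finset.sum_subset hS]
      · exact Finset.sum_congr rfl fun l _ => by simp
      · intro l hl hl'
        rw [hz l hl hl']
        simp
    rw [h4]
    exact_mod_cast h3

theorem comb_neg (S : Finset ℕ) (B y : ℝ) (h : Comb S B y) : Comb S B (-y) := by
  obtain ⟨e, he, hb⟩ := h
  refine ⟨fun l => -e l, ?_, ?_⟩
  · rw [he, ← Finset.sum_neg_distrib]
    exact Finset.sum_congr rfl fun l _ => by push_cast; ring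
  · simpa using hb

theorem comb_add (S : Finset ℕ) (B B' y y' : ℝ) (h : Comb S B y) (h' : Comb S B' y') :
    Comb S (B + B') (y + y') := by
  obtain ⟨e, he, hb⟩ := h
  obtain ⟨e', he', hb'⟩ := h'
  refine ⟨fun l => e l + e' l, ?_, ?_⟩
  · rw [he, he', ← Finset.sum_add_distrib]
    exact Finset.sum_congr rfl fun l _ => by push_cast; ring
  · refine le_trans ?_ (add_le_add hb hb')
    rw [← Finset.sum_add_distrib]
    refine Finset.sum_le_sum fun l _ => ?_
    push_cast
    exact abs_add_le _ _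

theorem comb_smul (S : Finset ℕ) (B y : ℝ) (c : ℤ) (h : Comb S B y) :
    Comb S (|(c : ℝ)| * B) (c * y) := by
  obtain ⟨e, he, hb⟩ := h
  refine ⟨fun l => c * e l, ?_, ?_⟩
  · rw [he, Finset.mul_sum]
    exact Finset.sum_congr rfl fun l _ => by push_cast; ring
  · refine le_trans ?_ (mul_le_mul_of_nonneg_left hb (abs_nonneg _))
    rw [Finset.mul_sum]
    refine le_of_eq (Finset.sum_congr rfl fun l _ => ?_)
    push_cast
    exact abs_mul _ _

/-- simultaneous approximation by the box principle -/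
theorem dirichlet (S : Finset ℕ) (Δ : ℕ) (hΔ : 0 < Δ) (α : ℕ → ℝ) :
    ∃ h : ℕ, 1 ≤ h ∧ h ≤ Δ ^ S.card ∧ ∀ l ∈ S, ∃ z : ℤ, |(h : ℝ) * α l - z| ≤ 1 / Δ := by
  classical
  have hD : (0 : ℝ) < Δ := by exact_mod_cast hΔ
  let f : ℕ → (S → ℕ) := fun h l => ⌊(Δ : ℝ) * Int.fract ((h : ℝ) * α l)⌋₊
  have hf : ∀ h ∈ range (Δ ^ S.card + 1), f h ∈ Fintype.piFinset fun _ : S => range Δ := by
    intro h _
    rw [Fintype.mem_piFinset]
    intro l
    rw [Finset.mem_range]
    have h0 := Int.fract_nonneg ((h : ℝ) * α l)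
    have h1 := Int.fract_lt_one ((h : ℝ) * α l)
    exact (Nat.floor_lt (by positivity)).mpr (by nlinarith)
  have hc : (Fintype.piFinset fun _ : S => range Δ).card < (range (Δ ^ S.card + 1)).card := by
    simp [Fintype.card_piFinset]
  have key : ∀ a b : ℕ, b < a → a ≤ Δ ^ S.card → f a = f b →
      ∃ h : ℕ, 1 ≤ h ∧ h ≤ Δ ^ S.card ∧ ∀ l ∈ S, ∃ z : ℤ, |(h : ℝ) * α l - z| ≤ 1 / Δ := by
    intro a b hab ha hfe
    refine ⟨a - b, by omega, by omega, fun l hl => ⟨⌊(a : ℝ) * α l⌋ - ⌊(b : ℝ) * α l⌋, ?_⟩⟩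
    have h1 : ⌊(Δ : ℝ) * Int.fract ((a : ℝ) * α l)⌋₊ = ⌊(Δ : ℝ) * Int.fract ((b : ℝ) * α l)⌋₊ :=
      congrFun hfe ⟨l, hl⟩
    have ha0 := Int.fract_nonneg ((a : ℝ) * α l)
    have hb0 := Int.fract_nonneg ((b : ℝ) * α l)
    have a1 := Nat.floor_le (show (0 : ℝ) ≤ (Δ : ℝ) * Int.fract ((a : ℝ) * α l) by positivity)
    have a2 := Nat.lt_floor_add_one ((Δ : ℝ) * Int.fract ((a : ℝ) * α l))
    have b1 := Nat.floor_le (show (0 : ℝ) ≤ (Δ : ℝ) * Int.fract ((b : ℝ) * α l) by positivity)
    have b2 := Nat.lt_floor_add_one ((Δ : ℝ) * Int.fract ((b : ℝ) * α l))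
    rw [h1] at a1 a2
    have e : ((a - b : ℕ) : ℝ) * α l - ((⌊(a : ℝ) * α l⌋ - ⌊(b : ℝ) * α l⌋ : ℤ) : ℝ) =
        Int.fract ((a : ℝ) * α l) - Int.fract ((b : ℝ) * α l) := by
      rw [Nat.cast_sub hab.le]
      push_cast
      unfold Int.fract
      ring
    rw [e, le_div_iff₀ hD, ← abs_of_pos hD, ← abs_mul, abs_le]
    constructor <;> nlinarith
  obtain ⟨a, ha, b, hb, hne, hfe⟩ := Finset.exists_ne_map_eq_of_card_lt_of_maps_to hc hf
  rw [Finset.mem_range] at ha hb
  rcases lt_or_gt_of_ne hne with h | h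
  · exact key b a h (by omega) hfe.symm
  · exact key a b h (by omega) hfe

end CH

theorem rowCOMB : RowCOMB where
  base S n h := CH.base_gen S (pp n) n (CH.pp_pos n) (CH.pp_le n) h
  mono S B B' y h hb := by
    obtain ⟨e, he, hb'⟩ := h
    exact ⟨e, he, hb'.trans hb⟩
  abs S B y h := by
    rcases abs_choice y with e | e
    · rw [e]; exact h
    · rw [e]; exact CH.comb_neg S B y h
  sub S B B' y y' h h' := by
    rw [sub_eq_add_neg]
    exact CH.comb_add S B B' y (-y') h (CH.comb_neg S B' y' h')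
  sum ι S t c B y h := by
    classical
    induction t using Finset.induction_on with
    | empty => exact ⟨fun _ => 0, by simp, by simp⟩
    | insert a t ha ih =>
      rw [Finset.sum_insert ha, Finset.sum_insert ha, add_mul]
      exact CH.comb_add S _ _ _ _ (CH.comb_smul S B (y a) (c a) (h a (mem_insert_self _ _)))
        (ih fun i hi => h i (mem_insert_of_mem hi))

theorem rowCH : RowCH := by
  intro S K Δ B Γ x hΓ hΔ hB hx hstep
  have hD : (0 : ℝ) < Δ := by exact_mod_cast hΔ
  have hx0 : 0 < x 0 := (hx 0 (Nat.zero_le _)).1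
  obtain ⟨h, h1, h2, hz⟩ := CH.dirichlet S Δ hΔ fun l => 1 / (2 * x 0) * log l
  choose! z hz using hz
  set t : ℝ := h * (1 / (2 * x 0)) with ht
  have h1' : (1 : ℝ) ≤ h := by exact_mod_cast h1
  have ht0 : 0 < t := by positivity
  have near : ∀ k, k ≤ K → ∃ w : ℤ, |t * x k - w| ≤ 1 / (4 * Γ) := by
    intro k hk
    obtain ⟨e, he, hb⟩ := (hx k hk).2
    refine ⟨∑ l ∈ S, e l * z l, ?_⟩
    have e1 : t * x k - ((∑ l ∈ S, e l * z l : ℤ) : ℝ) =
        ∑ l ∈ S, (e l : ℝ) * ((h : ℝ) * (1 / (2 * x 0) * log l) - z l) := by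
      rw [he, Finset.mul_sum]
      push_cast
      rw [← Finset.sum_sub_distrib]
      exact Finset.sum_congr rfl fun l _ => by rw [ht]; ring
    rw [e1]
    calc |∑ l ∈ S, (e l : ℝ) * ((h : ℝ) * (1 / (2 * x 0) * log l) - z l)|
        ≤ ∑ l ∈ S, |(e l : ℝ) * ((h : ℝ) * (1 / (2 * x 0) * log l) - z l)| :=
          Finset.abs_sum_le_sum_abs _ _
      _ ≤ ∑ l ∈ S, |(e l : ℝ)| * (1 / Δ) := by
          refine Finset.sum_le_sum fun l hl => ?_
          rw [abs_mul]
          exact mul_le_mul_of_nonneg_left (hz l hl) (abs_nonneg _)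
      _ = (∑ l ∈ S, |(e l : ℝ)|) * (1 / Δ) := by rw [Finset.sum_mul]
      _ ≤ B * (1 / Δ) := mul_le_mul_of_nonneg_right hb (by positivity)
      _ ≤ 1 / (4 * Γ) := by
          rw [mul_one_div, div_le_div_iff₀ hD (by positivity)]
          linarith
  have half : ∀ k, k ≤ K → 1 / 2 ≤ t * x k := by
    intro k
    induction k with
    | zero =>
      intro _
      have : t * x 0 = h / 2 := by rw [ht]; field_simp
      rw [this]
      linarith
    | succ k ih =>
      intro hk
      have a1 := ih (by omega)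
      have a2 := hstep k (by omega)
      obtain ⟨w, hw⟩ := near (k + 1) hk
      have hΓ0 : 0 < Γ := by linarith
      have a3 : 1 / (2 * Γ) ≤ t * x (k + 1) := by
        rw [div_le_iff₀ (by positivity)]
        nlinarith [mul_le_mul_of_nonneg_left a2 ht0.le]
      have a4 : 1 / (2 * Γ) = 2 * (1 / (4 * Γ)) := by field_simp; ring
      have a5 : 0 < 1 / (4 * Γ) := by positivity
      have a6 : 1 / (4 * Γ) ≤ 1 / 4 := by
        rw [div_le_div_iff₀ (by positivity) (by norm_num)]
        linarith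
      rw [abs_le] at hw
      have a7 : (0 : ℝ) < w := by linarith [hw.2]
      have a8 : (1 : ℤ) ≤ w := by exact_mod_cast a7
      have a9 : (1 : ℝ) ≤ w := by exact_mod_cast a8
      linarith [hw.1]
  have hK := half K le_rfl
  have hxK : 0 < x K := (hx K le_rfl).1
  have h2' : (h : ℝ) ≤ (Δ : ℝ) ^ S.card := by exact_mod_cast h2
  have e2 : t * x K = h * x K / (2 * x 0) := by rw [ht]; field_simp
  rw [e2, le_div_iff₀ (by positivity)] at hK
  nlinarith [mul_le_mul_of_nonneg_right h2' hxK.le]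

end Pool.Agent.MP_47b17d_nt.H77
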