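import Pool.Agent.MP_47b17d_nt.H77.Spec

/-! A large value of the exponential sum, by Chebyshev polynomials. -/

set_option autoImplicit false

namespace Pool.Agent.MP_47b17d_nt.H77

open Finset Real Polynomial Polynomial.Chebyshev

namespace CHE

/-- the weighted sums -/
noncomputable def G (a : ℕ → ℤ) (R : ℕ) (θ al : ℝ) (j k : ℕ) : ℝ :=
  ∑ i ∈ range (R + 1), (a i : ℝ) * exp (-(i * θ)) ^ k * (T ℝ j).eval (al * exp (-(i * θ)) - 1)

variable (a : ℕ → ℤ) (R : ℕ) (θ al : ℝ)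

theorem G0 (k : ℕ) : G a R θ al 0 k = ph a R (k * θ) := by
  refine sum_congr rfl fun i _ => ?_
  rw [← exp_nat_mul]
  simp only [Nat.cast_zero, T_zero, eval_one, mul_one]
  congr 2
  ring

theorem G1 (k : ℕ) : G a R θ al 1 k = al * G a R θ al 0 (k + 1) - G a R θ al 0 k := by
  simp only [G, mul_sum, ← sum_sub_distrib, Nat.cast_zero, Nat.cast_one, T_zero, T_one, eval_one,
    eval_X]
  exact sum_congr rfl fun i _ => by ring

theorem G2 (j k : ℕ) : G a R θ al (j + 2) k =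
    2 * al * G a R θ al (j + 1) (k + 1) - 2 * G a R θ al (j + 1) k - G a R θ al j k := by
  simp only [G, mul_sum, ← sum_sub_distrib]
  refine sum_congr rfl fun i _ => ?_
  push_cast
  rw [T_add_two]
  simp only [eval_sub, eval_mul, eval_X, eval_ofNat]
  ring

theorem bound {m : ℕ} {e : ℝ} (h0 : 0 ≤ al) (h1 : al ≤ 5 / 2)
    (h : ∀ k, k ≤ m → |ph a R (k * θ)| < e) :
    ∀ j k, j + k ≤ m → |G a R θ al j k| < 8 ^ j * e
  | 0, k, hk => by rw [G0, pow_zero, one_mul]; exact h k (by omega)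
  | 1, k, hk => by
    have b1 := abs_lt.1 (bound h0 h1 h 0 (k + 1) (by omega))
    have b2 := abs_lt.1 (bound h0 h1 h 0 k (by omega))
    rw [G1, abs_lt]
    constructor <;> nlinarith
  | j + 2, k, hk => by
    have b1 := abs_lt.1 (bound h0 h1 h (j + 1) (k + 1) (by omega))
    have b2 := abs_lt.1 (bound h0 h1 h (j + 1) k (by omega))
    have b3 := abs_lt.1 (bound h0 h1 h j k (by omega))
    rw [pow_succ, mul_right_comm] at b1 b2
    rw [G2, abs_lt, pow_add, mul_right_comm]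
    generalize 8 ^ j * e = E at *
    constructor <;> nlinarith

end CHE

theorem rowCHE : RowCHE := by
  intro a R Y m h0 ha hY hm
  by_contra! hc
  have hY' : (1 : ℝ) ≤ Y := by exact_mod_cast hY
  obtain ⟨u, hu⟩ : ∃ u : ℝ, u = 1 / (Y : ℝ) := ⟨_, rfl⟩
  have u0 : 0 < u := by rw [hu]; positivity
  have u1 : u ≤ 1 := by rw [hu, div_le_one (by positivity)]; exact hY'
  rw [← hu] at hm
  have hρ : 0 < 1 + u := by positivity
  obtain ⟨al, hal⟩ : ∃ al : ℝ, al = cosh (log (1 + u)) + 1 := ⟨_, rfl⟩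
  have a1 : al ≤ 2 + u ^ 2 / 2 := by
    have : (1 + u)⁻¹ ≤ 1 - u + u ^ 2 := by
      rw [inv_le_iff_one_le_mul₀ hρ]; nlinarith [pow_pos u0 3]
    rw [hal, cosh_log hρ]
    linarith
  have a0 : 0 ≤ al := by rw [hal]; positivity
  have hb := CHE.bound a R (u ^ 2) al (m := m) (e := (1 / 8) ^ m) a0 (by nlinarith)
    (fun k hk => by
      have := hc k hk
      rwa [show (k : ℝ) / (Y : ℝ) ^ 2 = k * u ^ 2 by rw [hu]; field_simp] at this) m 0 le_rfl
  rw [← mul_pow, show (8 : ℝ) * (1 / 8) = 1 by norm_num, one_pow, CHE.G, sum_range_succ'] at hb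
  simp only [pow_zero, mul_one, Nat.cast_zero, zero_mul, neg_zero, exp_zero] at hb
  have t0 : (1 + u) ^ m / 2 ≤ (T ℝ m).eval (al - 1) := by
    rw [hal, add_sub_cancel_right, T_real_cosh, Int.cast_natCast, cosh_eq, exp_nat_mul, exp_log hρ]
    have := exp_pos (-(m * log (1 + u)))
    linarith
  have t1 : |∑ i ∈ range R, (a (i + 1) : ℝ) *
      (T ℝ m).eval (al * exp (-(((i + 1 : ℕ) : ℝ) * u ^ 2)) - 1)| ≤ R := by
    refine (abs_sum_le_sum_abs _ _).trans ((sum_le_sum (g := fun _ => (1 : ℝ))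
      fun i _ => ?_).trans (by simp))
    rw [abs_mul]
    refine mul_le_one₀ (by exact_mod_cast ha (i + 1)) (abs_nonneg _) (abs_eval_T_real_le_one _ ?_)
    have e0 := exp_pos (-(((i + 1 : ℕ) : ℝ) * u ^ 2))
    have e1 : exp (-(((i + 1 : ℕ) : ℝ) * u ^ 2)) * (1 + u ^ 2) ≤ 1 := by
      rw [exp_neg, inv_mul_le_iff₀ (exp_pos _), mul_one]
      refine le_trans ?_ (add_one_le_exp _)
      push_cast
      nlinarith [mul_nonneg (Nat.cast_nonneg (α := ℝ) i) (sq_nonneg u)]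
    rw [abs_le]
    constructor <;> nlinarith [mul_nonneg a0 e0.le, mul_nonneg (sq_nonneg u) e0.le]
  have t2 : |(a 0 : ℝ) * (T ℝ m).eval (al - 1)| = (T ℝ m).eval (al - 1) := by
    rw [abs_mul, show |(a 0 : ℝ)| = 1 by exact_mod_cast h0, one_mul,
      abs_of_nonneg (le_trans (by positivity) t0)]
  have t3 := abs_sub (∑ i ∈ range R, (a (i + 1) : ℝ) *
      (T ℝ m).eval (al * exp (-(((i + 1 : ℕ) : ℝ) * u ^ 2)) - 1) +
      (a 0 : ℝ) * (T ℝ m).eval (al - 1)) (∑ i ∈ range R, (a (i + 1) : ℝ) *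
      (T ℝ m).eval (al * exp (-(((i + 1 : ℕ) : ℝ) * u ^ 2)) - 1))
  rw [add_sub_cancel_left, t2] at t3
  linarith

end Pool.Agent.MP_47b17d_nt.H77
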