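import Pool.Agent.MP_47b17d_nt.H77.Spec

/-! The mean value theorem for divided differences. -/

set_option autoImplicit false

namespace Pool.Agent.MP_47b17d_nt.H77

open Finset Polynomial

namespace DD

lemma lt_of (t : ℕ → ℝ) (j : ℕ) (h : ∀ i, i < j → t i < t (i + 1)) :
    ∀ b a, a < b → b ≤ j → t a < t b := by
  intro b
  induction b with
  | zero => intro a ha; omega
  | succ b ih =>
    intro a ha hb
    rcases Nat.lt_succ_iff_lt_or_eq.1 ha with h1 | h1
    · exact (ih a h1 (by omega)).trans (h b (by omega))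
    · rw [h1]; exact h b (by omega)

lemma le_of (t : ℕ → ℝ) (j : ℕ) (h : ∀ i, i < j → t i < t (i + 1)) (a b : ℕ) (hab : a ≤ b)
    (hb : b ≤ j) : t a ≤ t b := by
  rcases hab.lt_or_eq with h1 | h1
  · exact (lt_of t j h b a h1 hb).le
  · rw [h1]

lemma rolle (u v : ℝ) (j : ℕ) : ∀ (G : ℕ → ℝ → ℝ) (t : ℕ → ℝ),
    (∀ l, ∀ x ∈ Set.Icc u v, HasDerivAt (G l) (G (l + 1) x) x) →
    (∀ i, i < j → t i < t (i + 1)) → u ≤ t 0 → t j ≤ v → (∀ i, i ≤ j → G 0 (t i) = 0) →
    ∃ ξ ∈ Set.Icc u v, G j ξ = 0 := by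
  induction j with
  | zero => intro G t _ _ h1 h2 h3; exact ⟨t 0, ⟨h1, h2⟩, h3 0 le_rfl⟩
  | succ j ih =>
    intro G t hG ht h1 h2 h3
    have key : ∀ i, ∃ s, i ≤ j → s ∈ Set.Ioo (t i) (t (i + 1)) ∧ G 1 s = 0 := by
      intro i
      by_cases hi : i ≤ j
      · have hs : Set.Icc (t i) (t (i + 1)) ⊆ Set.Icc u v := Set.Icc_subset_Icc
          (h1.trans (le_of t _ ht 0 i (by omega) (by omega)))
          ((le_of t _ ht (i + 1) (j + 1) (by omega) le_rfl).trans h2)
        obtain ⟨c, hc, hc'⟩ := exists_hasDerivAt_eq_zero (f := G 0) (f' := G 1) (ht i (by omega))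
          (fun x hx => (hG 0 x (hs hx)).continuousAt.continuousWithinAt)
          (by rw [h3 i (by omega), h3 (i + 1) (by omega)])
          (fun x hx => hG 0 x (hs (Set.Ioo_subset_Icc_self hx)))
        exact ⟨c, fun _ => ⟨hc, hc'⟩⟩
      · exact ⟨0, fun h => absurd h hi⟩
    choose s hs using key
    exact ih (fun l => G (l + 1)) s (fun l => hG (l + 1))
      (fun i hi => (hs i (by omega)).1.2.trans (hs (i + 1) (by omega)).1.1)
      (h1.trans (hs 0 (by omega)).1.1.le) ((hs j le_rfl).1.2.le.trans h2)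
      (fun i hi => (hs i hi).2)

end DD

theorem rowDD : RowDD := by
  intro F u v j t hF ht h1 h2
  have hinj : Set.InjOn t (range (j + 1) : Finset ℕ) := by
    intro a ha b hb hab
    have ha' : a ≤ j := by have := mem_range.1 (mem_coe.1 ha); omega
    have hb' : b ≤ j := by have := mem_range.1 (mem_coe.1 hb); omega
    rcases lt_trichotomy a b with h | h | h
    · exact absurd hab (DD.lt_of t j ht b a h hb').ne
    · exact h
    · exact absurd hab (DD.lt_of t j ht a b h ha').ne'
  set P := Lagrange.interpolate (range (j + 1)) t (fun i => F 0 (t i)) with hP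
  have hdeg : P.degree < (range (j + 1)).card := Lagrange.degree_interpolate_lt _ hinj
  have hev : ∀ i ∈ range (j + 1), P.eval (t i) = F 0 (t i) := fun i hi =>
    Lagrange.eval_interpolate_at_node _ hinj hi
  have hnd : P.natDegree ≤ j := by
    rw [card_range] at hdeg
    exact natDegree_le_iff_degree_le.2 (Order.le_of_lt_succ hdeg)
  obtain ⟨ξ, hξ, h⟩ := DD.rolle u v j (fun l x => F l x - (derivative^[l] P).eval x) t
    (fun l x hx => by
      rw [Function.iterate_succ_apply']
      exact (hF l x hx).sub (Polynomial.hasDerivAt _ x)) ht h1 h2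
    (fun i hi => by
      rw [Function.iterate_zero_apply, hev i (mem_range.2 (by omega)), sub_self])
  refine ⟨ξ, hξ, ?_⟩
  have h3 := Lagrange.coeff_eq_sum hinj hdeg
  rw [card_range, Nat.add_sub_cancel, sum_congr rfl fun i hi => by rw [hev i hi]] at h3
  have h4 : (derivative^[j] P).natDegree = 0 := by
    have := natDegree_iterate_derivative P j
    omega
  rw [eq_C_of_natDegree_eq_zero h4, eval_C, coeff_iterate_derivative, zero_add,
    Nat.descFactorial_self, nsmul_eq_mul, sub_eq_zero] at h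
  rw [← h3, h]
  have : (j.factorial : ℝ) ≠ 0 := by positivity
  field_simp

end Pool.Agent.MP_47b17d_nt.H77
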