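import Pool.Agent.MP_47b17d_nt.H77.Spec

set_option autoImplicit false

namespace Pool.Agent.MP_47b17d_nt.H77

open Finset Real

namespace DER

theorem asc_pos {s : ℝ} (hs : 0 < s) (j : ℕ) : 0 < asc s j :=
  prod_pos fun i _ => by positivity

theorem asc_succ (s : ℝ) (j : ℕ) : asc s (j + 1) = asc s j * (s + j) := prod_range_succ _ _

theorem asc_half {s : ℝ} (hs : 1 / 2 ≤ s) (j : ℕ) :
    asc (s + 1 / 2) j ≤ (2 * j + 1) * asc s j := by
  induction j with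
  | zero => simp [asc]
  | succ j ih =>
    have h0 := asc_pos (s := s) (by linarith) j
    have hj : (0 : ℝ) ≤ j := Nat.cast_nonneg j
    rw [asc_succ, asc_succ]
    push_cast
    calc asc (s + 1 / 2) j * (s + 1 / 2 + j) ≤ (2 * j + 1) * asc s j * (s + 1 / 2 + j) :=
          mul_le_mul_of_nonneg_right ih (by linarith)
      _ = asc s j * ((2 * j + 1) * (s + 1 / 2 + j)) := by ring
      _ ≤ asc s j * ((2 * (j + 1) + 1) * (s + j)) :=
          mul_le_mul_of_nonneg_left (by nlinarith) h0.le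
      _ = _ := by ring

theorem asc_le (k j : ℕ) : asc (((k : ℝ) + 1) / 2) j ≤ (2 * j + 1) ^ k * asc (1 / 2) j := by
  induction k with
  | zero => simp
  | succ k ih =>
    have hk : (0 : ℝ) ≤ k := Nat.cast_nonneg k
    have h := asc_half (s := ((k : ℝ) + 1) / 2) (by linarith) j
    have e : (((k + 1 : ℕ) : ℝ) + 1) / 2 = ((k : ℝ) + 1) / 2 + 1 / 2 := by push_cast; ring
    rw [e, pow_succ]
    calc _ ≤ _ := h
      _ ≤ (2 * j + 1) * ((2 * j + 1) ^ k * asc (1 / 2) j) :=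
          mul_le_mul_of_nonneg_left ih (by positivity)
      _ = _ := by ring

theorem geom_le (K : ℕ) : ∑ k ∈ range K, (1 / 3 : ℝ) ^ (k + 1) ≤ 1 / 2 := by
  have h : ∑ k ∈ range K, (1 / 3 : ℝ) ^ (k + 1) = 1 / 2 - 1 / 2 * (1 / 3) ^ K := by
    induction K with
    | zero => simp
    | succ K ih => rw [sum_range_succ, ih]; ring
  rw [h]
  have : (0 : ℝ) ≤ (1 / 3) ^ K := by positivity
  linarith

theorem term_le (k j : ℕ) (Z : ℝ) (hZ : 3 * (2 * (j : ℝ) + 1) ≤ √Z) :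
    asc (((k : ℝ) + 1) / 2) j * Z ^ (-(((k : ℝ) + 1) / 2) - j) ≤
      (1 / 3) ^ k * (asc (1 / 2) j * Z ^ (-(1 / 2 : ℝ) - j)) := by
  have hj : (0 : ℝ) < 2 * j + 1 := by positivity
  have hs : 0 < √Z := by linarith
  have hZ0 : 0 < Z := sqrt_pos.1 hs
  have e : Z ^ (-(((k : ℝ) + 1) / 2) - j) = ((√Z) ^ k)⁻¹ * Z ^ (-(1 / 2 : ℝ) - j) := by
    rw [sqrt_eq_rpow, ← rpow_natCast, ← rpow_mul hZ0.le, ← rpow_neg hZ0.le, ← rpow_add hZ0]
    congr 1
    ring
  have h1 : (2 * (j : ℝ) + 1) ^ k * ((√Z) ^ k)⁻¹ ≤ (1 / 3) ^ k := by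
    rw [← inv_pow, ← mul_pow]
    refine pow_le_pow_left₀ (by positivity) ?_ k
    rw [← div_eq_mul_inv, div_le_iff₀ hs]
    linarith
  have h2 := asc_pos (s := 1 / 2) (by norm_num) j
  have h3 : 0 < Z ^ (-(1 / 2 : ℝ) - j) := rpow_pos_of_pos hZ0 _
  rw [e]
  calc _ ≤ (2 * j + 1) ^ k * asc (1 / 2) j * (((√Z) ^ k)⁻¹ * Z ^ (-(1 / 2 : ℝ) - j)) :=
        mul_le_mul_of_nonneg_right (asc_le k j) (by positivity)
    _ = (2 * j + 1) ^ k * ((√Z) ^ k)⁻¹ * (asc (1 / 2) j * Z ^ (-(1 / 2 : ℝ) - j)) := by ring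
    _ ≤ _ := mul_le_mul_of_nonneg_right h1 (by positivity)

end DER

open DER in
theorem rowDER : RowDER := by
  intro b K
  refine ⟨fun Z => by simp [gd, gg, asc], fun j Z hZ => ?_, fun hb hK j Z hZ => ?_⟩
  · unfold gd
    refine HasDerivAt.fun_sum fun k _ => ?_
    have h := (hasDerivAt_rpow_const (x := Z) (p := -(((k : ℝ) + 1) / 2) - j)
      (Or.inl hZ.ne')).const_mul (b k * ((-1) ^ j * asc (((k : ℝ) + 1) / 2) j))
    refine h.congr_deriv ?_
    have e : -(((k : ℝ) + 1) / 2) - ((j + 1 : ℕ) : ℝ) = -(((k : ℝ) + 1) / 2) - j - 1 := by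
      push_cast; ring
    rw [asc_succ, e, pow_succ]
    ring
  · obtain ⟨K, rfl⟩ : ∃ K', K = K' + 1 := ⟨K - 1, by omega⟩
    have hs : 0 < √Z := by have : (0 : ℝ) ≤ j := Nat.cast_nonneg j; linarith
    have hZ0 : 0 < Z := sqrt_pos.1 hs
    set u := asc (1 / 2) j * Z ^ (-(1 / 2 : ℝ) - j) with hu
    have hu0 : 0 < u := mul_pos (asc_pos (by norm_num) j) (rpow_pos_of_pos hZ0 _)
    have h0 : |b 0 * ((-1) ^ j * asc ((((0 : ℕ) : ℝ) + 1) / 2) j) *
        Z ^ (-((((0 : ℕ) : ℝ) + 1) / 2) - j)| = b 0 * u := by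
      have e : (((0 : ℕ) : ℝ) + 1) / 2 = 1 / 2 := by simp
      rw [e, mul_assoc, mul_assoc, ← hu, abs_mul, abs_mul, abs_pow, abs_neg, abs_one, one_pow,
        one_mul, abs_of_pos hu0, abs_of_pos (by linarith [hb.1])]
    have h1 : |∑ k ∈ range K, b (k + 1) * ((-1) ^ j * asc ((((k + 1 : ℕ) : ℝ) + 1) / 2) j) *
        Z ^ (-((((k + 1 : ℕ) : ℝ) + 1) / 2) - j)| ≤ u / 2 := by
      calc _ ≤ ∑ k ∈ range K, (1 / 3 : ℝ) ^ (k + 1) * u := by
            refine (abs_sum_le_sum_abs _ _).trans (sum_le_sum fun k _ => ?_)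
            have hp : 0 < asc ((((k + 1 : ℕ) : ℝ) + 1) / 2) j *
                Z ^ (-((((k + 1 : ℕ) : ℝ) + 1) / 2) - j) :=
              mul_pos (asc_pos (by positivity) j) (rpow_pos_of_pos hZ0 _)
            rw [mul_assoc, mul_assoc, abs_mul, abs_mul, abs_pow, abs_neg, abs_one, one_pow,
              one_mul, abs_of_pos hp]
            exact (mul_le_of_le_one_left hp.le (hb.2.2 k)).trans (term_le (k + 1) j Z hZ)
        _ ≤ u / 2 := by
            rw [← sum_mul]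
            nlinarith [geom_le K]
    unfold gd
    rw [sum_range_succ']
    set x := ∑ k ∈ range K, b (k + 1) * ((-1) ^ j * asc ((((k + 1 : ℕ) : ℝ) + 1) / 2) j) *
        Z ^ (-((((k + 1 : ℕ) : ℝ) + 1) / 2) - j)
    set y := b 0 * ((-1) ^ j * asc ((((0 : ℕ) : ℝ) + 1) / 2) j) *
        Z ^ (-((((0 : ℕ) : ℝ) + 1) / 2) - j)
    have h2 : u ≤ b 0 * u := le_mul_of_one_le_left hu0.le hb.1
    have h3 : b 0 * u ≤ 2 * u := mul_le_mul_of_nonneg_right hb.2.1 hu0.le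
    have h4 := abs_add_le x y
    have h5 : |y| ≤ |x + y| + |x| := by
      simpa using abs_sub (x + y) x
    constructor <;> linarith

end Pool.Agent.MP_47b17d_nt.H77
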