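import Pool.Agent.MP_47b17d_nt.H77.Spec

/-! The first result from the main inequality. -/

set_option autoImplicit false

namespace Pool.Agent.MP_47b17d_nt.H77

open Finset Filter Real

theorem goalA (h : RowA) : GoalA := by
  obtain ⟨C, hC, h⟩ := h
  have tl : Tendsto (fun N : ℕ => log N) atTop atTop :=
    tendsto_log_atTop.comp tendsto_natCast_atTop_atTop
  have e1 : ∀ᶠ N : ℕ in atTop, 2 * (C + 1) ^ 6 ≤ log N := tl.eventually_ge_atTop _
  have e2 : ∀ᶠ N : ℕ in atTop, log N ^ 7 ≤ √N := by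
    have := (isLittleO_log_rpow_rpow_atTop (7 : ℝ) (by norm_num : (0 : ℝ) < 1 / 2)).bound one_pos
    filter_upwards [tendsto_natCast_atTop_atTop.eventually this] with N hN
    rw [one_mul, norm_eq_abs, norm_eq_abs, ← sqrt_eq_rpow, abs_of_nonneg (sqrt_nonneg _),
      show (7 : ℝ) = ((7 : ℕ) : ℝ) by norm_num, rpow_natCast] at hN
    exact (le_abs_self _).trans hN
  filter_upwards [e1, e2] with N h1 h2
  set l : ℝ := log N with hl
  have C6 : (1 : ℝ) ≤ (C + 1) ^ 6 := one_le_pow₀ (by linarith)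
  have l1 : 1 ≤ l := by linarith
  obtain ⟨T, hT1, hT2⟩ : ∃ T : ℕ, C * l ≤ T ∧ (T : ℝ) ≤ (C + 1) * l :=
    ⟨⌈C * l⌉₊, Nat.le_ceil _, by
      have := Nat.ceil_lt_add_one (a := C * l) (by positivity)
      linarith⟩
  have T0 : (0 : ℝ) < T := by nlinarith
  have T6 : 2 * (T : ℝ) ^ 6 ≤ l ^ 7 := by
    calc 2 * (T : ℝ) ^ 6 ≤ 2 * ((C + 1) * l) ^ 6 := by gcongr
      _ = 2 * (C + 1) ^ 6 * l ^ 6 := by ring
      _ ≤ l * l ^ 6 := by gcongr
      _ = _ := by ring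
  have l7 : 0 < l ^ 7 := by positivity
  have q1 : 2 * (√N / l ^ 7) ≤ √N / (T : ℝ) ^ 6 := by
    rw [← mul_div_assoc, div_le_div_iff₀ l7 (by positivity)]
    nlinarith [mul_le_mul_of_nonneg_left T6 (sqrt_nonneg (N : ℝ))]
  have q2 : 1 ≤ √N / l ^ 7 := (one_le_div l7).2 h2
  set P : ℕ := ⌊√N / (T : ℝ) ^ 6⌋₊ with hP
  have p1 : √N / (T : ℝ) ^ 6 < P + 1 := Nat.lt_floor_add_one _
  have p2 : (P : ℝ) ≤ √N / (T : ℝ) ^ 6 := Nat.floor_le (by positivity)
  have P1 : 1 ≤ P := by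
    have : (1 : ℝ) ≤ P := by linarith
    exact_mod_cast this
  have hN : T ^ 12 * P ^ 2 ≤ N := by
    rw [le_div_iff₀ (by positivity)] at p2
    have a := pow_le_pow_left₀ (by positivity) p2 2
    rw [sq_sqrt (Nat.cast_nonneg N)] at a
    have : (T : ℝ) ^ 12 * (P : ℝ) ^ 2 ≤ N := by linarith [show ((P : ℝ) * T ^ 6) ^ 2 = T ^ 12 * P ^ 2 by ring]
    exact_mod_cast this
  have key := h T P N (∏ n ∈ Icc 1 N, Fintype.card (Nat.Partition n)).primeFactors P1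
    (by nlinarith) hT1 hN fun n a b => Nat.primeFactors_mono
      (dvd_prod_of_mem (fun n => Fintype.card (Nat.Partition n)) (mem_Icc.2 ⟨a, b⟩))
      (prod_ne_zero_iff.2 fun _ _ => Fintype.card_ne_zero)
  have : (P : ℝ) ≤ _ := Nat.cast_le.2 key
  linarith

end Pool.Agent.MP_47b17d_nt.H77
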