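import Pool.Agent.MP_47b17d_nt.H77.Spec

/-! The second result from the covering by windows. -/

set_option autoImplicit false

namespace Pool.Agent.MP_47b17d_nt.H77

open Finset Filter Real

namespace GB

/-- facts on the level of `L = log N` -/
theorem evL {ε : ℝ} (hε : 0 < ε) : ∀ᶠ L : ℝ in atTop, 1 ≤ log L ∧ 1 ≤ L / log L ∧
    3 ≤ ε * (L / log L) ∧ (Nat.primeCounting ⌊ε * L⌋₊ : ℝ) ≤ 4 * ε * (L / log L) := by
  have h1 : ∀ δ : ℝ, 0 < δ → ∀ᶠ L : ℝ in atTop, log L ≤ δ * L := fun δ hδ => by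
    filter_upwards [isLittleO_log_id_atTop.bound hδ, eventually_ge_atTop 0] with L h h0
    rw [id, Real.norm_eq_abs, Real.norm_eq_abs, abs_of_nonneg h0] at h
    exact (le_abs_self _).trans h
  have h2 : (0 : ℝ) < 2 - log 4 := by
    have h3 : log 4 = 2 * log 2 := by
      rw [show (4 : ℝ) = 2 ^ 2 by norm_num, log_pow]
      norm_num
    linarith [log_two_lt_d9]
  filter_upwards [tendsto_log_atTop.eventually_ge_atTop 1,
    tendsto_log_atTop.eventually_ge_atTop (-2 * log ε), h1 1 one_pos, h1 (ε / 3) (by linarith),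
    (tendsto_id.const_mul_atTop hε).eventually (Chebyshev.eventually_primeCounting_le h2),
    eventually_gt_atTop 0] with L a b c d e f
  have l0 : 0 < log L := by linarith
  refine ⟨a, (le_div_iff₀ l0).2 (by linarith), ?_, e.trans ?_⟩
  · rw [← mul_div_assoc, le_div_iff₀ l0]
    linarith
  · simp only [id]
    rw [log_mul hε.ne' f.ne', ← mul_div_assoc, div_le_div_iff₀ (by linarith) l0]
    have h4 := mul_pos hε f
    nlinarith

theorem evN : ∀ᶠ x : ℝ in atTop, log x ^ 4 ≤ √x := by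
  filter_upwards [(isLittleO_pow_log_id_atTop (n := 8)).bound one_pos, eventually_ge_atTop 0]
    with x h h0
  rw [id, Real.norm_eq_abs, Real.norm_eq_abs, abs_of_nonneg h0, one_mul] at h
  refine le_sqrt_of_sq_le ?_
  rw [← pow_mul]
  exact (le_abs_self _).trans h

end GB

open GB

theorem goalB (h : RowWIN) : GoalB := by
  obtain ⟨a₀, h⟩ := h
  refine ⟨148, fun ε hε => ?_⟩
  have t1 : Tendsto (fun N : ℕ => (N : ℝ)) atTop atTop := tendsto_natCast_atTop_atTop
  have t2 := tendsto_sqrt_atTop.comp t1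
  filter_upwards [(tendsto_log_atTop.comp t1).eventually (evL hε), t1.eventually evN,
    t2.eventually_ge_atTop a₀, t2.eventually_ge_atTop 1, t2.eventually_ge_atTop (2 / ε),
    t1.eventually_ge_atTop 1] with N ⟨e1, e2, e3, e4⟩ e5 e6 e7 e8 e9
  simp only [Function.comp] at e1 e2 e3 e4 e6 e7 e8
  obtain ⟨L, hL⟩ : ∃ L, L = log (N : ℝ) := ⟨_, rfl⟩
  rw [← hL] at e1 e2 e3 e4 e5 ⊢
  obtain ⟨y, hy⟩ : ∃ y, y = L / log L := ⟨_, rfl⟩
  have l0 : 0 < log L := by linarith
  have yL : y * log L = L := by rw [hy, div_mul_cancel₀ _ l0.ne']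
  rw [← hy] at e2 e3 e4
  have y1 : y ≤ L := by nlinarith
  have LN : L ≤ N := by rw [hL]; linarith [log_le_sub_one_of_pos (by linarith : (0 : ℝ) < N)]
  obtain ⟨W, hW⟩ : ∃ W, W = ⌊y⌋₊ := ⟨_, rfl⟩
  have W1 : 1 ≤ W := by rw [hW]; exact Nat.le_floor (by simpa using e2)
  have W1' : (1 : ℝ) ≤ W := by exact_mod_cast W1
  have W2 : (W : ℝ) ≤ y := by rw [hW]; exact Nat.floor_le (by linarith)
  have W3 : y < W + 1 := by rw [hW]; exact Nat.lt_floor_add_one y
  obtain ⟨a, ha⟩ : ∃ a, a = ⌈√(N : ℝ)⌉₊ := ⟨_, rfl⟩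
  have a1 : √(N : ℝ) ≤ a := by rw [ha]; exact Nat.le_ceil _
  have a2 : (a : ℝ) < √(N : ℝ) + 1 := by rw [ha]; exact Nat.ceil_lt_add_one (by linarith)
  have a3 : L / 2 ≤ log a := by
    rw [hL, ← log_sqrt (by linarith)]
    exact log_le_log (by linarith) a1
  obtain ⟨S, hS⟩ : ∃ S, S = (range (⌊ε * L⌋₊ + 1)).filter Nat.Prime := ⟨_, rfl⟩
  have S1 : S.card = Nat.primeCounting ⌊ε * L⌋₊ := by
    rw [hS]
    exact (Nat.count_eq_card_filter_range Nat.Prime _).symm
  rw [← S1] at e4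
  have r0 : (0 : ℝ) ≤ S.card := Nat.cast_nonneg _
  have key := h a N W (12 * S.card + 3) S (by exact_mod_cast e6.trans a1) W1
    (by
      have h1 : (W : ℝ) ^ 4 ≤ L ^ 4 := pow_le_pow_left₀ (by linarith) (W2.trans y1) 4
      exact_mod_cast h1.trans (e5.trans a1))
    (by omega)
    (by
      have h1 : log W ≤ log L := log_le_log (by linarith) (W2.trans y1)
      have h2 : (W : ℝ) * log W ≤ y * log L :=
        mul_le_mul W2 h1 (log_nonneg W1') (by linarith)
      have h3 := min_le_left (2 * (W : ℝ) * log W)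
        (((12 * S.card + 3 : ℕ) : ℝ) * (((12 * S.card + 3 : ℕ) : ℝ) + 1) * log W)
      have h4 := mul_le_mul_of_nonneg_left (show min (2 * (W : ℝ) * log W)
        (((12 * S.card + 3 : ℕ) : ℝ) * (((12 * S.card + 3 : ℕ) : ℝ) + 1) * log W) + 4 * L ≤ 6 * L by
          linarith) r0
      have h5 := mul_le_mul_of_nonneg_left a3 (by linarith : (0 : ℝ) ≤ 12 * S.card + 1)
      rw [← hL]
      refine h4.trans_lt ?_
      push_cast
      nlinarith)
  have sub : ((Icc 1 N).filter fun n => ∀ l ∈ (Fintype.card (Nat.Partition n)).primeFactors,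
      (l : ℝ) ≤ ε * L) ⊆ (Icc 1 N).filter fun n => (pp n).primeFactors ⊆ S := by
    intro n hn
    rw [mem_filter] at hn ⊢
    refine ⟨hn.1, fun l hl => ?_⟩
    rw [hS, mem_filter, mem_range]
    exact ⟨Nat.lt_succ_of_le (Nat.le_floor (hn.2 l hl)), Nat.prime_of_mem_primeFactors hl⟩
  have k2 : ((a + (12 * S.card + 3) * (N / W + 1) : ℕ) : ℝ) ≤ 148 * ε * N := by
    have h1 : ((N / W : ℕ) : ℝ) ≤ N / W := Nat.cast_div_le
    have h2 : y * ((N : ℝ) / W) ≤ 2 * N := by
      rw [← mul_div_assoc, div_le_iff₀ (by linarith)]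
      nlinarith
    have h3 : y * (((N / W : ℕ) : ℝ) + 1) ≤ 3 * N := by
      nlinarith [mul_le_mul_of_nonneg_left h1 (by linarith : 0 ≤ y)]
    have h4 : (12 * (S.card : ℝ) + 3) * (((N / W : ℕ) : ℝ) + 1) ≤
        49 * ε * y * (((N / W : ℕ) : ℝ) + 1) :=
      mul_le_mul_of_nonneg_right (by linarith) (by positivity)
    have h5 : 2 ≤ ε * √(N : ℝ) := by
      rw [div_le_iff₀ hε] at e8
      linarith
    have h6 : √(N : ℝ) * √(N : ℝ) = N := mul_self_sqrt (by linarith)
    have h7 : 2 * √(N : ℝ) ≤ ε * N := by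
      have := mul_le_mul_of_nonneg_right h5 (by linarith : 0 ≤ √(N : ℝ))
      rwa [mul_assoc, h6] at this
    have h8 := mul_le_mul_of_nonneg_left h3 hε.le
    rw [Nat.cast_add, Nat.cast_mul, Nat.cast_add, Nat.cast_add, Nat.cast_mul, Nat.cast_one]
    push_cast
    nlinarith
  exact le_trans (by exact_mod_cast (card_le_card sub).trans key) k2

end Pool.Agent.MP_47b17d_nt.H77
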