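import Pool.Agent.MP_47b17d_nt.H77.Spec

/-! The small exceptional set and shifted primes. -/

set_option autoImplicit false

namespace Pool.Agent.MP_47b17d_nt.H77

open Finset Filter Real

namespace GD

theorem pow_le_exp (m : ℕ) : ∀ᶠ L : ℝ in atTop, 16 * L ^ m ≤ exp (L / 2) := by
  have h1 := (Real.isLittleO_pow_exp_atTop (n := m)).bound
    (show (0 : ℝ) < 1 / (16 * 2 ^ m) by positivity)
  have h2 : Tendsto (fun L : ℝ => L / 2) atTop atTop := tendsto_id.atTop_div_const two_pos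
  filter_upwards [h2.eventually h1] with L hL
  rw [Real.norm_eq_abs, Real.norm_eq_abs, abs_of_pos (exp_pos _), one_div, ← div_eq_inv_mul,
    le_div_iff₀ (by positivity)] at hL
  have h3 : (L / 2) ^ m * (16 * 2 ^ m) = 16 * L ^ m := by
    rw [div_pow]
    field_simp
  rw [← h3]
  exact (mul_le_mul_of_nonneg_right (le_abs_self _) (by positivity)).trans hL

theorem tend_log : Tendsto (fun N : ℕ => log (N : ℝ)) atTop atTop :=
  tendsto_log_atTop.comp tendsto_natCast_atTop_atTop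

theorem tend_x : Tendsto (fun N : ℕ => √(log (N : ℝ))) atTop atTop :=
  tendsto_sqrt_atTop.comp tend_log

end GD

open GD in
theorem rowC (h : RowWIN) : RowC := by
  obtain ⟨a₀, h⟩ := h
  intro A
  have e1 := tend_x.eventually (Chebyshev.eventually_primeCounting_le one_pos)
  have e2 := (tendsto_log_atTop.comp tend_x).eventually_ge_atTop (34 ^ 2 * ((2 * A + 2 : ℕ) + 1 : ℝ))
  have e3 := tend_log.eventually (pow_le_exp (2 * (2 * A + 2)))
  have e4 := (tendsto_sqrt_atTop.comp tendsto_natCast_atTop_atTop).eventually_ge_atTop (a₀ : ℝ)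
  filter_upwards [e1, e2, e3, e4, tend_x.eventually_ge_atTop 2, eventually_ge_atTop 1]
    with N h1 h2 h3 h4 hx2 hN
  simp only [Function.comp_apply] at h2 h4
  have hN0 : (0 : ℝ) < N := by exact_mod_cast hN
  have hL0 : 0 ≤ log (N : ℝ) := log_natCast_nonneg N
  have hxL : √(log (N : ℝ)) ^ 2 = log N := sq_sqrt hL0
  have hs : exp (log (N : ℝ) / 2) = √(N : ℝ) := by rw [exp_half, exp_log hN0]
  have hls : log √(N : ℝ) = log N / 2 := log_sqrt hN0.le
  have hss : √(N : ℝ) * √(N : ℝ) = N := mul_self_sqrt hN0.le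
  rw [hs] at h3
  generalize √(log (N : ℝ)) = x at h1 h2 hx2 hxL ⊢
  generalize hB : 2 * A + 2 = B at h2 h3
  rw [← hxL, ← pow_mul] at h3
  have hx1 : 1 ≤ x := by linarith
  have hx0 : 0 < x := by linarith
  have hB0 : (0 : ℝ) ≤ B := Nat.cast_nonneg B
  have hl34 : 34 ≤ log x := by nlinarith
  have hl0 : 0 < log x := by linarith
  have hxB : 1 ≤ x ^ B := one_le_pow₀ hx1
  have hW1 : x ^ B ≤ (⌈x ^ B⌉₊ : ℝ) := Nat.le_ceil _
  have hW2 : (⌈x ^ B⌉₊ : ℝ) ≤ 2 * x ^ B := by
    have := Nat.ceil_lt_add_one (zero_le_one.trans hxB)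
    linarith
  have ha1 : √(N : ℝ) ≤ (⌈√(N : ℝ)⌉₊ : ℝ) := Nat.le_ceil _
  have ha2 : (⌈√(N : ℝ)⌉₊ : ℝ) ≤ √(N : ℝ) + 1 := (Nat.ceil_lt_add_one (sqrt_nonneg _)).le
  generalize ⌈x ^ B⌉₊ = W at hW1 hW2
  generalize ⌈√(N : ℝ)⌉₊ = a at ha1 ha2
  have hcard : (Nat.primesLE ⌊x⌋₊).card = Nat.primeCounting ⌊x⌋₊ :=
    Nat.primesLE_card_eq_primeCounting _
  generalize Nat.primeCounting ⌊x⌋₊ = r at h1 hcard
  have hr0 : (0 : ℝ) ≤ r := Nat.cast_nonneg r
  have hq1 : 1 ≤ x / log x := by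
    rw [le_div_iff₀ hl0]
    linarith [log_le_sub_one_of_pos hx0]
  have hr : (r : ℝ) ≤ 3 * (x / log x) := by
    have h5 : log 4 ≤ 2 := by
      have : log 4 = 2 * log 2 := by
        rw [show (4 : ℝ) = 2 ^ 2 by norm_num, log_pow]
        norm_num
      linarith [log_two_lt_d9]
    rw [mul_div_assoc] at h1
    exact h1.trans (mul_le_mul_of_nonneg_right (by linarith) (by linarith))
  have hJ : ((10 * r + 3 : ℕ) : ℝ) + 1 ≤ 34 * (x / log x) := by
    push_cast
    linarith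
  have hJ0 : (0 : ℝ) ≤ ((10 * r + 3 : ℕ) : ℝ) := Nat.cast_nonneg _
  have hW0 : (1 : ℝ) ≤ W := hxB.trans hW1
  have hlW : log (W : ℝ) ≤ (B + 1) * log x := by
    have h5 : log (W : ℝ) ≤ log (2 * x ^ B) := log_le_log (by linarith) hW2
    rw [log_mul two_ne_zero (by positivity), log_pow] at h5
    linarith [log_two_lt_d9]
  have hmin : ((10 * r + 3 : ℕ) : ℝ) * (((10 * r + 3 : ℕ) : ℝ) + 1) * log (W : ℝ) ≤ log N := by
    have h5 : ((10 * r + 3 : ℕ) : ℝ) * (((10 * r + 3 : ℕ) : ℝ) + 1) ≤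
        34 * (x / log x) * (34 * (x / log x)) :=
      mul_le_mul (by linarith) hJ (by linarith) (by linarith)
    have h6 := mul_le_mul h5 hlW (log_nonneg hW0) (by positivity)
    have h7 : 34 * (x / log x) * (34 * (x / log x)) * ((B + 1) * log x) =
        x ^ 2 * (34 ^ 2 * (B + 1) / log x) := by
      field_simp
    have h8 : 34 ^ 2 * ((B : ℝ) + 1) / log x ≤ 1 := (div_le_one hl0).2 h2
    rw [h7] at h6
    rw [← hxL]
    exact h6.trans (mul_le_of_le_one_right (by positivity) h8)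
  have hs1 : x ^ (2 * (2 * B)) ≤ √(N : ℝ) / 16 := by linarith
  have hs0 : 0 < √(N : ℝ) := sqrt_pos.2 hN0
  have hla : log N / 2 ≤ log (a : ℝ) := hls ▸ log_le_log hs0 ha1
  have hLpos : 0 < log (N : ℝ) := by rw [← hxL]; positivity
  have key := h a N W (10 * r + 3) (Nat.primesLE ⌊x⌋₊) (by exact_mod_cast h4.trans ha1)
    (by exact_mod_cast hW0) ?_ (by omega) ?_
  rotate_left
  · have h5 : (W : ℝ) ^ 4 ≤ (2 * x ^ B) ^ 4 := pow_le_pow_left₀ (by linarith) hW2 4
    have h6 : (2 * x ^ B) ^ 4 = 16 * x ^ (2 * (2 * B)) := by ring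
    exact_mod_cast (h5.trans (h6.trans_le h3)).trans ha1
  · rw [hcard]
    have h5 := mul_le_mul_of_nonneg_left
      (add_le_add_left ((min_le_right (2 * W * log W) _).trans hmin) (4 * log N)) hr0
    refine h5.trans_lt ?_
    push_cast
    nlinarith [mul_le_mul_of_nonneg_left hla hr0]
  have hsub : ((Icc 1 N).filter fun n => ∀ l ∈ (pp n).primeFactors, (l : ℝ) ≤ x) ⊆
      (Icc 1 N).filter fun n => (pp n).primeFactors ⊆ Nat.primesLE ⌊x⌋₊ := by
    refine monotone_filter_right _ fun n _ hn l hl => ?_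
    exact Nat.mem_primesLE.2 ⟨Nat.le_floor (hn l hl), Nat.prime_of_mem_primeFactors hl⟩
  have h5 : ((((Icc 1 N).filter fun n => ∀ l ∈ (pp n).primeFactors, (l : ℝ) ≤ x).card : ℕ) : ℝ) ≤
      (a : ℝ) + ((10 * r + 3 : ℕ) : ℝ) * (((N / W : ℕ) : ℝ) + 1) := by
    exact_mod_cast (card_le_card hsub).trans key
  have h6 : ((N / W : ℕ) : ℝ) ≤ N / x ^ B :=
    Nat.cast_div_le.trans (div_le_div_of_nonneg_left hN0.le (by positivity) hW1)
  have h7 : ((10 * r + 3 : ℕ) : ℝ) ≤ x := by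
    have : 34 * (x / log x) ≤ x := by
      rw [← mul_div_assoc, div_le_iff₀ hl0]
      nlinarith
    linarith
  have h8 := mul_le_mul h7 (add_le_add_left h6 1) (by positivity) hx0.le
  have hy : 0 < x ^ (2 * A) := by positivity
  have h9 : x * (N / x ^ B) ≤ N / x ^ (2 * A) / 2 := by
    rw [← hB, pow_add, ← div_div, ← mul_div_assoc, div_le_div_iff₀ (by positivity) two_pos]
    have : 0 ≤ (N : ℝ) / x ^ (2 * A) := by positivity
    nlinarith [mul_nonneg (mul_nonneg this hx0.le) (sub_nonneg.2 hx2)]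
  have h10 : x ≤ x ^ (2 * (2 * B)) := le_self_pow₀ hx1 (by omega)
  have h11 : x ^ (2 * A) ≤ x ^ (2 * (2 * B)) := pow_le_pow_right₀ hx1 (by omega)
  have h12 : 16 * √(N : ℝ) ≤ N / x ^ (2 * A) := by
    rw [le_div_iff₀ hy]
    nlinarith [mul_le_mul_of_nonneg_left (h11.trans hs1) hs0.le]
  rw [← hxL, ← pow_mul]
  nlinarith

open GD in
theorem goalD (h : RowC) : GoalD := by
  have e1 := tendsto_natCast_atTop_atTop.eventually
    (Real.isLittleO_log_id_atTop.bound (show (0 : ℝ) < 1 / 10 by norm_num))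
  have t1 : Tendsto (fun N : ℕ => 1 - 4 / log (N : ℝ)) atTop (nhds 1) := by
    simpa using (tendsto_const_nhds (x := (1 : ℝ))).sub
      ((tendsto_const_nhds (x := (4 : ℝ))).div_atTop tend_log)
  have hle : ∀ N : ℕ, ((Icc 1 N).filter fun q => q.Prime ∧
      ∃ l ∈ (Fintype.card (Nat.Partition (q - 1))).primeFactors, √(log q) < (l : ℝ)).card ≤
      Nat.primeCounting N := by
    intro N
    rw [← Nat.primesLE_card_eq_primeCounting, Nat.primesLE_eq_filter_Icc_one]
    exact card_le_card (monotone_filter_right _ fun q _ hq => hq.1)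
  have hge : ∀ N : ℕ, Nat.primeCounting N ≤ ((Icc 1 N).filter fun q => q.Prime ∧
      ∃ l ∈ (Fintype.card (Nat.Partition (q - 1))).primeFactors, √(log q) < (l : ℝ)).card +
      ((Icc 1 N).filter fun n => ∀ l ∈ (pp n).primeFactors, (l : ℝ) ≤ √(log N)).card := by
    intro N
    rw [← Nat.primesLE_card_eq_primeCounting, Nat.primesLE_eq_filter_Icc_one]
    refine (card_le_card ?_).trans ((card_union_le _ (image (· + 1) ((Icc 1 N).filter
      fun n => ∀ l ∈ (pp n).primeFactors, (l : ℝ) ≤ √(log N)))).trans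
        (Nat.add_le_add_left card_image_le _))
    intro q hq
    obtain ⟨hq1, hq2⟩ := mem_filter.1 hq
    have hq3 := mem_Icc.1 hq1
    have hq4 := hq2.two_le
    by_cases hb : ∃ l ∈ (Fintype.card (Nat.Partition (q - 1))).primeFactors, √(log q) < (l : ℝ)
    · exact mem_union_left _ (mem_filter.2 ⟨hq1, hq2, hb⟩)
    · refine mem_union_right _ (mem_image.2 ⟨q - 1, mem_filter.2 ⟨mem_Icc.2 (by omega),
        fun l hl => ?_⟩, by omega⟩)
      refine (not_lt.1 fun hl' => hb ⟨l, hl, hl'⟩).trans (sqrt_le_sqrt (log_le_log ?_ ?_))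
      · exact_mod_cast hq2.pos
      · exact_mod_cast hq3.2
  refine tendsto_of_tendsto_of_tendsto_of_le_of_le' t1 tendsto_const_nhds ?_
    (Eventually.of_forall fun N => div_le_one_of_le₀ (by exact_mod_cast hle N) (Nat.cast_nonneg _))
  filter_upwards [h 2, e1, eventually_ge_atTop 10] with N h1 h2 hN
  have hN' : (10 : ℝ) ≤ N := by exact_mod_cast hN
  have hl : 0 < log (N : ℝ) := log_pos (by linarith)
  rw [Real.norm_eq_abs, Real.norm_eq_abs, abs_of_pos hl, id, abs_of_pos (by linarith)] at h2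
  have h3 : log ((N : ℝ) + 1) ≤ log 2 + log N := by
    rw [← log_mul two_ne_zero (by linarith)]
    exact log_le_log (by linarith) (by linarith)
  have h4 : (N : ℝ) / 4 / log N ≤ Nat.primeCounting N := by
    refine le_trans (div_le_div_of_nonneg_right ?_ hl.le) (Chebyshev.pi_ge N)
    nlinarith [log_two_gt_d9, log_two_lt_d9]
  have h5 : (0 : ℝ) < Nat.primeCounting N := lt_of_lt_of_le (by positivity) h4
  have h6 : (N : ℝ) / log N ^ 2 ≤ 4 / log N * Nat.primeCounting N := by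
    refine le_trans (le_of_eq ?_) (mul_le_mul_of_nonneg_left h4 (by positivity))
    field_simp
  have h7 : (Nat.primeCounting N : ℝ) ≤ (((Icc 1 N).filter fun q => q.Prime ∧
      ∃ l ∈ (Fintype.card (Nat.Partition (q - 1))).primeFactors, √(log q) < (l : ℝ)).card : ℝ) +
      (((Icc 1 N).filter fun n => ∀ l ∈ (pp n).primeFactors, (l : ℝ) ≤ √(log N)).card : ℝ) := by
    exact_mod_cast hge N
  rw [le_div_iff₀ h5]
  linarith

end Pool.Agent.MP_47b17d_nt.H77
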