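import Pool.Agent.MP_47b17d_nt.H77.Spec2
import Pool.Agent.MP_47b17d_nt.H77.GB
import Pool.Agent.MP_47b17d_nt.H77.GD

/-! The sharper exceptional set and shifted primes. -/

set_option autoImplicit false

namespace Pool.Agent.MP_47b17d_nt.H77

open Finset Filter Real

open GD in
theorem rowC2 (h : GoalE) : RowC2 := by
  obtain ⟨c, C, hc, h⟩ := h
  have hε : 0 < c / 15 := by positivity
  refine ⟨c / 15, hε, ?_⟩
  filter_upwards [tend_log.eventually (GB.evL hε), tend_log.eventually_ge_atTop C,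
    tend_log.eventually_gt_atTop 0, eventually_ge_atTop 1] with N ⟨e1, _, e3, e4⟩ e5 e6 hN
  have hN0 : (0 : ℝ) < N := by exact_mod_cast hN
  obtain ⟨L, hL⟩ : ∃ L, L = log (N : ℝ) := ⟨_, rfl⟩
  rw [← hL] at e1 e3 e4 e5 e6 ⊢
  obtain ⟨S, hS⟩ : ∃ S, S = insert 2 (Nat.primesLE ⌊c / 15 * L⌋₊) := ⟨_, rfl⟩
  have hne : S.Nonempty := hS ▸ insert_nonempty _ _
  have hc1 : (S.card : ℝ) ≤ Nat.primeCounting ⌊c / 15 * L⌋₊ + 1 := by
    rw [← Nat.primesLE_card_eq_primeCounting, hS]
    exact_mod_cast card_insert_le _ _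
  have hc0 : (0 : ℝ) < S.card := by exact_mod_cast hne.card_pos
  have l0 : 0 < log L := by linarith
  have yL : L / log L * log L = L := div_mul_cancel₀ _ l0.ne'
  have h1 : (S.card : ℝ) ≤ c / 3 * (L / log L) := by linarith
  have h2 : 3 * log L ≤ L * (c / S.card) := by
    rw [← mul_div_assoc, le_div_iff₀ hc0]
    have h3 := mul_le_mul_of_nonneg_left h1 l0.le
    have h4 : log L * (c / 3 * (L / log L)) = c / 3 * (L / log L * log L) := by ring
    rw [h4, yL] at h3
    linarith
  have h3 : (N : ℝ) ^ (1 - c / S.card) ≤ N / L ^ 3 := by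
    have h4 : (N : ℝ) / L ^ 3 = exp (L - 3 * log L) := by
      rw [exp_sub, hL, exp_log hN0, ← hL, show 3 * log L = log (L ^ 3) by
        rw [log_pow]; norm_num, exp_log (by positivity)]
    rw [rpow_def_of_pos hN0, ← hL, h4]
    exact exp_le_exp.2 (by linarith)
  have sub : ((Icc 1 N).filter fun n => ∀ l ∈ (pp n).primeFactors, (l : ℝ) ≤ c / 15 * L) ⊆
      (Icc 1 N).filter fun n => (Fintype.card (Nat.Partition n)).primeFactors ⊆ S := by
    refine monotone_filter_right _ fun n _ hn l hl => ?_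
    rw [hS]
    exact mem_insert_of_mem
      (Nat.mem_primesLE.2 ⟨Nat.le_floor (hn l hl), Nat.prime_of_mem_primeFactors hl⟩)
  have h5 : (((Icc 1 N).filter fun n => ∀ l ∈ (pp n).primeFactors,
      (l : ℝ) ≤ c / 15 * L).card : ℝ) ≤ C * (N : ℝ) ^ (1 - c / S.card) :=
    le_trans (by exact_mod_cast card_le_card sub) (h N S hne)
  have h6 : C * (N : ℝ) ^ (1 - c / S.card) ≤ L * (N / L ^ 3) :=
    (mul_le_mul_of_nonneg_right e5 (rpow_nonneg hN0.le _)).trans
      (mul_le_mul_of_nonneg_left h3 e6.le)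
  have h7 : L * ((N : ℝ) / L ^ 3) = N / L ^ 2 := by field_simp
  linarith

open GD in
theorem goalD2 (h : RowC2) : GoalD2 := by
  obtain ⟨c, hc, h⟩ := h
  refine ⟨c, hc, ?_⟩
  have e1 := tendsto_natCast_atTop_atTop.eventually
    (Real.isLittleO_log_id_atTop.bound (show (0 : ℝ) < 1 / 10 by norm_num))
  have t1 : Tendsto (fun N : ℕ => 1 - 4 / log (N : ℝ)) atTop (nhds 1) := by
    simpa using (tendsto_const_nhds (x := (1 : ℝ))).sub
      ((tendsto_const_nhds (x := (4 : ℝ))).div_atTop tend_log)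
  have hle : ∀ N : ℕ, ((Icc 1 N).filter fun q => q.Prime ∧
      ∃ l ∈ (Fintype.card (Nat.Partition (q - 1))).primeFactors, c * log q < (l : ℝ)).card ≤
      Nat.primeCounting N := by
    intro N
    rw [← Nat.primesLE_card_eq_primeCounting, Nat.primesLE_eq_filter_Icc_one]
    exact card_le_card (monotone_filter_right _ fun q _ hq => hq.1)
  have hge : ∀ N : ℕ, Nat.primeCounting N ≤ ((Icc 1 N).filter fun q => q.Prime ∧
      ∃ l ∈ (Fintype.card (Nat.Partition (q - 1))).primeFactors, c * log q < (l : ℝ)).card +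
      ((Icc 1 N).filter fun n => ∀ l ∈ (pp n).primeFactors, (l : ℝ) ≤ c * log N).card := by
    intro N
    rw [← Nat.primesLE_card_eq_primeCounting, Nat.primesLE_eq_filter_Icc_one]
    refine (card_le_card ?_).trans ((card_union_le _ (image (· + 1) ((Icc 1 N).filter
      fun n => ∀ l ∈ (pp n).primeFactors, (l : ℝ) ≤ c * log N))).trans
        (Nat.add_le_add_left card_image_le _))
    intro q hq
    obtain ⟨hq1, hq2⟩ := mem_filter.1 hq
    have hq3 := mem_Icc.1 hq1
    have hq4 := hq2.two_le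
    by_cases hb : ∃ l ∈ (Fintype.card (Nat.Partition (q - 1))).primeFactors, c * log q < (l : ℝ)
    · exact mem_union_left _ (mem_filter.2 ⟨hq1, hq2, hb⟩)
    · refine mem_union_right _ (mem_image.2 ⟨q - 1, mem_filter.2 ⟨mem_Icc.2 (by omega),
        fun l hl => ?_⟩, by omega⟩)
      refine (not_lt.1 fun hl' => hb ⟨l, hl, hl'⟩).trans
        (mul_le_mul_of_nonneg_left (log_le_log ?_ ?_) hc.le)
      · exact_mod_cast hq2.pos
      · exact_mod_cast hq3.2
  refine tendsto_of_tendsto_of_tendsto_of_le_of_le' t1 tendsto_const_nhds ?_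
    (Eventually.of_forall fun N => div_le_one_of_le₀ (by exact_mod_cast hle N) (Nat.cast_nonneg _))
  filter_upwards [h, e1, eventually_ge_atTop 10] with N h1 h2 hN
  have hN' : (10 : ℝ) ≤ N := by exact_mod_cast hN
  have hl : 0 < log (N : ℝ) := log_pos (by linarith)
  rw [Real.norm_eq_abs, Real.norm_eq_abs, abs_of_pos hl, id, abs_of_pos (by linarith)] at h2
  have h3 : log ((N : ℝ) + 1) ≤ log 2 + log N := by
    rw [← log_mul two_ne_zero (by linarith)]
    exact log_le_log (by linarith) (by linarith)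
  have h4 : (N : ℝ) / 4 / log N ≤ Nat.primeCounting N := by
    refine le_trans (div_le_div_of_nonneg_right ?_ hl.le) (Chebyshev.pi_ge N)
    nlinarith [log_two_gt_d9, log_two_lt_d9]
  have h5 : (0 : ℝ) < Nat.primeCounting N := lt_of_lt_of_le (by positivity) h4
  have h6 : (N : ℝ) / log N ^ 2 ≤ 4 / log N * Nat.primeCounting N := by
    refine le_trans (le_of_eq ?_) (mul_le_mul_of_nonneg_left h4 (by positivity))
    field_simp
  have h7 : (Nat.primeCounting N : ℝ) ≤ (((Icc 1 N).filter fun q => q.Prime ∧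
      ∃ l ∈ (Fintype.card (Nat.Partition (q - 1))).primeFactors, c * log q < (l : ℝ)).card : ℝ) +
      (((Icc 1 N).filter fun n => ∀ l ∈ (pp n).primeFactors, (l : ℝ) ≤ c * log N).card : ℝ) := by
    exact_mod_cast hge N
  rw [le_div_iff₀ h5]
  linarith

end Pool.Agent.MP_47b17d_nt.H77
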