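import Pool.Agent.MP_47b17d_nt.H77.Spec2

/-! The sparse counting result from the covering by windows. -/

set_option autoImplicit false

namespace Pool.Agent.MP_47b17d_nt.H77

open Finset Filter Real

namespace GE

/-- binomial coefficients with a small lower index -/
theorem choose_le {n j J : ℕ} {lam : ℝ} (hJ : 1 ≤ J) (hj : j ≤ J) (hn : J ≤ n)
    (h : 3 * (n : ℝ) ≤ J * lam) : (n.choose j : ℝ) ≤ lam ^ J := by
  have J0 : (0 : ℝ) < J := by exact_mod_cast hJ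
  have nJ : (J : ℝ) ≤ n := by exact_mod_cast hn
  have n0 : (0 : ℝ) < n := by linarith
  obtain ⟨x, hx⟩ : ∃ x : ℝ, x = J / n := ⟨_, rfl⟩
  have x0 : 0 < x := by rw [hx]; positivity
  have x1 : x ≤ 1 := by rw [hx]; exact (div_le_one n0).2 nJ
  have xn : x * n = J := by rw [hx]; field_simp
  have h1 : (n.choose j : ℝ) * x ^ j ≤ (x + 1) ^ n := by
    rw [add_pow]
    have hm : j ∈ range (n + 1) := mem_range.2 (by omega)
    have := single_le_sum (f := fun m => x ^ m * 1 ^ (n - m) * (n.choose m : ℝ))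
      (fun m _ => by positivity) hm
    simpa [mul_comm] using this
  have h2 : (x + 1) ^ n ≤ 3 ^ J := by
    calc (x + 1) ^ n ≤ exp x ^ n := pow_le_pow_left₀ (by linarith) (add_one_le_exp x) n
      _ = exp 1 ^ J := by rw [← exp_nat_mul, ← exp_nat_mul, mul_comm, xn, mul_one]
      _ ≤ 3 ^ J := pow_le_pow_left₀ (exp_pos 1).le (by linarith [exp_one_lt_d9]) J
  have h3 : (n.choose j : ℝ) * x ^ J ≤ 3 ^ J :=
    (mul_le_mul_of_nonneg_left (pow_le_pow_of_le_one x0.le x1 hj) (by positivity)).trans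
      (h1.trans h2)
  have h4 : 3 ≤ lam * x := by
    have : 3 * (n : ℝ) ≤ (lam * x) * n := by rw [mul_assoc, xn]; linarith
    exact le_of_mul_le_mul_right this n0
  have h5 : (3 : ℝ) ^ J ≤ lam ^ J * x ^ J := by
    rw [← mul_pow]; exact pow_le_pow_left₀ (by norm_num) h4 J
  exact le_of_mul_le_mul_right (h3.trans h5) (by positivity)

theorem evN : ∀ᶠ N : ℕ in atTop, log (N : ℝ) ^ 104 ≤ N := by
  have t1 : Tendsto (fun N : ℕ => (N : ℝ)) atTop atTop := tendsto_natCast_atTop_atTop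
  filter_upwards [t1.eventually ((isLittleO_pow_log_id_atTop (n := 104)).bound one_pos)] with N h
  rw [id, Real.norm_eq_abs, Real.norm_eq_abs, abs_of_nonneg (Nat.cast_nonneg N : (0 : ℝ) ≤ N),
    one_mul] at h
  exact (le_abs_self _).trans h

/-- the main estimate -/
theorem main (h : RowWIN2) : ∃ C : ℝ, 0 < C ∧ ∀ (N : ℕ) (S : Finset ℕ) (lam : ℝ), 1 ≤ N →
    S.Nonempty → 1 ≤ lam → lam ^ (4 * (6 * S.card + 7)) = N →
    (((Icc 1 N).filter fun n => (pp n).primeFactors ⊆ S).card : ℝ) * lam ≤ C * N := by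
  obtain ⟨a₀, h⟩ := h
  obtain ⟨N₁, hN₁⟩ := eventually_atTop.1 evN
  refine ⟨13 + (N₁ + a₀ ^ 2 : ℕ), by positivity, fun N S lam N1 hS l1 hl => ?_⟩
  obtain ⟨k, hk⟩ : ∃ k, k = ((Icc 1 N).filter fun n => (pp n).primeFactors ⊆ S).card := ⟨_, rfl⟩
  have kN : k ≤ N := by
    rw [hk]; exact (card_filter_le _ _).trans (by simp)
  have kN' : (k : ℝ) ≤ N := by exact_mod_cast kN
  rw [← hk]
  have N0 : (0 : ℝ) < N := by exact_mod_cast N1
  have c0 : (0 : ℝ) ≤ (N₁ + a₀ ^ 2 : ℕ) := Nat.cast_nonneg _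
  obtain ⟨J, hJ⟩ : ∃ J, J = 6 * S.card + 7 := ⟨_, rfl⟩
  have r1 : 1 ≤ S.card := hS.card_pos
  have J13 : 13 ≤ J := by omega
  rw [← hJ] at hl
  have l52 : lam ^ 52 ≤ N := hl ▸ pow_le_pow_right₀ l1 (by omega)
  have l2 : lam ^ 2 ≤ N := (pow_le_pow_right₀ l1 (by norm_num)).trans l52
  have lN : lam ≤ N := by nlinarith
  by_cases h8 : lam ≤ 8
  · nlinarith
  by_cases hN : N < N₁ + a₀ ^ 2
  · have : (N : ℝ) ≤ (N₁ + a₀ ^ 2 : ℕ) := by exact_mod_cast hN.le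
    nlinarith
  push Not at h8 hN
  have hL := hN₁ N (by omega)
  have J13' : (13 : ℝ) ≤ J := by exact_mod_cast J13
  have JL : (J : ℝ) ≤ log N := by
    rw [le_log_iff_exp_le N0, ← hl]
    calc exp (J : ℝ) = exp 1 ^ J := by rw [← exp_nat_mul, mul_one]
      _ ≤ lam ^ J := pow_le_pow_left₀ (exp_pos 1).le (by linarith [exp_one_lt_d9]) J
      _ ≤ lam ^ (4 * J) := pow_le_pow_right₀ l1 (by omega)
  obtain ⟨n, hn⟩ : ∃ n, n = ⌊J * lam / 3⌋₊ := ⟨_, rfl⟩
  have n1 : (n : ℝ) ≤ J * lam / 3 := by rw [hn]; exact Nat.floor_le (by positivity)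
  have n2 : J * lam / 3 < n + 1 := by rw [hn]; exact Nat.lt_floor_add_one _
  have Jl : 8 * (J : ℝ) ≤ J * lam := by nlinarith
  have nJ : J ≤ n := by
    have : (J : ℝ) ≤ n := by linarith
    exact_mod_cast this
  obtain ⟨W, rfl⟩ : ∃ W, n = W + 1 := ⟨n - 1, by omega⟩
  push_cast at n1 n2
  have W1 : 1 ≤ W := by omega
  have W1' : (1 : ℝ) ≤ W := by exact_mod_cast W1
  have W6 : J * lam ≤ 6 * W := by linarith
  have WL : (W : ℝ) ≤ log N * lam := by nlinarith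
  have W32 : (W : ℝ) ^ 32 ≤ N := by
    have N1' : (1 : ℝ) ≤ N := by exact_mod_cast N1
    have e1 : ((W : ℝ) ^ 32) ^ 13 ≤ (N : ℝ) ^ 13 := by
      calc ((W : ℝ) ^ 32) ^ 13 = (W : ℝ) ^ 416 := by rw [← pow_mul]
        _ ≤ (log N * lam) ^ 416 := pow_le_pow_left₀ (by linarith) WL _
        _ = (log N ^ 104) ^ 4 * (lam ^ 52) ^ 8 := by rw [mul_pow, ← pow_mul, ← pow_mul]
        _ ≤ (N : ℝ) ^ 4 * (N : ℝ) ^ 8 :=
          mul_le_mul (pow_le_pow_left₀ (by positivity) hL _)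
            (pow_le_pow_left₀ (by positivity) l52 _) (by positivity) (by positivity)
        _ = (N : ℝ) ^ 12 := by rw [← pow_add]
        _ ≤ (N : ℝ) ^ 13 := pow_le_pow_right₀ N1' (by norm_num)
    exact (pow_le_pow_iff_left₀ (by positivity) N0.le (by norm_num)).1 e1
  have W16 : W ^ 16 ≤ Nat.sqrt N := by
    rw [Nat.le_sqrt']
    have : ((W ^ 16) ^ 2 : ℕ) = W ^ 32 := by rw [← pow_mul]
    rw [this]
    exact_mod_cast W32
  have hc : ∀ j, j ≤ 6 * S.card + 7 → (W + 1).choose j ^ 2 ≤ Nat.sqrt N := fun j hj => by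
    rw [Nat.le_sqrt', ← pow_mul]
    have e1 := choose_le (lam := lam) (by omega) (hJ ▸ hj : j ≤ J) nJ (by push_cast; linarith)
    have e2 : (((W + 1).choose j : ℕ) : ℝ) ^ (2 * 2) ≤ N := by
      rw [← hl, mul_comm 4 J, pow_mul lam]
      exact pow_le_pow_left₀ (by positivity) e1 _
    exact_mod_cast e2
  have ha : a₀ ≤ Nat.sqrt N := by rw [Nat.le_sqrt']; omega
  have key := h (Nat.sqrt N) N W S ha W1 W16 hc
  rw [← hk] at key
  have key2 : k ≤ Nat.sqrt N + J * (N / W + 1) :=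
    key.trans (Nat.add_le_add_left (Nat.mul_le_mul_right _ (by omega)) _)
  have key3 : (k : ℝ) ≤ Nat.sqrt N + J * ((N / W : ℕ) + 1) := by exact_mod_cast key2
  have s1 : ((Nat.sqrt N : ℕ) : ℝ) ^ 2 ≤ N := by exact_mod_cast Nat.sqrt_le' N
  have s2 : ((Nat.sqrt N : ℕ) : ℝ) * lam ≤ N := by nlinarith [sq_nonneg ((Nat.sqrt N : ℝ) - lam)]
  have d1 : (W : ℝ) * (N / W : ℕ) ≤ N := by exact_mod_cast Nat.mul_div_le N W
  have d0 : (0 : ℝ) ≤ (N / W : ℕ) := Nat.cast_nonneg _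
  have WN : (W : ℝ) ≤ N := (le_self_pow₀ W1' (by norm_num)).trans W32
  have e3 : J * lam * ((N / W : ℕ) : ℝ) ≤ 6 * N := by nlinarith
  have e4 : (k : ℝ) * lam ≤ (Nat.sqrt N + J * ((N / W : ℕ) + 1)) * lam :=
    mul_le_mul_of_nonneg_right key3 (by linarith)
  nlinarith

end GE

theorem goalE (h : RowWIN2) : GoalE := by
  obtain ⟨C, C0, h⟩ := GE.main h
  refine ⟨1 / 52, C, by norm_num, fun N S hS => ?_⟩
  rcases Nat.eq_zero_or_pos N with rfl | N1
  · simp only [Nat.cast_zero, zero_lt_one, Icc_eq_empty_of_lt, filter_empty, card_empty]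
    positivity
  have N0 : (0 : ℝ) < N := by exact_mod_cast N1
  have N1' : (1 : ℝ) ≤ N := by exact_mod_cast N1
  have r1 : (1 : ℝ) ≤ S.card := by exact_mod_cast hS.card_pos
  obtain ⟨m, hm⟩ : ∃ m : ℕ, m = 4 * (6 * S.card + 7) := ⟨_, rfl⟩
  have m0 : m ≠ 0 := by omega
  have m1 : (0 : ℝ) < m := by exact_mod_cast Nat.pos_of_ne_zero m0
  have m2 : (m : ℝ) ≤ 52 * S.card := by rw [hm]; push_cast; linarith
  have e1 := h N S ((N : ℝ) ^ ((m : ℝ)⁻¹)) N1 hS (one_le_rpow N1' (by positivity))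
    (by rw [← hm]; exact rpow_inv_natCast_pow N0.le m0)
  have e2 : (N : ℝ) ^ ((1 / 52 : ℝ) / S.card) ≤ (N : ℝ) ^ ((m : ℝ)⁻¹) := by
    refine rpow_le_rpow_of_exponent_le N1' ?_
    rw [div_div, one_div]
    exact inv_anti₀ m1 m2
  rw [rpow_sub N0, rpow_one, ← mul_div_assoc, le_div_iff₀ (by positivity)]
  exact (mul_le_mul_of_nonneg_left e2 (Nat.cast_nonneg _)).trans e1

end Pool.Agent.MP_47b17d_nt.H77
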