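import Pool.Agent.MP_47b17d_nt.H77.Spec

/-! The generating function of the partition numbers and Cauchy's formula. -/

set_option autoImplicit false

namespace Pool.Agent.MP_47b17d_nt.H77

open Finset Filter Real MeasureTheory Topology

namespace GEN

/-- partitions with parts at most `K` -/
def rr (K n : ℕ) : ℕ := #(Nat.Partition.restricted n (· ≤ K))

theorem rr_le (K n : ℕ) : rr K n ≤ pp n := card_le_univ _

theorem rr_eq {K n : ℕ} (h : n ≤ K) : rr K n = pp n := by
  rw [rr, Nat.Partition.restricted, filter_true_of_mem, card_univ, pp]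
  exact fun x _ i hi => (Nat.Partition.le_of_mem_parts hi).trans h

open PowerSeries PowerSeries.WithPiTopology in
theorem mk_eq (K : ℕ) : (PowerSeries.mk fun n => (rr K n : ℝ)) =
    ∏ i ∈ range K, ∑' j : ℕ, (X : ℝ⟦X⟧) ^ ((i + 1) * j) := by
  have h1 := Nat.Partition.hasProd_powerSeriesMk_card_restricted ℝ (· ≤ K)
  have h2 : HasProd (fun i => if i + 1 ≤ K then ∑' j : ℕ, (X : ℝ⟦X⟧) ^ ((i + 1) * j) else 1)
      (∏ i ∈ range K, if i + 1 ≤ K then ∑' j : ℕ, (X : ℝ⟦X⟧) ^ ((i + 1) * j) else 1) :=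
    hasProd_prod_of_ne_finset_one fun i hi => if_neg (by simpa using hi)
  refine (h1.unique h2).trans (prod_congr rfl fun i hi => if_pos ?_)
  exact mem_range.1 hi

theorem rr_zero (n : ℕ) : (rr 0 n : ℝ) = if n = 0 then 1 else 0 := by
  have := congrArg (PowerSeries.coeff n) (mk_eq 0)
  simpa [PowerSeries.coeff_one] using this

open PowerSeries PowerSeries.WithPiTopology in
theorem rr_succ (K n : ℕ) : (rr (K + 1) n : ℝ) =
    rr K n + if K + 1 ≤ n then (rr (K + 1) (n - (K + 1)) : ℝ) else 0 := by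
  have h : (PowerSeries.mk fun n => (rr (K + 1) n : ℝ)) * (1 - X ^ (K + 1)) =
      PowerSeries.mk fun n => (rr K n : ℝ) := by
    rw [mk_eq, mk_eq, prod_range_succ, mul_assoc]
    simp only [pow_mul]
    rw [tsum_pow_mul_one_sub_of_constantCoeff_eq_zero (by simp), mul_one]
  have h2 := congrArg (coeff n) h
  rw [mul_sub, mul_one, map_sub, coeff_mul_X_pow', coeff_mk, coeff_mk, coeff_mk] at h2
  linarith

theorem partial_le {ρ : ℝ} (h0 : 0 ≤ ρ) (h1 : ρ < 1) (N K : ℕ) :
    ∑ n ∈ range N, (rr K n : ℝ) * ρ ^ n ≤ exp ((∑ i ∈ range K, ρ ^ (i + 1)) / (1 - ρ)) := by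
  induction K with
  | zero =>
    simp only [rr_zero, ite_mul, one_mul, zero_mul, sum_ite_eq', range_zero, sum_empty, zero_div,
      exp_zero]
    split_ifs <;> simp
  | succ K ih =>
    obtain ⟨S, hS⟩ : ∃ S, S = ∑ n ∈ range N, (rr (K + 1) n : ℝ) * ρ ^ n := ⟨_, rfl⟩
    have hS0 : 0 ≤ S := hS ▸ sum_nonneg fun n _ => by positivity
    have e1 : ∑ n ∈ range N, (if K + 1 ≤ n then (rr (K + 1) (n - (K + 1)) : ℝ) else 0) * ρ ^ n ≤
        ρ ^ (K + 1) * S := by
      refine (sum_le_sum_of_subset_of_nonneg (range_mono (Nat.le_add_left N (K + 1)))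
        fun n _ _ => by positivity).trans_eq ?_
      rw [sum_range_add, sum_eq_zero, zero_add, hS, mul_sum]
      · refine sum_congr rfl fun n _ => ?_
        rw [if_pos (Nat.le_add_right _ _), Nat.add_sub_cancel_left, pow_add]
        ring
      · intro n hn
        rw [if_neg (not_le.2 (mem_range.1 hn)), zero_mul]
    have e2 : S ≤ ∑ n ∈ range N, (rr K n : ℝ) * ρ ^ n + ρ ^ (K + 1) * S := by
      refine le_trans (le_of_eq ?_) (add_le_add le_rfl e1)
      rw [hS, ← sum_add_distrib]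
      exact sum_congr rfl fun n _ => by rw [rr_succ, add_mul]
    have ht0 : 0 ≤ ρ ^ (K + 1) := by positivity
    have ht1 : ρ ^ (K + 1) ≤ ρ := pow_le_of_le_one h0 h1.le (Nat.succ_ne_zero K)
    rw [← hS, sum_range_succ, add_div, exp_add]
    obtain ⟨t, ht⟩ : ∃ t, t = ρ ^ (K + 1) := ⟨_, rfl⟩
    rw [← ht] at e2 ht0 ht1 ⊢
    have e3 : 1 ≤ (1 - t) * exp (t / (1 - ρ)) := by
      have h2 : t / (1 - t) ≤ t / (1 - ρ) :=
        div_le_div_of_nonneg_left ht0 (by linarith) (by linarith)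
      have h3 := add_one_le_exp (t / (1 - ρ))
      have h4 : (1 - t) * (t / (1 - t) + 1) = 1 := by
        have : 1 - t ≠ 0 := by linarith
        field_simp
        ring
      exact h4.symm.trans_le (mul_le_mul_of_nonneg_left (by linarith) (by linarith))
    calc S ≤ S * ((1 - t) * exp (t / (1 - ρ))) := le_mul_of_one_le_right hS0 e3
      _ = S * (1 - t) * exp (t / (1 - ρ)) := by ring
      _ ≤ _ := mul_le_mul_of_nonneg_right (by linarith) (exp_pos _).le

theorem summable_pp {ρ : ℝ} (h0 : 0 ≤ ρ) (h1 : ρ < 1) : Summable fun n => (pp n : ℝ) * ρ ^ n := by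
  have hs : Summable fun i : ℕ => ρ ^ (i + 1) :=
    (summable_nat_add_iff 1).2 (summable_geometric_of_lt_one h0 h1)
  refine summable_of_sum_range_le (c := exp ((∑' i : ℕ, ρ ^ (i + 1)) / (1 - ρ)))
    (fun n => by positivity) fun N => ?_
  have h := partial_le h0 h1 N N
  rw [sum_congr rfl fun n hn => by rw [rr_eq (mem_range.1 hn).le]] at h
  refine h.trans (exp_le_exp.2 (div_le_div_of_nonneg_right ?_ (by linarith)))
  exact hs.sum_le_tsum _ fun i _ => by positivity

theorem norm_le (K n : ℕ) (q : ℂ) : ‖(rr K n : ℂ) * q ^ n‖ ≤ (pp n : ℝ) * ‖q‖ ^ n := by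
  rw [norm_mul, norm_pow, Complex.norm_natCast]
  exact mul_le_mul_of_nonneg_right (by exact_mod_cast rr_le K n) (by positivity)

theorem summable_rr {q : ℂ} (hq : ‖q‖ < 1) (K : ℕ) : Summable fun n => (rr K n : ℂ) * q ^ n :=
  .of_norm_bounded (summable_pp (norm_nonneg q) hq) fun n => norm_le K n q

theorem tsum_rr {q : ℂ} (hq : ‖q‖ < 1) (K : ℕ) :
    (∑' n, (rr K n : ℂ) * q ^ n) * ∏ i ∈ range K, (1 - q ^ (i + 1)) = 1 := by
  induction K with
  | zero =>
    have h : ∀ n, (rr 0 n : ℂ) = if n = 0 then 1 else 0 := fun n => by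
      have := congrArg Complex.ofReal (rr_zero n)
      split_ifs at this ⊢ <;> exact_mod_cast this
    rw [tsum_eq_single 0 fun n hn => by simp [h, hn]]
    simp [h]
  | succ K ih =>
    have h : ∀ n, (rr (K + 1) n : ℂ) =
        rr K n + if K + 1 ≤ n then (rr (K + 1) (n - (K + 1)) : ℂ) else 0 := fun n => by
      have := congrArg Complex.ofReal (rr_succ K n)
      split_ifs at this ⊢ <;> exact_mod_cast this
    have h1 : HasSum (fun n => (if K + 1 ≤ n then (rr (K + 1) (n - (K + 1)) : ℂ) else 0) * q ^ n)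
        (q ^ (K + 1) * ∑' n, (rr (K + 1) n : ℂ) * q ^ n) := by
      rw [← hasSum_nat_add_iff' (K + 1), sum_eq_zero fun n hn => by
        rw [if_neg (not_le.2 (mem_range.1 hn)), zero_mul], sub_zero]
      simp only [Nat.le_add_left, if_true, Nat.add_sub_cancel, pow_add q _ (K + 1), ← mul_assoc]
      rw [mul_comm]
      exact (summable_rr hq (K + 1)).hasSum.mul_right _
    have h2 := (summable_rr hq K).hasSum.add h1
    simp only [← add_mul, ← h] at h2
    have h3 := h2.tsum_eq
    rw [prod_range_succ]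
    linear_combination (∏ i ∈ range K, (1 - q ^ (i + 1))) * h3 + ih

theorem norm_pp (n : ℕ) (q : ℂ) : ‖(pp n : ℂ) * q ^ n‖ ≤ (pp n : ℝ) * ‖q‖ ^ n :=
  rr_eq (le_refl n) ▸ norm_le n n q

/-- Euler's generating function. -/
theorem hasSum_pp {q : ℂ} (hq : ‖q‖ < 1) : HasSum (fun n => (pp n : ℂ) * q ^ n) (QQ q)⁻¹ := by
  have hs := summable_pp (norm_nonneg q) hq
  have h1 : Tendsto (fun K => ∑' n, (rr K n : ℂ) * q ^ n) atTop (𝓝 (∑' n, (pp n : ℂ) * q ^ n)) := by
    refine tendsto_tsum_of_dominated_convergence hs (fun n => ?_)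
      (Eventually.of_forall fun K n => norm_le K n q)
    exact tendsto_const_nhds.congr' ((eventually_ge_atTop n).mono fun K hK => by
      simp only [rr_eq hK])
  have h2 := h1.mul (ModularForm.multipliable_one_sub_pow hq).tendsto_prod_tprod_nat
  simp only [tsum_rr hq] at h2
  have h3 := tendsto_nhds_unique h2 tendsto_const_nhds
  rw [QQ, ← eq_inv_of_mul_eq_one_left h3]
  exact (Summable.of_norm_bounded hs fun n => norm_pp n q).hasSum

theorem norm_q (a θ : ℝ) : ‖Complex.exp (-((a : ℂ) + θ * Complex.I))‖ = exp (-a) := by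
  rw [Complex.norm_exp]
  simp

theorem orth (a : ℝ) (n m : ℕ) : ∫ θ in (-π)..π, Complex.exp (n * ((a : ℂ) + θ * Complex.I)) *
    ((pp m : ℂ) * Complex.exp (-((a : ℂ) + θ * Complex.I)) ^ m) =
      if m = n then (2 * π * pp n : ℂ) else 0 := by
  have h : ∀ θ : ℝ, Complex.exp (n * ((a : ℂ) + θ * Complex.I)) *
      ((pp m : ℂ) * Complex.exp (-((a : ℂ) + θ * Complex.I)) ^ m) =
      (pp m * Complex.exp (((n : ℂ) - m) * a)) * Complex.exp (((n : ℂ) - m) * Complex.I * θ) := by
    intro θ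
    rw [← Complex.exp_nat_mul, mul_left_comm, mul_assoc, ← Complex.exp_add, ← Complex.exp_add]
    congr 2
    ring
  simp only [h, intervalIntegral.integral_const_mul]
  split_ifs with hmn
  · subst hmn
    simp
    ring
  · have hc : ((n : ℂ) - m) * Complex.I ≠ 0 :=
      mul_ne_zero (sub_ne_zero.2 (by exact_mod_cast Ne.symm hmn)) Complex.I_ne_zero
    rw [integral_exp_mul_complex hc]
    have h1 := Complex.exp_int_mul_two_pi_mul_I ((n : ℤ) - m)
    have h2 : ((n : ℂ) - m) * Complex.I * (π : ℝ) =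
        ((n : ℂ) - m) * Complex.I * (-π : ℝ) + (((n : ℤ) - m : ℤ) : ℂ) * (2 * π * Complex.I) := by
      push_cast
      ring
    rw [h2, Complex.exp_add, h1]
    simp

end GEN

theorem rowGEN : RowGEN := by
  intro a ha
  have hρ : exp (-a) < 1 := exp_lt_one_iff.2 (by linarith)
  have hq : ∀ θ : ℝ, ‖Complex.exp (-((a : ℂ) + θ * Complex.I))‖ < 1 := fun θ => by
    rw [GEN.norm_q]; exact hρ
  have hs := GEN.summable_pp (exp_pos (-a)).le hρ
  have hb : ∀ (m : ℕ) (θ : ℝ), ‖(pp m : ℂ) * Complex.exp (-((a : ℂ) + θ * Complex.I)) ^ m‖ ≤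
      (pp m : ℝ) * exp (-a) ^ m := fun m θ => by
    rw [← GEN.norm_q a θ]; exact GEN.norm_pp m _
  refine ⟨?_, fun n => ?_⟩
  · simp only [← fun θ => (GEN.hasSum_pp (hq θ)).tsum_eq]
    exact continuous_tsum (fun m => by fun_prop) hs hb
  · have h := intervalIntegral.hasSum_integral_of_dominated_convergence (μ := volume)
      (a := -π) (b := π)
      (F := fun (m : ℕ) (θ : ℝ) => Complex.exp (n * ((a : ℂ) + θ * Complex.I)) *
        ((pp m : ℂ) * Complex.exp (-((a : ℂ) + θ * Complex.I)) ^ m))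
      (f := fun θ : ℝ => Complex.exp (n * ((a : ℂ) + θ * Complex.I)) *
        (QQ (Complex.exp (-((a : ℂ) + θ * Complex.I))))⁻¹)
      (fun m _ => exp (n * a) * ((pp m : ℝ) * exp (-a) ^ m))
      (fun m => Continuous.aestronglyMeasurable (by fun_prop))
      (fun m => Eventually.of_forall fun θ _ => by
        rw [norm_mul, Complex.norm_exp]
        refine mul_le_mul (le_of_eq ?_) (hb m θ) (norm_nonneg _) (exp_pos _).le
        simp)
      (Eventually.of_forall fun _ _ => hs.mul_left _) intervalIntegrable_const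
      (Eventually.of_forall fun θ _ => (GEN.hasSum_pp (hq θ)).mul_left _)
    simp only [GEN.orth] at h
    exact (hasSum_ite_eq n _).unique h

end Pool.Agent.MP_47b17d_nt.H77
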