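import Pool.Agent.MP_47b17d_nt.H77.Spec

/-! The first term dominates. -/

set_option autoImplicit false

namespace Pool.Agent.MP_47b17d_nt.H77

open Finset Filter Real MeasureTheory

namespace LAP

theorem intg {σ X : ℝ} (hσ : 0 < σ) (hX : 0 < X) :
    IntegrableOn (fun y : ℝ => y ^ (σ - 1) * exp (-(X * y))) (Set.Ioi 0) := by
  have h := integrableOn_rpow_mul_exp_neg_mul_rpow (s := σ - 1) (p := 1) (b := X)
    (by linarith) one_pos hX
  simpa only [rpow_one, neg_mul] using h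

theorem val {σ X : ℝ} (hσ : 0 < σ) (hX : 0 < X) :
    ∫ y in Set.Ioi (0 : ℝ), y ^ (σ - 1) * exp (-(X * y)) = X ^ (-σ) * Gamma σ := by
  rw [Real.integral_rpow_mul_exp_neg_mul_Ioi hσ hX, one_div, inv_rpow hX.le, rpow_neg hX.le]

theorem expand (a : ℕ → ℤ) (R : ℕ) (σ s Z y : ℝ) :
    y ^ (σ - 1) * exp (-(Z * y)) * ph a R (s * y) ^ 2 =
      ∑ i ∈ range (R + 1), ∑ j ∈ range (R + 1),
        (a i : ℝ) * a j * (y ^ (σ - 1) * exp (-((Z + ((i : ℝ) + j) * s) * y))) := by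
  rw [ph, sq, sum_mul_sum, mul_sum]
  refine sum_congr rfl fun i _ => ?_
  rw [mul_sum]
  refine sum_congr rfl fun j _ => ?_
  have : -((Z + ((i : ℝ) + j) * s) * y) = -(Z * y) + (-(i * (s * y)) + -(j * (s * y))) := by ring
  rw [this, exp_add, exp_add]; ring

/-- the integral of one term -/
noncomputable def II (a : ℕ → ℤ) (R : ℕ) (σ s Z : ℝ) : ℝ :=
  ∫ y in Set.Ioi (0 : ℝ), y ^ (σ - 1) * exp (-(Z * y)) * ph a R (s * y) ^ 2

theorem pos' {s Z : ℝ} (hs : 0 ≤ s) (hZ : 0 < Z) (i j : ℕ) : 0 < Z + ((i : ℝ) + j) * s := by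
  positivity

theorem intg2 (a : ℕ → ℤ) (R : ℕ) {σ s Z : ℝ} (hσ : 0 < σ) (hs : 0 ≤ s) (hZ : 0 < Z) :
    IntegrableOn (fun y : ℝ => y ^ (σ - 1) * exp (-(Z * y)) * ph a R (s * y) ^ 2) (Set.Ioi 0) := by
  simp only [expand]
  exact integrable_finsetSum _ fun i _ => integrable_finsetSum _ fun j _ =>
    (intg hσ (pos' hs hZ i j)).const_mul _

theorem II_eq (a : ℕ → ℤ) (R : ℕ) {σ s Z : ℝ} (hσ : 0 < σ) (hs : 0 ≤ s) (hZ : 0 < Z) :
    ∑ i ∈ range (R + 1), ∑ j ∈ range (R + 1),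
      (a i : ℝ) * a j * (Z + ((i : ℝ) + j) * s) ^ (-σ) = II a R σ s Z / Gamma σ := by
  have hG : 0 < Gamma σ := Gamma_pos_of_pos hσ
  rw [eq_div_iff hG.ne', II]
  simp only [expand]
  rw [integral_finsetSum _ fun i _ => integrable_finsetSum _ fun j _ =>
    (intg hσ (pos' hs hZ i j)).const_mul _, sum_mul]
  refine sum_congr rfl fun i _ => ?_
  rw [integral_finsetSum _ fun j _ => (intg hσ (pos' hs hZ i j)).const_mul _, sum_mul]
  refine sum_congr rfl fun j _ => ?_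
  rw [integral_const_mul, val hσ (pos' hs hZ i j)]; ring

theorem II_nonneg (a : ℕ → ℤ) (R : ℕ) (σ s Z : ℝ) : 0 ≤ II a R σ s Z :=
  setIntegral_nonneg measurableSet_Ioi fun y hy => by
    have : (0 : ℝ) < y := hy
    positivity

theorem II_half (a : ℕ → ℤ) (R : ℕ) (s Z : ℝ) : II a R (1 / 2) s Z = EE a R s Z := by
  have : (1 / 2 - 1 : ℝ) = -(1 / 2) := by norm_num
  rw [II, EE, this]

theorem ph_sq (a : ℕ → ℤ) (R : ℕ) (ha : ∀ i, |a i| ≤ 1) {u : ℝ} (hu : 0 ≤ u) :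
    ph a R u ^ 2 ≤ ((R : ℝ) + 1) ^ 2 := by
  refine sq_le_sq' ?_ ?_ <;>
  · have h : |ph a R u| ≤ (R : ℝ) + 1 := by
      refine (abs_sum_le_sum_abs _ _).trans ?_
      refine (sum_le_sum (g := fun _ => (1 : ℝ)) fun i _ => ?_).trans (by simp)
      rw [abs_mul, abs_of_pos (exp_pos _)]
      have h1 : |(a i : ℝ)| ≤ 1 := by exact_mod_cast ha i
      have h2 : exp (-(i * u)) ≤ 1 := exp_le_one_iff.2 (neg_nonpos.2 (by positivity))
      exact mul_le_one₀ h1 (exp_pos _).le h2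
    linarith [(abs_le.1 h).1, (abs_le.1 h).2]

theorem gam (k : ℕ) : 1 / 2 ≤ Gamma (((k : ℝ) + 2) / 2) := by
  induction k using Nat.twoStepInduction with
  | zero => norm_num
  | one =>
    have : (((1 : ℕ) : ℝ) + 2) / 2 = 1 / 2 + 1 := by norm_num
    rw [this, Gamma_add_one (by norm_num), Gamma_one_half_eq]
    have : 1 ≤ √π := one_le_sqrt.2 (by linarith [pi_gt_three])
    linarith
  | more k h _ =>
    have e : (((k + 2 : ℕ) : ℝ) + 2) / 2 = ((k : ℝ) + 2) / 2 + 1 := by push_cast; ring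
    have hk : (0 : ℝ) ≤ k := Nat.cast_nonneg k
    rw [e, Gamma_add_one (by positivity)]
    nlinarith

theorem II_le (a : ℕ → ℤ) (R k : ℕ) {s Z : ℝ} (ha : ∀ i, |a i| ≤ 1) (hs : 0 ≤ s) (hZ : 0 < Z) :
    II a R (((k : ℝ) + 1) / 2) s Z ≤ (1 / 10) ^ k * EE a R s Z +
      ((R : ℝ) + 1) ^ 2 * exp (-(Z / 200)) *
        ((Z / 2) ^ (-(((k : ℝ) + 1) / 2)) * Gamma (((k : ℝ) + 1) / 2)) := by
  have hσ : (0 : ℝ) < ((k : ℝ) + 1) / 2 := by positivity
  have hZ2 : 0 < Z / 2 := by positivity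
  have i1 := (intg2 a R (σ := 1 / 2) (by norm_num) hs hZ).const_mul ((1 / 10 : ℝ) ^ k)
  have i2 := (intg hσ hZ2).const_mul (((R : ℝ) + 1) ^ 2 * exp (-(Z / 200)))
  rw [← val hσ hZ2, ← II_half, II, II, ← integral_const_mul, ← integral_const_mul,
    ← integral_add i1 i2]
  refine setIntegral_mono_on (intg2 a R hσ hs hZ) (i1.add i2) measurableSet_Ioi fun y hy => ?_
  have hy0 : (0 : ℝ) < y := hy
  by_cases h : y ≤ 1 / 100
  · have e : y ^ (((k : ℝ) + 1) / 2 - 1) = (y ^ (1 / 2 : ℝ)) ^ k * y ^ (1 / 2 - 1 : ℝ) := by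
      rw [← rpow_natCast, ← rpow_mul hy0.le, ← rpow_add hy0]; congr 1; ring
    have h1 : y ^ (1 / 2 : ℝ) ≤ 1 / 10 := by
      rw [← sqrt_eq_rpow]; exact sqrt_le_iff.2 ⟨by norm_num, by linarith⟩
    have h2 : (y ^ (1 / 2 : ℝ)) ^ k ≤ (1 / 10) ^ k := pow_le_pow_left₀ (by positivity) h1 k
    have h3 : 0 ≤ y ^ (1 / 2 - 1 : ℝ) * exp (-(Z * y)) * ph a R (s * y) ^ 2 := by positivity
    have h4 : 0 ≤ ((R : ℝ) + 1) ^ 2 * exp (-(Z / 200)) *
        (y ^ (((k : ℝ) + 1) / 2 - 1) * exp (-(Z / 2 * y))) := by positivity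
    have h5 := mul_le_mul_of_nonneg_right h2 h3
    have h6 : y ^ (((k : ℝ) + 1) / 2 - 1) * exp (-(Z * y)) * ph a R (s * y) ^ 2 =
        (y ^ (1 / 2 : ℝ)) ^ k * (y ^ (1 / 2 - 1 : ℝ) * exp (-(Z * y)) * ph a R (s * y) ^ 2) := by
      rw [e]; ring
    linarith
  · have h1 : exp (-(Z * y)) ≤ exp (-(Z / 200)) * exp (-(Z / 2 * y)) := by
      rw [← exp_add]; exact exp_le_exp.2 (by nlinarith [not_le.1 h])
    have h2 := ph_sq a R ha (mul_nonneg hs hy0.le)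
    have h3 : 0 ≤ (1 / 10 : ℝ) ^ k *
        (y ^ (1 / 2 - 1 : ℝ) * exp (-(Z * y)) * ph a R (s * y) ^ 2) := by positivity
    have h4 : y ^ (((k : ℝ) + 1) / 2 - 1) * exp (-(Z * y)) * ph a R (s * y) ^ 2 ≤
        y ^ (((k : ℝ) + 1) / 2 - 1) * (exp (-(Z / 200)) * exp (-(Z / 2 * y))) *
          ((R : ℝ) + 1) ^ 2 :=
      mul_le_mul (mul_le_mul_of_nonneg_left h1 (by positivity)) h2 (by positivity) (by positivity)
    linarith

theorem term (a : ℕ → ℤ) (R k : ℕ) {s Z β : ℝ} (ha : ∀ i, |a i| ≤ 1) (hs : 0 ≤ s) (hZ : 4 ≤ Z)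
    (hβ : |β| ≤ 1) :
    |β * (II a R ((((k + 1 : ℕ) : ℝ) + 1) / 2) s Z / Gamma ((((k + 1 : ℕ) : ℝ) + 1) / 2))| ≤
      EE a R s Z / 5 * (1 / 10) ^ k + ((R : ℝ) + 1) ^ 2 * exp (-(Z / 200)) * (3 / 4) ^ k := by
  have h1 := II_le a R (k + 1) ha hs (show 0 < Z by linarith)
  have h0 := II_nonneg a R ((((k + 1 : ℕ) : ℝ) + 1) / 2) s Z
  have hE : 0 ≤ EE a R s Z := II_half a R s Z ▸ II_nonneg a R _ s Z
  have hG : 1 / 2 ≤ Gamma ((((k + 1 : ℕ) : ℝ) + 1) / 2) := by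
    have e : (((k + 1 : ℕ) : ℝ) + 1) / 2 = ((k : ℝ) + 2) / 2 := by push_cast; ring
    rw [e]; exact gam k
  have hp : (Z / 2) ^ (-((((k + 1 : ℕ) : ℝ) + 1) / 2)) ≤ (3 / 4) ^ k := by
    have hk : (0 : ℝ) ≤ k := Nat.cast_nonneg k
    have e1 : (Z / 2) ^ (-((((k + 1 : ℕ) : ℝ) + 1) / 2)) ≤ (Z / 2) ^ (-(1 / 2 : ℝ) * k) :=
      rpow_le_rpow_of_exponent_le (by linarith) (by push_cast; linarith)
    refine e1.trans ?_
    rw [rpow_mul (by linarith), rpow_natCast]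
    refine pow_le_pow_left₀ (by positivity) ?_ k
    rw [rpow_neg (by linarith), ← sqrt_eq_rpow]
    refine inv_le_of_inv_le₀ (by norm_num) (le_sqrt_of_sq_le (by linarith))
  set G := Gamma ((((k + 1 : ℕ) : ℝ) + 1) / 2)
  set I := II a R ((((k + 1 : ℕ) : ℝ) + 1) / 2) s Z
  set P := (Z / 2) ^ (-((((k + 1 : ℕ) : ℝ) + 1) / 2))
  set B := ((R : ℝ) + 1) ^ 2 * exp (-(Z / 200)) with hB
  have hB0 : 0 ≤ B := by positivity
  have hG0 : 0 < G := by linarith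
  rw [abs_mul, abs_of_nonneg (div_nonneg h0 hG0.le)]
  refine (mul_le_of_le_one_left (div_nonneg h0 hG0.le) hβ).trans ?_
  rw [div_le_iff₀ hG0]
  have h2 : (0 : ℝ) ≤ EE a R s Z / 5 * (1 / 10) ^ k := by positivity
  have h3 := mul_le_mul_of_nonneg_left hG h2
  have h4 := mul_le_mul_of_nonneg_left (mul_le_mul_of_nonneg_right hp hG0.le) hB0
  rw [pow_succ] at h1
  nlinarith

theorem geo {r : ℝ} (h0 : 0 ≤ r) (h1 : r < 1) (K : ℕ) : ∑ k ∈ range K, r ^ k ≤ (1 - r)⁻¹ :=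
  sum_le_hasSum _ (fun _ _ => pow_nonneg h0 _) (hasSum_geometric_of_lt_one h0 h1)

end LAP

open LAP in
theorem rowLAP : RowLAP := by
  intro a R K b s Z ha hb hs hZ
  have hZ0 : 0 < Z := by linarith
  have e : ∑ i ∈ range (R + 1), ∑ j ∈ range (R + 1),
      (a i : ℝ) * a j * gg b (K + 1) (Z + ((i : ℝ) + j) * s) =
      ∑ k ∈ range (K + 1), b k * (II a R (((k : ℝ) + 1) / 2) s Z / Gamma (((k : ℝ) + 1) / 2)) := by
    simp only [gg, mul_sum]
    rw [sum_congr rfl fun i _ => sum_comm, sum_comm]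
    refine sum_congr rfl fun k _ => ?_
    rw [← II_eq a R (by positivity) hs hZ0, mul_sum]
    refine sum_congr rfl fun i _ => ?_
    rw [mul_sum]
    exact sum_congr rfl fun j _ => by ring
  rw [e, sum_range_succ']
  have hE : 0 ≤ EE a R s Z := II_half a R s Z ▸ II_nonneg a R _ s Z
  have hB0 : 0 ≤ ((R : ℝ) + 1) ^ 2 * exp (-(Z / 200)) := by positivity
  have h1 := (abs_sum_le_sum_abs _ _).trans
    (sum_le_sum (s := range K) fun k _ => term a R k ha hs hZ (hb.2.2 k))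
  rw [sum_add_distrib, ← mul_sum, ← mul_sum] at h1
  have g1 := mul_le_mul_of_nonneg_left (geo (r := 1 / 10) (by norm_num) (by norm_num) K)
    (show 0 ≤ EE a R s Z / 5 by positivity)
  have g2 := mul_le_mul_of_nonneg_left (geo (r := 3 / 4) (by norm_num) (by norm_num) K) hB0
  have e0 : (((0 : ℕ) : ℝ) + 1) / 2 = 1 / 2 := by norm_num
  rw [e0, II_half, Gamma_one_half_eq]
  have s1 : 17 / 10 ≤ √π := le_sqrt_of_sq_le (by linarith [pi_gt_three])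
  have s2 : √π ≤ 18 / 10 := sqrt_le_iff.2 ⟨by norm_num, by linarith [pi_lt_d2]⟩
  have q0 : 0 ≤ EE a R s Z / √π := by positivity
  have q1 : EE a R s Z / √π ≤ EE a R s Z / (17 / 10) :=
    div_le_div_of_nonneg_left hE (by norm_num) s1
  have q2 : EE a R s Z / (18 / 10) ≤ EE a R s Z / √π :=
    div_le_div_of_nonneg_left hE (by linarith) s2
  have q3 := mul_le_mul_of_nonneg_right hb.1 q0
  have q4 := mul_le_mul_of_nonneg_right hb.2.1 q0
  obtain ⟨l1, l2⟩ := abs_le.1 h1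
  norm_num at g1 g2
  constructor <;> linarith

end Pool.Agent.MP_47b17d_nt.H77
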