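import Pool.Agent.MP_47b17d_nt.H77.Spec

/-! The local inequality. -/

set_option autoImplicit false

namespace Pool.Agent.MP_47b17d_nt.H77

open Finset Filter Real

namespace LOC

/-- the normalised rising factorial -/
noncomputable def om (j : ℕ) : ℝ := asc (1 / 2) j / (j + 1).factorial

theorem om_zero : om 0 = 1 := by simp [om, asc]

theorem om_succ (j : ℕ) : om (j + 1) = om j * ((1 / 2 + j) / (j + 2)) := by
  have h : ((j + 1).factorial : ℝ) ≠ 0 := by positivity
  have h2 : ((j : ℝ) + 2) ≠ 0 := by positivity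
  simp only [om, asc, prod_range_succ, Nat.factorial_succ (j + 1)]
  push_cast
  field_simp
  ring

theorem om_pos (j : ℕ) : 0 < om j := by
  induction j with
  | zero => simp [om_zero]
  | succ j ih => rw [om_succ]; positivity

theorem om_le (j : ℕ) : om j ≤ 1 := by
  induction j with
  | zero => simp [om_zero]
  | succ j ih =>
    rw [om_succ]
    have h : (1 / 2 + (j : ℝ)) / (j + 2) ≤ 1 := by
      rw [div_le_one (by positivity)]; linarith
    exact mul_le_one₀ ih (by positivity) h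

theorem om_ge (j : ℕ) : om j ≤ 4 * om (j + 1) := by
  rw [om_succ]
  have h : 1 / 4 ≤ (1 / 2 + (j : ℝ)) / (j + 2) := by
    rw [le_div_iff₀ (by positivity)]
    have : (0 : ℝ) ≤ j := by positivity
    linarith
  have := om_pos j
  nlinarith

theorem step {t : ℕ → ℕ} {J : ℕ} (h : ∀ i, i < J → t i < t (i + 1)) (i d : ℕ) (hd : i + d ≤ J) :
    t i + d ≤ t (i + d) := by
  induction d with
  | zero => simp
  | succ d ih =>
    have h1 := ih (by omega)
    have h2 := h (i + d) (by omega)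
    rw [← add_assoc i d 1]
    omega

/-- the divided difference -/
noncomputable def dd (t : ℕ → ℕ) (j : ℕ) : ℝ :=
  ∑ i ∈ range (j + 2), log (pp (t i)) / ∏ k ∈ (range (j + 2)).erase i, ((t i : ℝ) - t k)

theorem comb (h1 : RowCOMB) (J D j : ℕ) (t : ℕ → ℕ) (S : Finset ℕ) (B : ℝ) (hD : 0 < D)
    (hj : j + 1 ≤ J) (hB : ∀ i, i ≤ J → (t i : ℝ) ≤ B)
    (hdv : ∀ i, i ≤ J → (∏ k ∈ (range (J + 1)).erase i, ((t i : ℤ) - t k)) ∣ (D : ℤ))
    (hS : ∀ i, i ≤ J → (pp (t i)).primeFactors ⊆ S) :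
    Comb S (((J : ℝ) + 1) * D * B) (D * |dd t j|) := by
  have hB0 : 0 ≤ B := le_trans (by positivity) (hB 0 (by omega))
  have hc : ∀ i, ∃ c : ℤ, i ∈ range (j + 2) →
      (D : ℤ) = (∏ k ∈ (range (j + 2)).erase i, ((t i : ℤ) - t k)) * c := by
    intro i
    by_cases hi : i ∈ range (j + 2)
    · have hi' : i ≤ J := by have := mem_range.mp hi; omega
      have hsub : (range (j + 2)).erase i ⊆ (range (J + 1)).erase i :=
        erase_subset_erase _ (range_subset_range.mpr (by omega))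
      obtain ⟨c, hc⟩ := (prod_dvd_prod_of_subset _ _ (fun k => ((t i : ℤ) - t k)) hsub).trans
        (hdv i hi')
      exact ⟨c, fun _ => hc⟩
    · exact ⟨0, fun h => absurd h hi⟩
  choose c hc using hc
  have hD' : (0 : ℤ) < D := by exact_mod_cast hD
  have hle : ∀ i ∈ range (j + 2), |(c i : ℝ)| ≤ D := by
    intro i hi
    have h := Int.le_of_dvd hD' ((abs_dvd _ _).mpr (Dvd.intro_left _ (hc i hi).symm))
    exact_mod_cast h
  have heq : (D : ℝ) * dd t j = ∑ i ∈ range (j + 2), (c i : ℝ) * log (pp (t i)) := by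
    rw [dd, mul_sum]
    refine sum_congr rfl fun i hi => ?_
    have h : (D : ℝ) = (∏ k ∈ (range (j + 2)).erase i, ((t i : ℝ) - t k)) * c i := by
      exact_mod_cast hc i hi
    have h0 : (∏ k ∈ (range (j + 2)).erase i, ((t i : ℝ) - t k)) ≠ 0 := by
      intro h0
      rw [h0, zero_mul] at h
      have : (0 : ℝ) < D := by exact_mod_cast hD
      linarith
    rw [h]
    field_simp
  have h2 := h1.sum ℕ S (range (j + 2)) c B (fun i => log (pp (t i))) fun i hi => by
    have hi' : i ≤ J := by have := mem_range.mp hi; omega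
    exact h1.mono S _ _ _ (h1.base S (t i) (hS i hi')) (hB i hi')
  have h3 := h1.abs _ _ _ h2
  rw [← heq, abs_mul, Nat.abs_cast] at h3
  refine h1.mono S _ _ _ h3 (mul_le_mul_of_nonneg_right ?_ hB0)
  have h4 := sum_le_card_nsmul _ _ _ hle
  rw [card_range, nsmul_eq_mul] at h4
  refine h4.trans (mul_le_mul_of_nonneg_right ?_ (by positivity))
  have : j + 2 ≤ J + 1 := by omega
  exact_mod_cast this

end LOC

open LOC in
theorem rowLOC (h1 : RowCOMB) (h2 : RowCH) (h3 : RowSZ) : RowLOC := by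
  obtain ⟨a₀, h3⟩ := h3
  refine ⟨max a₀ 3072, fun a W J D t S ha hW ht h0 hJ hD hdv hS => ?_⟩
  have ha0 : a₀ ≤ a := le_trans (le_max_left _ _) ha
  have ha1 : 3072 ≤ a := le_trans (le_max_right _ _) ha
  have haR : (3072 : ℝ) ≤ a := by exact_mod_cast ha1
  have hap : (0 : ℝ) < a := by linarith
  have hDR : (0 : ℝ) < D := by exact_mod_cast hD
  have hla : 0 ≤ log (a : ℝ) := Real.log_natCast_nonneg a
  have hlD : 0 ≤ log (D : ℝ) := Real.log_natCast_nonneg D
  rcases le_or_gt J 2 with hJ2 | hJ2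
  · have : (J : ℝ) ≤ 2 := by exact_mod_cast hJ2
    have h5 : ((J : ℝ) - 2) * log a ≤ 0 := mul_nonpos_of_nonpos_of_nonneg (by linarith) hla
    exact h5.trans (by positivity)
  obtain ⟨K, rfl⟩ : ∃ K, J = K + 2 := ⟨J - 2, by omega⟩
  have hWa : W ≤ a := le_trans (Nat.le_self_pow (by norm_num) W) hW
  have hti : ∀ i, i ≤ K + 2 → t i ≤ a + W := fun i hi => by
    have := step ht i (K + 2 - i) (by omega)
    rw [show i + (K + 2 - i) = K + 2 by omega] at this
    omega
  have hJW : K + 2 ≤ W := by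
    have := step ht 0 (K + 2) (by omega)
    rw [zero_add] at this
    omega
  have hsz : ∀ j, j ≤ K + 1 → om j * (a : ℝ) ^ (-(1 / 2 : ℝ) - j) / 8 ≤ |dd t j| ∧
      |dd t j| ≤ 6 * (om j * (a : ℝ) ^ (-(1 / 2 : ℝ) - j)) := fun j hj =>
    h3 a W j t ha0 hW (fun i hi => ht i (by omega)) h0 (hti _ (by omega))
  have hpw : ∀ j : ℕ, (a : ℝ) ^ (-(1 / 2 : ℝ) - j) = (a : ℝ) ^ (-(1 / 2 : ℝ)) / (a : ℝ) ^ j :=
    fun j => by rw [Real.rpow_sub hap, Real.rpow_natCast]
  obtain ⟨e, he⟩ : ∃ e, e = (a : ℝ) ^ (-(1 / 2 : ℝ)) := ⟨_, rfl⟩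
  have hep : 0 < e := by rw [he]; positivity
  simp only [hpw, ← he] at hsz
  have key := h2 S (K + 1) (D * a ^ 4) ((((K + 2 : ℕ) : ℝ) + 1) * D * (2 * a)) (192 * a)
    (fun k => D * |dd t k|) (by linarith) (by positivity) ?_ ?_ ?_
  · have k0 := (hsz 0 (by omega)).1
    have k1 := (hsz (K + 1) le_rfl).2
    rw [om_zero, pow_zero, div_one, one_mul] at k0
    obtain ⟨X, hX⟩ : ∃ X, X = ((D * a ^ 4 : ℕ) : ℝ) ^ S.card := ⟨_, rfl⟩
    have hXp : 0 < X := by rw [hX]; positivity
    rw [← hX] at key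
    have k2 : |dd t 0| ≤ X * |dd t (K + 1)| := by
      refine le_of_mul_le_mul_left ?_ hDR
      simpa only [mul_left_comm] using key
    have k3 : |dd t (K + 1)| ≤ 6 * (e / (a : ℝ) ^ (K + 1)) := by
      refine k1.trans (mul_le_mul_of_nonneg_left ?_ (by norm_num))
      exact mul_le_of_le_one_left (by positivity) (om_le _)
    have k4 : e / 8 ≤ X * (6 * (e / (a : ℝ) ^ (K + 1))) :=
      k0.trans (k2.trans (mul_le_mul_of_nonneg_left k3 hXp.le))
    have k5 : (a : ℝ) ^ K ≤ X := by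
      have hp : (0 : ℝ) < (a : ℝ) ^ K := by positivity
      have k6 : X * (6 * (e / (a : ℝ) ^ (K + 1))) = e / 8 * (48 * X / ((a : ℝ) ^ K * a)) := by
        rw [pow_succ]; field_simp; ring
      rw [k6] at k4
      have k7 : 1 ≤ 48 * X / ((a : ℝ) ^ K * a) :=
        le_of_mul_le_mul_left (by simpa using k4) (show 0 < e / 8 by positivity)
      rw [one_le_div (by positivity)] at k7
      nlinarith
    have k8 := Real.log_le_log (by positivity) k5
    rw [hX, Real.log_pow, Real.log_pow] at k8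
    push_cast at k8 ⊢
    rw [Real.log_mul hDR.ne' (by positivity), Real.log_pow] at k8
    push_cast at k8
    simpa using k8
  · have hK : (K : ℝ) + 2 ≤ a := by exact_mod_cast hJW.trans hWa
    push_cast
    have k1 : 4 * (((K : ℝ) + 2 + 1) * D * (2 * a)) * (192 * a) =
        (D * a ^ 2) * (1536 * ((K : ℝ) + 2 + 1)) := by ring
    have k2 : (D : ℝ) * a ^ 4 = (D * a ^ 2) * (a * a) := by ring
    rw [k1, k2]
    refine mul_le_mul_of_nonneg_left ?_ (by positivity)
    nlinarith
  · intro k hk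
    refine ⟨mul_pos hDR (lt_of_lt_of_le ?_ (hsz k hk).1), ?_⟩
    · have := om_pos k
      positivity
    · refine comb h1 (K + 2) D k t S (2 * a) hD (by omega) (fun i hi => ?_) hdv hS
      have : t i ≤ 2 * a := by have := hti i hi; omega
      exact_mod_cast this
  · intro k hk
    have k1 := (hsz k hk.le).2
    have k2 := (hsz (k + 1) hk).1
    have k3 := om_ge k
    have k4 : |dd t k| ≤ 192 * a * |dd t (k + 1)| := by
      refine k1.trans (le_trans ?_ (mul_le_mul_of_nonneg_left k2 (by positivity)))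
      have k5 : 192 * (a : ℝ) * (om (k + 1) * (e / (a : ℝ) ^ (k + 1)) / 8) =
          6 * (4 * om (k + 1) * (e / (a : ℝ) ^ k)) := by
        rw [pow_succ]; field_simp; ring
      rw [k5]
      exact mul_le_mul_of_nonneg_left (mul_le_mul_of_nonneg_right k3 (by positivity)) (by norm_num)
    calc (D : ℝ) * |dd t k| ≤ D * (192 * a * |dd t (k + 1)|) :=
          mul_le_mul_of_nonneg_left k4 hDR.le
      _ = _ := by ring

end Pool.Agent.MP_47b17d_nt.H77
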