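import Pool.Agent.MP_47b17d_nt.H77.Spec

/-! Lower bound for the Laplace transform. -/

set_option autoImplicit false

namespace Pool.Agent.MP_47b17d_nt.H77

open Finset Filter Real MeasureTheory

namespace LOW

theorem abs_a (a : ℕ → ℤ) (ha : ∀ i, |a i| ≤ 1) (i : ℕ) : |(a i : ℝ)| ≤ 1 := by
  exact_mod_cast ha i

theorem ph_le (a : ℕ → ℤ) (R : ℕ) (ha : ∀ i, |a i| ≤ 1) (u : ℝ) (hu : 0 ≤ u) :
    |ph a R u| ≤ (R : ℝ) + 1 := by
  unfold ph
  refine (abs_sum_le_sum_abs _ _).trans ?_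
  have : ∀ i ∈ range (R + 1), |(a i : ℝ) * exp (-(i * u))| ≤ 1 := fun i _ => by
    rw [abs_mul, abs_of_pos (exp_pos _)]
    have h1 : exp (-((i : ℝ) * u)) ≤ 1 := by
      rw [exp_le_one_iff]
      have : 0 ≤ (i : ℝ) * u := by positivity
      linarith
    exact mul_le_one₀ (abs_a a ha i) (exp_pos _).le h1
  simpa using sum_le_sum this

theorem exp_lip (x d : ℝ) (hx : 0 ≤ x) (hd : 0 ≤ d) : |exp (-(x + d)) - exp (-x)| ≤ d := by
  have h1 : exp (-x) ≤ 1 := by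
    rw [exp_le_one_iff]
    linarith
  have h2 : exp (-d) ≤ 1 := by
    rw [exp_le_one_iff]
    linarith
  have h3 : 1 - d ≤ exp (-d) := by linarith [add_one_le_exp (-d)]
  have h4 := exp_pos (-x)
  rw [neg_add, exp_add, abs_le]
  constructor <;> nlinarith

theorem ph_lip (a : ℕ → ℤ) (R : ℕ) (ha : ∀ i, |a i| ≤ 1) (u d : ℝ) (hu : 0 ≤ u) (hd : 0 ≤ d) :
    |ph a R (u + d) - ph a R u| ≤ (R : ℝ) ^ 2 * d := by
  unfold ph
  rw [← sum_sub_distrib, sum_range_succ']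
  simp only [Nat.cast_zero, zero_mul, sub_self, add_zero]
  refine (abs_sum_le_sum_abs _ _).trans ?_
  have : ∀ i ∈ range R, |(a (i + 1) : ℝ) * exp (-(((i + 1 : ℕ) : ℝ) * (u + d))) -
      (a (i + 1) : ℝ) * exp (-(((i + 1 : ℕ) : ℝ) * u))| ≤ R * d := fun i hi => by
    have hi' : ((i + 1 : ℕ) : ℝ) ≤ R := by exact_mod_cast mem_range.1 hi
    have h0 : (0 : ℝ) ≤ ((i + 1 : ℕ) : ℝ) := Nat.cast_nonneg _
    have h1 := exp_lip _ _ (mul_nonneg h0 hu) (mul_nonneg h0 hd)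
    rw [← mul_sub, abs_mul, mul_add]
    calc _ ≤ 1 * (((i + 1 : ℕ) : ℝ) * d) :=
          mul_le_mul (abs_a a ha _) h1 (abs_nonneg _) zero_le_one
      _ ≤ R * d := by rw [one_mul]; exact mul_le_mul_of_nonneg_right hi' hd
  refine (sum_le_sum this).trans (le_of_eq ?_)
  simp only [sum_const, card_range, nsmul_eq_mul]
  ring

theorem int_EE (a : ℕ → ℤ) (R : ℕ) (ha : ∀ i, |a i| ≤ 1) (s X : ℝ) (hs : 0 ≤ s) (hX : 0 < X) :
    IntegrableOn (fun y : ℝ => y ^ (-(1 / 2) : ℝ) * exp (-(X * y)) * ph a R (s * y) ^ 2)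
      (Set.Ioi 0) := by
  have h := integrableOn_rpow_mul_exp_neg_mul_rpow (s := -(1 / 2)) (p := 1) (b := X)
    (by norm_num) one_pos hX
  have h' : IntegrableOn (fun y : ℝ => y ^ (-(1 / 2) : ℝ) * exp (-(X * y))) (Set.Ioi 0) := by
    simpa [rpow_one, neg_mul] using h
  have hc : Continuous fun y : ℝ => ph a R (s * y) ^ 2 := by
    unfold ph
    fun_prop
  refine Integrable.mul_bdd (c := ((R : ℝ) + 1) ^ 2) h' hc.aestronglyMeasurable ?_
  refine (ae_restrict_iff' measurableSet_Ioi).mpr (Eventually.of_forall fun y hy => ?_)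
  rw [Real.norm_eq_abs, abs_of_nonneg (sq_nonneg _), ← sq_abs]
  have := ph_le a R ha _ (mul_nonneg hs (le_of_lt hy))
  gcongr

theorem sq_le (m : ℕ) : (m : ℝ) ^ 2 ≤ 8 ^ m := by
  have h1 : m ≤ 2 ^ m := Nat.lt_two_pow_self.le
  have h2 : m ^ 2 ≤ 8 ^ m :=
    calc m ^ 2 ≤ (2 ^ m) ^ 2 := Nat.pow_le_pow_left h1 2
      _ = (2 ^ 2) ^ m := by rw [← pow_mul, mul_comm, pow_mul]
      _ ≤ 8 ^ m := Nat.pow_le_pow_left (by norm_num) m
  exact_mod_cast h2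

theorem cube (m : ℕ) : exp (-(7 * (m : ℝ))) ≤ ((1 / 8 : ℝ) ^ m) ^ 3 := by
  have h1 : (512 : ℝ) ≤ exp 7 := by
    have h : (2.7 : ℝ) ≤ exp 1 := by linarith [exp_one_gt_d9]
    calc (512 : ℝ) ≤ 2.7 ^ 7 := by norm_num
      _ ≤ exp 1 ^ 7 := by gcongr
      _ = exp 7 := by rw [← exp_nat_mul]; norm_num
  have h2 : exp (-7) ≤ (1 / 8 : ℝ) ^ 3 := by
    rw [exp_neg]
    calc (exp 7)⁻¹ ≤ (512 : ℝ)⁻¹ := inv_anti₀ (by norm_num) h1
      _ = (1 / 8 : ℝ) ^ 3 := by norm_num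
  calc exp (-(7 * (m : ℝ))) = exp (-7) ^ m := by rw [← exp_nat_mul]; ring_nf
    _ ≤ ((1 / 8 : ℝ) ^ 3) ^ m := by gcongr
    _ = ((1 / 8 : ℝ) ^ m) ^ 3 := by rw [← pow_mul, mul_comm, pow_mul]

end LOW

open LOW in
theorem rowLOW (h : RowCHE) : RowLOW := by
  intro a R Y m s X h0 ha hR hY hYm hm hX hXs hms
  obtain ⟨k, hk, he⟩ := h a R Y m h0 ha hY hm
  obtain ⟨e, he'⟩ : ∃ e : ℝ, e = (1 / 8 : ℝ) ^ m := ⟨_, rfl⟩
  have e3 := cube m
  have e8 : e * 8 ^ m = 1 := by rw [he', ← mul_pow]; norm_num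
  rw [← he'] at he e3
  have e0 : 0 < e := by rw [he']; positivity
  have R1 : (1 : ℝ) ≤ R := by exact_mod_cast hR
  have Y1 : (1 : ℝ) ≤ Y := by exact_mod_cast hY
  have Ym : (Y : ℝ) ≤ m := by exact_mod_cast hYm
  have km : (k : ℝ) ≤ m := by exact_mod_cast hk
  have k0 : (0 : ℝ) ≤ k := Nat.cast_nonneg _
  have Y2 : (0 : ℝ) < (Y : ℝ) ^ 2 := by positivity
  have R2 : (1 : ℝ) ≤ (R : ℝ) ^ 2 := one_le_pow₀ R1
  have s0 : 0 < s := by
    by_contra hs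
    have := mul_nonpos_of_nonpos_of_nonneg (not_lt.1 hs) Y2.le
    linarith
  obtain ⟨d, hd⟩ : ∃ d : ℝ, d = e / (2 * (R : ℝ) ^ 2) := ⟨_, rfl⟩
  have d0 : 0 < d := by rw [hd]; positivity
  have dR : (R : ℝ) ^ 2 * d = e / 2 := by rw [hd]; field_simp
  have dY : d * (Y : ℝ) ^ 2 ≤ 1 := by
    have h1 : (Y : ℝ) ^ 2 ≤ 8 ^ m := (by gcongr : (Y : ℝ) ^ 2 ≤ (m : ℝ) ^ 2).trans (sq_le m)
    have h2 : d ≤ e := by nlinarith
    calc d * (Y : ℝ) ^ 2 ≤ e * 8 ^ m := mul_le_mul h2 h1 Y2.le e0.le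
      _ = 1 := e8
  obtain ⟨u, hu⟩ : ∃ u : ℝ, u = k / (Y : ℝ) ^ 2 := ⟨_, rfl⟩
  rw [← hu] at he
  have u0 : 0 ≤ u := by rw [hu]; positivity
  have uY : u * (Y : ℝ) ^ 2 = k := by rw [hu]; field_simp
  have sub : Set.Ioc (u / s) ((u + d) / s) ⊆ Set.Ioi (0 : ℝ) := fun y hy =>
    lt_of_le_of_lt (div_nonneg u0 s0.le) hy.1
  have pt : ∀ y ∈ Set.Ioc (u / s) ((u + d) / s), exp (-(2 * (m : ℝ) + 2)) * (e / 2) ^ 2 ≤
      y ^ (-(1 / 2) : ℝ) * exp (-(X * y)) * ph a R (s * y) ^ 2 := fun y hy => by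
    have y0 : 0 < y := sub hy
    have l1 : u < s * y := by have := (div_lt_iff₀ s0).1 hy.1; linarith
    have l2 : s * y ≤ u + d := by have := (le_div_iff₀ s0).1 hy.2; linarith
    have l3 : s * (Y : ℝ) ^ 2 * y ≤ m + 1 := by nlinarith
    have y1 : y ≤ 1 := by
      by_contra hy1
      have : s * (Y : ℝ) ^ 2 * 1 < s * (Y : ℝ) ^ 2 * y :=
        mul_lt_mul_of_pos_left (not_le.1 hy1) (mul_pos s0 Y2)
      linarith
    have q1 : 1 ≤ y ^ (-(1 / 2) : ℝ) :=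
      one_le_rpow_of_pos_of_le_one_of_nonpos y0 y1 (by norm_num)
    have q2 : exp (-(2 * (m : ℝ) + 2)) ≤ exp (-(X * y)) := by
      rw [exp_le_exp]
      have := mul_le_mul_of_nonneg_right hXs y0.le
      linarith
    have q3 : e / 2 ≤ |ph a R (s * y)| := by
      have t1 := ph_lip a R ha u (s * y - u) u0 (by linarith)
      rw [add_sub_cancel] at t1
      have t2 : (R : ℝ) ^ 2 * (s * y - u) ≤ (R : ℝ) ^ 2 * d :=
        mul_le_mul_of_nonneg_left (by linarith) (by positivity)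
      have t3 := abs_sub_abs_le_abs_sub (ph a R u) (ph a R (s * y))
      rw [abs_sub_comm] at t3
      linarith
    have q4 : (e / 2) ^ 2 ≤ ph a R (s * y) ^ 2 := by
      rw [← sq_abs (ph a R (s * y))]
      gcongr
    calc _ = 1 * exp (-(2 * (m : ℝ) + 2)) * (e / 2) ^ 2 := by ring
      _ ≤ _ := by gcongr
  have I := int_EE a R ha s X s0.le hX
  have le : u / s ≤ (u + d) / s := by gcongr; linarith
  calc exp (-(9 * (m : ℝ) + 2)) / (8 * s * (R : ℝ) ^ 2)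
      = exp (-(2 * (m : ℝ) + 2)) * exp (-(7 * (m : ℝ))) / (8 * s * (R : ℝ) ^ 2) := by
        rw [← exp_add]; ring_nf
    _ ≤ exp (-(2 * (m : ℝ) + 2)) * e ^ 3 / (8 * s * (R : ℝ) ^ 2) := by gcongr
    _ = ∫ _ in Set.Ioc (u / s) ((u + d) / s), exp (-(2 * (m : ℝ) + 2)) * (e / 2) ^ 2 := by
        rw [setIntegral_const, Real.volume_real_Ioc_of_le le, smul_eq_mul, hd]
        field_simp
        ring
    _ ≤ ∫ y in Set.Ioc (u / s) ((u + d) / s),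
          y ^ (-(1 / 2) : ℝ) * exp (-(X * y)) * ph a R (s * y) ^ 2 :=
        setIntegral_mono_on (integrableOn_const measure_Ioc_lt_top.ne) (I.mono_set sub)
          measurableSet_Ioc pt
    _ ≤ EE a R s X := by
        refine setIntegral_mono_set I ?_ sub.eventuallyLE
        refine (ae_restrict_iff' measurableSet_Ioi).mpr (Eventually.of_forall fun y hy => ?_)
        have : 0 < y := hy
        positivity

end Pool.Agent.MP_47b17d_nt.H77
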