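import Pool.Agent.MP_47b17d_nt.H77.Spec

/-! The members of the chain. -/

set_option autoImplicit false

namespace Pool.Agent.MP_47b17d_nt.H77

open Finset Filter Real

namespace MEM

theorem err {c d : ℝ} {m : ℕ} (hd : 0 < d) (h1 : 2 * d ≤ c) (h2 : 2 * d ≤ 1)
    (h3 : 200 ≤ √(m : ℝ)) (h4 : 3 / d ≤ √(m : ℝ)) :
    2 * (exp (-(c * √m)) + (1 / 2) ^ m) + 4 * exp (-(((m : ℝ) - 1) / 200)) ≤
      exp (-(d * √m)) := by
  obtain ⟨t, ht⟩ : ∃ t, t = √(m : ℝ) := ⟨_, rfl⟩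
  have hm : (m : ℝ) = t ^ 2 := by rw [ht, sq_sqrt (Nat.cast_nonneg m)]
  rw [← ht] at h3 h4 ⊢
  rw [div_le_iff₀ hd] at h4
  have key : ∀ x y : ℝ, 0 < y → y ≤ x + 1 → y * exp (-(d * t + x)) ≤ exp (-(d * t)) := by
    intro x y _ hxy
    have e1 := add_one_le_exp x
    have e2 : exp (-(d * t)) = exp x * exp (-(d * t + x)) := by
      rw [← exp_add]; congr 1; ring
    rw [e2]
    exact mul_le_mul_of_nonneg_right (by linarith) (exp_pos _).le
  have a1 : exp (-(c * t)) ≤ exp (-(d * t + 3)) := exp_le_exp.2 (by nlinarith)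
  have a2 : exp (-(((m : ℝ) - 1) / 200)) ≤ exp (-(d * t + 11)) :=
    exp_le_exp.2 (by rw [hm]; nlinarith)
  have a3 : (1 / 2 : ℝ) ^ m ≤ exp (-(((m : ℝ) - 1) / 200)) := by
    have b1 : (1 / 2 : ℝ) ≤ exp (-(1 / 200)) := by
      have := add_one_le_exp (-(1 / 200) : ℝ)
      linarith
    refine (pow_le_pow_left₀ (by norm_num) b1 m).trans ?_
    rw [← exp_nat_mul]
    exact exp_le_exp.2 (by linarith)
  have a4 := key 3 4 (by norm_num) (by norm_num)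
  have a5 := key 11 12 (by norm_num) (by norm_num)
  linarith

theorem dsum {a : ℕ → ℤ} (ha : ∀ i, |a i| ≤ 1) (R : ℕ) {u : ℕ → ℕ → ℝ} {e : ℝ}
    (h : ∀ i j, |u i j| ≤ e) :
    |∑ i ∈ range (R + 1), ∑ j ∈ range (R + 1), (a i : ℝ) * a j * u i j| ≤
      ((R : ℝ) + 1) ^ 2 * e := by
  have h1 : ∀ i, |(a i : ℝ)| ≤ 1 := fun i => by exact_mod_cast ha i
  have h2 : ∀ i j, |(a i : ℝ) * a j * u i j| ≤ e := fun i j => by
    rw [abs_mul, abs_mul]
    calc _ ≤ 1 * 1 * e := mul_le_mul (mul_le_mul (h1 i) (h1 j) (abs_nonneg _) zero_le_one) (h i j)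
          (abs_nonneg _) (by norm_num)
      _ = e := by ring
  refine (abs_sum_le_sum_abs _ _).trans ((sum_le_sum fun i _ =>
    (abs_sum_le_sum_abs _ _).trans (sum_le_sum fun j _ => h2 i j)).trans (le_of_eq ?_))
  simp only [sum_const, card_range, nsmul_eq_mul]
  push_cast
  ring

end MEM

open MEM in
theorem rowMEM (h1 : RowAPX) (h2 : RowLAP) (h3 : RowMON) : RowMEM := by
  obtain ⟨c, n₀, b, hc, hb, hF⟩ := h1
  obtain ⟨d, hd⟩ : ∃ d : ℝ, d = min c 1 / 2 := ⟨_, rfl⟩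
  have d0 : 0 < d := by rw [hd]; positivity
  have d1 : 2 * d ≤ c := by rw [hd]; linarith [min_le_left c 1]
  have d2 : 2 * d ≤ 1 := by rw [hd]; linarith [min_le_right c 1]
  refine ⟨d, max n₀ ⌈(max 200 (3 / d)) ^ 2⌉₊, d0, fun a R s m ha hm => ?_⟩
  obtain ⟨m1, m2⟩ := max_le_iff.1 hm
  have m3 : max 200 (3 / d) ≤ √(m : ℝ) := le_sqrt_of_sq_le (Nat.ceil_le.1 m2)
  obtain ⟨m4, m5⟩ := max_le_iff.1 m3
  have m6 : (5 : ℝ) ≤ m := by nlinarith [sq_sqrt (Nat.cast_nonneg m : (0 : ℝ) ≤ m)]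
  obtain ⟨F, hF1, hF2⟩ := hF m
  have s0 : (0 : ℝ) ≤ s := Nat.cast_nonneg s
  have hH : ∀ x : ℝ, 1 ≤ x → HasDerivAt (fun x => ∑ i ∈ range (R + 1), ∑ j ∈ range (R + 1),
      (a i : ℝ) * a j * F (x + ((i : ℝ) + j) * s)) (∑ i ∈ range (R + 1), ∑ j ∈ range (R + 1),
      (a i : ℝ) * a j * gg b (m + 1 + 1) (x - 1 / 24 + ((i : ℝ) + j) * s)) x := by
    intro x hx
    refine HasDerivAt.fun_sum fun i _ => HasDerivAt.fun_sum fun j _ => HasDerivAt.const_mul _ ?_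
    have e0 : (0 : ℝ) ≤ ((i : ℝ) + j) * s := by positivity
    have e1 := (hF1 (x + ((i : ℝ) + j) * s) (by linarith)).comp_add_const x (((i : ℝ) + j) * s)
    rwa [show x + ((i : ℝ) + j) * s - 1 / 24 = x - 1 / 24 + ((i : ℝ) + j) * s by ring] at e1
  obtain ⟨ξ, ⟨x1, x2⟩, hξ⟩ := exists_hasDerivAt_eq_slope _ _ (show (m : ℝ) < m + 1 by linarith)
    (fun x hx => (hH x (by linarith [hx.1])).continuousAt.continuousWithinAt)
    fun x hx => hH x (by linarith [hx.1])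
  rw [add_sub_cancel_left, div_one] at hξ
  obtain ⟨l1, l2⟩ := h2 a R (m + 1) b s (ξ - 1 / 24) ha hb s0 (by linarith)
  rw [hξ] at l1 l2
  have k1 := (h3 a R s ha s0).1 (ξ - 1 / 24) (m + 1) (by linarith) (by linarith)
  have k2 := (h3 a R s ha s0).1 (m - 1) (ξ - 1 / 24) (by linarith) (by linarith)
  have hL : ∀ n : ℕ, m ≤ n → |log (pp n) - F n| ≤ exp (-(c * √m)) + (1 / 2) ^ m := by
    intro n hn
    refine (hF2 n (m1.trans hn)).trans (add_le_add_left (exp_le_exp.2 (neg_le_neg ?_)) _)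
    exact mul_le_mul_of_nonneg_left (sqrt_le_sqrt (Nat.cast_le.2 hn)) hc.le
  have k3 := dsum ha R (e := 2 * (exp (-(c * √m)) + (1 / 2) ^ m))
    (u := fun i j => (log (pp (m + (i + j) * s + 1)) - log (pp (m + (i + j) * s))) -
      (F ((m : ℝ) + 1 + ((i : ℝ) + j) * s) - F ((m : ℝ) + ((i : ℝ) + j) * s))) fun i j => by
    have e1 := abs_le.1 (hL (m + (i + j) * s + 1) (by omega))
    have e2 := abs_le.1 (hL (m + (i + j) * s) (by omega))
    push_cast at e1 e2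
    rw [show (m : ℝ) + ((i : ℝ) + j) * s + 1 = (m : ℝ) + 1 + ((i : ℝ) + j) * s by ring] at e1
    exact abs_le.2 ⟨by linarith [e1.1, e2.2], by linarith [e1.2, e2.1]⟩
  simp only [mul_sub _ (log _ - log _), mul_sub _ (F _), sum_sub_distrib] at k3
  have k4 := err d0 d1 d2 m4 m5
  have k5 : exp (-((ξ - 1 / 24) / 200)) ≤ exp (-(((m : ℝ) - 1) / 200)) :=
    exp_le_exp.2 (by linarith)
  have r0 : (0 : ℝ) ≤ ((R : ℝ) + 1) ^ 2 := by positivity
  have k6 := mul_le_mul_of_nonneg_left k4 r0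
  have k7 := mul_le_mul_of_nonneg_left k5 r0
  obtain ⟨k8, k9⟩ := abs_le.1 k3
  constructor <;> linarith

end Pool.Agent.MP_47b17d_nt.H77
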