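import Pool.Agent.MP_47b17d_nt.H77.Spec2

/-! No short relation in a short window. -/

set_option autoImplicit false

namespace Pool.Agent.MP_47b17d_nt.H77

open Finset Filter Real

namespace NEW

theorem prod_base (i : ℕ) : ∏ k ∈ range i, ((i : ℝ) - k) = i.factorial := by
  induction i with
  | zero => simp
  | succ i ih =>
    rw [prod_range_succ', Nat.factorial_succ]
    push_cast
    rw [← ih, sub_zero, mul_comm]
    congr 1
    exact prod_congr rfl fun k _ => by ring

theorem prod_erase (i j : ℕ) (h : i ≤ j) : ∏ k ∈ (range (j + 1)).erase i, ((i : ℝ) - k) =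
    (-1) ^ (j - i) * (i.factorial * (j - i).factorial) := by
  induction j, h using Nat.le_induction with
  | base =>
    rw [range_add_one, erase_insert (by simp), prod_base]
    simp
  | succ j h ih =>
    rw [range_add_one, erase_insert_of_ne (by omega), prod_insert (by simp), ih,
      show j + 1 - i = (j - i) + 1 by omega, Nat.factorial_succ, pow_succ]
    push_cast [Nat.cast_sub h]
    ring

/-- forward differences and divided differences -/
theorem diff_eq (L : ℕ → ℝ) (j : ℕ) : (fwdDiff 1)^[j] L 0 =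
    j.factorial * ∑ i ∈ range (j + 1), L i / ∏ k ∈ (range (j + 1)).erase i, ((i : ℝ) - k) := by
  rw [fwdDiff_iter_eq_sum_shift, mul_sum]
  refine sum_congr rfl fun i hi => ?_
  have hi' : i ≤ j := Nat.lt_succ_iff.1 (mem_range.1 hi)
  rw [prod_erase i j hi', ← Nat.choose_mul_factorial_mul_factorial hi']
  have h1 : (i.factorial : ℝ) ≠ 0 := by positivity
  have h2 : ((j - i).factorial : ℝ) ≠ 0 := by positivity
  rcases Nat.even_or_odd (j - i) with h | h
  · simp only [h.neg_one_pow, zsmul_eq_mul, smul_eq_mul, mul_one, zero_add]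
    push_cast
    field_simp
  · simp only [h.neg_one_pow, zsmul_eq_mul, smul_eq_mul, mul_one, zero_add]
    push_cast
    field_simp

theorem newton (L : ℕ → ℝ) (u W : ℕ) (h : u ≤ W) :
    L u = ∑ j ∈ range (W + 1), (u.choose j : ℝ) * (fwdDiff 1)^[j] L 0 := by
  have := shift_eq_sum_fwdDiff_iter 1 L u 0
  simp only [smul_eq_mul, mul_one, zero_add, nsmul_eq_mul] at this
  rw [this]
  refine sum_subset (range_subset_range.2 (by omega)) fun j _ hj => ?_
  rw [Nat.choose_eq_zero_of_lt (by simpa using hj)]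
  simp

theorem hockey (W j : ℕ) : ∑ u ∈ range W, u.choose j = W.choose (j + 1) := by
  induction W with
  | zero => simp
  | succ W ih => rw [sum_range_succ, ih, Nat.choose_succ_succ, add_comm]

theorem choose_le (N m k : ℕ) : N.choose (m + k) ≤ N.choose m * N ^ k := by
  induction k with
  | zero => simp
  | succ k ih =>
    have h := Nat.choose_succ_right_eq N (m + k)
    calc N.choose (m + (k + 1)) ≤ N.choose (m + k + 1) * (m + k + 1) :=
          Nat.le_mul_of_pos_right _ (by omega)
      _ ≤ N.choose m * N ^ k * N := by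
          rw [h]; exact Nat.mul_le_mul ih (Nat.sub_le _ _)
      _ = _ := by rw [pow_succ, mul_assoc]

theorem choose_step (u j : ℕ) : ((u : ℤ) - j) * u.choose j = (j + 1) * u.choose (j + 1) := by
  rcases le_or_gt j u with h | h
  · have := congrArg (Nat.cast : ℕ → ℤ) (Nat.choose_succ_right_eq u j)
    push_cast [Nat.cast_sub h] at this
    linarith
  · rw [Nat.choose_eq_zero_of_lt h, Nat.choose_eq_zero_of_lt (by omega)]
    simp

theorem kill (a K : ℕ) (U : Finset ℕ) (c : ℕ → ℤ) (hU : ∀ n ∈ U, a ≤ n)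
    (hb : ∀ j, j < K → ∑ n ∈ U, c n * ((n - a).choose j : ℕ) = 0) (s : Finset ℕ) :
    ∀ j, s.card + j < K →
      ∑ n ∈ U, c n * (∏ m ∈ s, ((n : ℤ) - m)) * ((n - a).choose j : ℕ) = 0 := by
  induction s using Finset.induction_on with
  | empty => intro j hj; simpa using hb j (by simpa using hj)
  | insert m s hm ih =>
    intro j hj
    rw [card_insert_of_notMem hm] at hj
    have e : ∑ n ∈ U, c n * (∏ m' ∈ insert m s, ((n : ℤ) - m')) * ((n - a).choose j : ℕ) =
        (j + 1) * ∑ n ∈ U, c n * (∏ m' ∈ s, ((n : ℤ) - m')) * ((n - a).choose (j + 1) : ℕ) +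
        ((j : ℤ) + a - m) * ∑ n ∈ U, c n * (∏ m' ∈ s, ((n : ℤ) - m')) * ((n - a).choose j : ℕ) := by
      rw [mul_sum, mul_sum, ← sum_add_distrib]
      refine sum_congr rfl fun n hn => ?_
      have := choose_step (n - a) j
      rw [Nat.cast_sub (hU n hn)] at this
      rw [prod_insert hm]
      linear_combination (c n * ∏ m' ∈ s, ((n : ℤ) - m')) * this
    rw [e, ih (j + 1) (by omega), ih j (by omega)]
    simp

theorem all_zero (a : ℕ) (U : Finset ℕ) (c : ℕ → ℤ) (hU : ∀ n ∈ U, a ≤ n)
    (hb : ∀ j, j < U.card → ∑ n ∈ U, c n * ((n - a).choose j : ℕ) = 0) : ∀ n ∈ U, c n = 0 := by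
  intro n hn
  have h := kill a U.card U c hU hb (U.erase n) 0 (by
    rw [card_erase_of_mem hn]
    have := card_pos.2 ⟨n, hn⟩
    omega)
  rw [sum_eq_single_of_mem n hn fun n' hn' hne => by
    rw [prod_eq_zero (mem_erase.2 ⟨hne, hn'⟩) (sub_self _)]; simp] at h
  simp only [Nat.choose_zero_right, Nat.cast_one, mul_one] at h
  refine (mul_eq_zero.1 h).resolve_right (prod_ne_zero_iff.2 fun m hm => ?_)
  have := (mem_erase.1 hm).1
  omega

/-- the size of the differences -/
noncomputable def om (a j : ℕ) : ℝ := asc (1 / 2) j * (a : ℝ) ^ (-(1 / 2 : ℝ) - j)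

theorem om_pos {a : ℕ} (ha : 0 < a) (j : ℕ) : 0 < om a j :=
  mul_pos (prod_pos fun i _ => by positivity) (rpow_pos_of_pos (by exact_mod_cast ha) _)

theorem om_succ {a : ℕ} (ha : 0 < a) (j : ℕ) : om a (j + 1) = om a j * ((1 / 2 + j) / a) := by
  have ha' : (0 : ℝ) < a := by exact_mod_cast ha
  unfold om asc
  rw [prod_range_succ, show -(1 / 2 : ℝ) - ((j + 1 : ℕ) : ℝ) = (-(1 / 2) - j) - 1 by
    push_cast; ring, rpow_sub_one ha'.ne']
  ring

theorem om_le {a W : ℕ} (ha : 0 < a) (j k : ℕ) (h : j + k ≤ W) :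
    om a (j + k) ≤ om a j * ((W : ℝ) / a) ^ k := by
  have ha' : (0 : ℝ) < a := by exact_mod_cast ha
  induction k with
  | zero => simp
  | succ k ih =>
    rw [← add_assoc, om_succ ha, pow_succ, ← mul_assoc]
    have h1 : ((j + k + 1 : ℕ) : ℝ) ≤ W := by exact_mod_cast h
    refine mul_le_mul (ih (by omega)) (div_le_div_of_nonneg_right ?_ ha'.le) (by positivity)
      (mul_pos (om_pos ha j) ?_).le
    · push_cast at h1 ⊢; linarith
    · have : (0 : ℝ) < W := lt_of_lt_of_le (by positivity) h1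
      positivity

end NEW

open NEW in
theorem rowNEW (h : RowSZ) : RowNEW := by
  classical
  obtain ⟨a₀, h⟩ := h
  refine ⟨max a₀ (97 ^ 16), fun a W U c ha hW hU hch hc hs0 hs => ?_⟩
  have ha1 : 97 ^ 16 ≤ a := le_of_max_le_right ha
  have hapos : 0 < a := lt_of_lt_of_le (by norm_num) ha1
  have ha' : (0 : ℝ) < a := by exact_mod_cast hapos
  have hUa : ∀ n ∈ U, a ≤ n := fun n hn => (mem_Icc.1 (hU hn)).1
  set L : ℕ → ℝ := fun u => log (pp (a + u)) with hL
  set d : ℕ → ℝ := fun j => (fwdDiff 1)^[j] L 0 with hd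
  set b : ℕ → ℤ := fun j => ∑ n ∈ U, c n * ((n - a).choose j : ℕ) with hb
  have hW4 : W ^ 4 ≤ a := by
    rcases Nat.eq_zero_or_pos W with rfl | hW0
    · simp
    · exact (Nat.pow_le_pow_right hW0 (by norm_num)).trans hW
  have hsz : ∀ j, j + 1 ≤ W → om a j / 8 ≤ |d (j + 1)| ∧ |d (j + 1)| ≤ 6 * om a j := by
    intro j hj
    have h1 := h a W j (fun i => a + i) (le_of_max_le_left ha) hW4 (fun i _ => by omega)
      (by omega) (by omega)
    simp only [Nat.cast_add, add_sub_add_left_eq_sub] at h1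
    have hf : (0 : ℝ) < (j + 1).factorial := by positivity
    simp only [hd, hL, diff_eq, abs_mul, abs_of_pos hf, om]
    constructor
    · refine le_trans (le_of_eq ?_) (mul_le_mul_of_nonneg_left h1.1 hf.le)
      field_simp
    · refine le_trans (mul_le_mul_of_nonneg_left h1.2 hf.le) (le_of_eq ?_)
      field_simp
  have hsum : ∑ j ∈ range (W + 1), (b j : ℝ) * d j = 0 := by
    rw [← hs]
    simp only [hb, Int.cast_sum, sum_mul]
    rw [sum_comm]
    refine sum_congr rfl fun n hn => ?_
    have h1 := mem_Icc.1 (hU hn)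
    have h2 := newton L (n - a) W (by omega)
    simp only [hL, Nat.add_sub_cancel' h1.1] at h2
    rw [h2, mul_sum]
    refine sum_congr rfl fun j _ => ?_
    push_cast
    simp only [hd, hL]
    ring
  obtain ⟨r, hr0, hr⟩ : ∃ r : ℝ, 0 < r ∧ r ^ 16 = a :=
    ⟨(a : ℝ) ^ ((16 : ℕ) : ℝ)⁻¹, by positivity, rpow_inv_natCast_pow ha'.le (by norm_num)⟩
  have hr97 : 97 ≤ r := le_of_pow_le_pow_left₀ (n := 16) (by norm_num) hr0.le
    (by rw [hr]; exact_mod_cast ha1)
  have hWr : (W : ℝ) ≤ r := le_of_pow_le_pow_left₀ (n := 16) (by norm_num) hr0.le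
    (by rw [hr]; exact_mod_cast hW)
  have hcr : ∀ n ∈ U, |(c n : ℝ)| ≤ r ^ 4 := fun n hn =>
    le_of_pow_le_pow_left₀ (n := 4) (by norm_num) (by positivity) (by
      rw [← pow_mul, hr, Even.pow_abs (by decide)]
      exact_mod_cast hc n hn)
  have hbj : ∀ j, |(b j : ℝ)| ≤ r ^ 4 * (W + 1).choose (j + 1) := by
    intro j
    simp only [hb, Int.cast_sum]
    refine (abs_sum_le_sum_abs _ _).trans ?_
    rw [← hockey, Nat.cast_sum, mul_sum]
    calc _ ≤ ∑ n ∈ U, r ^ 4 * (((n - a).choose j : ℕ) : ℝ) := sum_le_sum fun n hn => by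
          push_cast
          rw [abs_mul, Nat.abs_cast]
          exact mul_le_mul_of_nonneg_right (hcr n hn) (by positivity)
      _ = ∑ u ∈ U.image (fun n => n - a), r ^ 4 * ((u.choose j : ℕ) : ℝ) := by
          rw [sum_image fun x hx y hy e => by
            have := hUa x hx
            have := hUa y hy
            omega]
      _ ≤ _ := sum_le_sum_of_subset_of_nonneg (fun u hu => by
          obtain ⟨n, hn, rfl⟩ := mem_image.1 hu
          have := mem_Icc.1 (hU hn)
          exact mem_range.2 (by omega)) fun _ _ _ => by positivity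
  refine all_zero a U c hUa ?_
  by_contra hne
  push Not at hne
  have hcardU : U.card ≤ W + 1 := by
    have := card_le_card hU
    rw [Nat.card_Icc] at this
    omega
  have hex : ∃ j, j < U.card ∧ b j ≠ 0 := hne
  obtain ⟨hj1, hj2⟩ := Nat.find_spec hex
  have hmin : ∀ j, j < Nat.find hex → b j = 0 := fun j hj => by
    by_contra e
    exact Nat.find_min hex hj ⟨by omega, e⟩
  generalize Nat.find hex = j₀ at hj1 hj2 hmin
  obtain ⟨j, rfl⟩ : ∃ j, j₀ = j + 1 := by
    rcases j₀ with _ | j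
    · exact absurd (by simpa [hb] using hs0) hj2
    · exact ⟨j, rfl⟩
  have hom := om_pos hapos j
  have hW1 : (1 : ℝ) ≤ W := by exact_mod_cast (show 1 ≤ W by omega)
  have hch' : (((W + 1).choose (j + 2) : ℕ) : ℝ) ≤ r ^ 8 :=
    le_of_pow_le_pow_left₀ (n := 2) (by norm_num) (by positivity) (by
      rw [← pow_mul, hr]; exact_mod_cast hch (j + 2) (by omega))
  have hx : ((W : ℝ) + 1) * (W / a) ≤ 2 * r ^ 2 / r ^ 16 := by
    rw [hr, ← mul_div_assoc]
    exact div_le_div_of_nonneg_right (by nlinarith) ha'.le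
  have hx1 : 2 * r ^ 2 / r ^ 16 ≤ 1 := by
    rw [div_le_one (by positivity)]
    have : r ^ 16 = r ^ 2 * (r * r ^ 13) := by ring
    have h13 : 1 ≤ r ^ 13 := one_le_pow₀ (by linarith)
    rw [this, mul_comm 2]
    exact mul_le_mul_of_nonneg_left (by nlinarith) (by positivity)
  have hterm : ∀ i ∈ (range (W + 1)).erase (j + 1),
      |(b i : ℝ) * d i| ≤ 12 * om a j / r ^ 2 := by
    intro i hi
    obtain ⟨hi1, hi2⟩ := mem_erase.1 hi
    have hi2 := mem_range.1 hi2
    rcases lt_or_gt_of_ne hi1 with hlt | hgt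
    · rw [hmin i hlt]
      simp only [Int.cast_zero, zero_mul, abs_zero]
      positivity
    · obtain ⟨k, rfl⟩ : ∃ k, i = j + (k + 1) + 1 := ⟨i - j - 2, by omega⟩
      have h1 := (hsz (j + (k + 1)) (by omega)).2
      have h2 := om_le (W := W) hapos j (k + 1) (by omega)
      have h3 := hbj (j + (k + 1) + 1)
      have h4 : (((W + 1).choose (j + (k + 1) + 1 + 1) : ℕ) : ℝ) ≤
          r ^ 8 * ((W : ℝ) + 1) ^ (k + 1) := by
        have := choose_le (W + 1) (j + 2) (k + 1)
        rw [show j + 2 + (k + 1) = j + (k + 1) + 1 + 1 by ring] at this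
        calc _ ≤ (((W + 1).choose (j + 2) * (W + 1) ^ (k + 1) : ℕ) : ℝ) := by exact_mod_cast this
          _ ≤ _ := by
            push_cast
            exact mul_le_mul_of_nonneg_right hch' (by positivity)
      have h5 : (((W : ℝ) + 1) * (W / a)) ^ (k + 1) ≤ 2 * r ^ 2 / r ^ 16 := by
        rw [pow_succ]
        refine (mul_le_of_le_one_left (by positivity)
          (pow_le_one₀ (by positivity) (hx.trans hx1))).trans hx
      rw [abs_mul]
      calc _ ≤ (r ^ 4 * (r ^ 8 * ((W : ℝ) + 1) ^ (k + 1))) *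
            (6 * (om a j * ((W : ℝ) / a) ^ (k + 1))) :=
            mul_le_mul (h3.trans (mul_le_mul_of_nonneg_left h4 (by positivity)))
              (h1.trans (by linarith)) (abs_nonneg _) (by positivity)
        _ = 6 * om a j * r ^ 12 * (((W : ℝ) + 1) * (W / a)) ^ (k + 1) := by
            rw [mul_pow]; ring
        _ ≤ 6 * om a j * r ^ 12 * (2 * r ^ 2 / r ^ 16) :=
            mul_le_mul_of_nonneg_left h5 (by positivity)
        _ = _ := by field_simp; ring
  have hmem : j + 1 ∈ range (W + 1) := mem_range.2 (by omega)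
  rw [← add_sum_erase _ _ hmem] at hsum
  have h6 : |(b (j + 1) : ℝ) * d (j + 1)| ≤ W * (12 * om a j / r ^ 2) := by
    rw [eq_neg_of_add_eq_zero_left hsum, abs_neg]
    refine (abs_sum_le_sum_abs _ _).trans ((sum_le_card_nsmul _ _ _ hterm).trans ?_)
    rw [card_erase_of_mem hmem, card_range, nsmul_eq_mul]
    simp
  have h7 : om a j / 8 ≤ |(b (j + 1) : ℝ) * d (j + 1)| := by
    rw [abs_mul]
    refine (hsz j (by omega)).1.trans (le_mul_of_one_le_left (abs_nonneg _) ?_)
    exact_mod_cast Int.one_le_abs hj2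
  have h8 : om a j / 8 ≤ r * (12 * om a j / r ^ 2) :=
    (h7.trans h6).trans (mul_le_mul_of_nonneg_right hWr (by positivity))
  have h9 : r * (12 * om a j / r ^ 2) = 12 * om a j / r := by field_simp
  rw [h9, div_le_div_iff₀ (by norm_num) hr0] at h8
  nlinarith

end Pool.Agent.MP_47b17d_nt.H77
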