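import Pool.Agent.MP_47b17d_nt.H77.Spec

/-! A polynomial with coefficients `0, 1, -1` and a zero of high order at one. -/

set_option autoImplicit false

namespace Pool.Agent.MP_47b17d_nt.H77

open Finset

namespace PIG

/-- the moments of a set of indices -/
def mom (l : ℕ) (v : Finset ℕ) : ℕ := ∑ i ∈ v, i ^ l

theorem mom_le {R J l : ℕ} (hl : l < J) {v : Finset ℕ} (hv : v ⊆ range (R + 1)) :
    mom l v ≤ (R + 1) ^ J := by
  calc mom l v ≤ ∑ i ∈ range (R + 1), i ^ l := sum_le_sum_of_subset hv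
    _ ≤ ∑ _i ∈ range (R + 1), (R + 1) ^ l :=
        sum_le_sum fun i hi => Nat.pow_le_pow_left (mem_range.1 hi).le l
    _ = (R + 1) ^ (l + 1) := by simp [pow_succ']
    _ ≤ (R + 1) ^ J := Nat.pow_le_pow_right (by omega) hl

theorem exists_pair (R J : ℕ) (h : ((R + 1) ^ J + 1) ^ J < 2 ^ (R + 1)) :
    ∃ v ⊆ range (R + 1), ∃ w ⊆ range (R + 1), v ≠ w ∧ ∀ l, l < J → mom l v = mom l w := by
  have h1 : (Fintype.piFinset fun _ : Fin J => range ((R + 1) ^ J + 1)).card <
      (range (R + 1)).powerset.card := by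
    simpa using h
  obtain ⟨v, hv, w, hw, hne, e⟩ := exists_ne_map_eq_of_card_lt_of_maps_to h1
    (f := fun v (l : Fin J) => mom l v) (fun v hv => by
      simp only [coe_powerset, Set.mem_preimage, Set.mem_powerset_iff, coe_subset] at hv
      exact mem_coe.2 (Fintype.mem_piFinset.2 fun l =>
        mem_range.2 (Nat.lt_succ_of_le (mom_le l.2 hv))))
  exact ⟨v, mem_powerset.1 hv, w, mem_powerset.1 hw, hne, fun l hl => congrFun e ⟨l, hl⟩⟩

theorem sum_ite {R l : ℕ} {v : Finset ℕ} (hv : v ⊆ range (R + 1)) :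
    ∑ i ∈ range (R + 1), (if i ∈ v then (1 : ℤ) else 0) * (i : ℤ) ^ l = mom l v := by
  simp only [ite_mul, one_mul, zero_mul]
  rw [← sum_filter, filter_mem_eq_inter, inter_eq_right.2 hv, mom]
  push_cast; rfl

theorem shift {R J : ℕ} {b : ℕ → ℤ}
    (h : ∀ l, l < J → ∑ i ∈ range (R + 1), b i * (i : ℤ) ^ l = 0) (w : ℤ) {l : ℕ} (hl : l < J) :
    ∑ i ∈ range (R + 1), b i * ((i : ℤ) - w) ^ l = 0 := by
  simp only [sub_eq_add_neg, add_pow, mul_sum]
  rw [sum_comm]
  refine sum_eq_zero fun k hk => ?_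
  have hk' : k < J := by have := mem_range.1 hk; omega
  have : ∑ i ∈ range (R + 1), b i * ((i : ℤ) ^ k * (-w) ^ (l - k) * (l.choose k : ℤ)) =
      (∑ i ∈ range (R + 1), b i * (i : ℤ) ^ k) * ((-w) ^ (l - k) * (l.choose k : ℤ)) := by
    rw [sum_mul]; exact sum_congr rfl fun i _ => by ring
  rw [this, h k hk', zero_mul]

end PIG

open PIG in
theorem rowPIG : RowPIG := by
  classical
  intro R J h
  obtain ⟨v, hv, w, hw, hne, e⟩ := exists_pair R J h
  set b : ℕ → ℤ := fun i => (if i ∈ v then (1 : ℤ) else 0) - (if i ∈ w then (1 : ℤ) else 0) with hb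
  have b1 : ∀ i, |b i| ≤ 1 := fun i => by
    simp only [hb]; split_ifs <;> simp
  have b2 : ∀ i, b i ≠ 0 → |b i| = 1 := fun i => by
    simp only [hb]; split_ifs <;> simp
  have b3 : ∀ i, R + 1 ≤ i → b i = 0 := fun i hi => by
    have h1 : i ∉ v := fun h => by have := mem_range.1 (hv h); omega
    have h2 : i ∉ w := fun h => by have := mem_range.1 (hw h); omega
    simp [hb, h1, h2]
  have b4 : ∀ l, l < J → ∑ i ∈ range (R + 1), b i * (i : ℤ) ^ l = 0 := fun l hl => by
    simp only [hb, sub_mul, sum_sub_distrib]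
    rw [sum_ite hv, sum_ite hw, e l hl, sub_self]
  have hex : ∃ i, b i ≠ 0 := by
    by_contra hc
    refine hne (Finset.ext fun i => ?_)
    have h0 : b i = 0 := by_contra fun h => hc ⟨i, h⟩
    simp only [hb] at h0
    by_cases h1 : i ∈ v <;> by_cases h2 : i ∈ w <;> simp_all
  set k := Nat.find hex with hk
  have k1 : b k ≠ 0 := Nat.find_spec hex
  have k2 : ∀ i, i < k → b i = 0 := fun i hi => not_not.1 (Nat.find_min hex hi)
  refine ⟨fun i => b (k + i), by simpa using b2 k k1, fun i => b1 _, fun l hl => ?_⟩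
  have s1 := shift b4 (k : ℤ) hl
  have s2 : ∑ i ∈ range (k + (R + 1)), b i * ((i : ℤ) - k) ^ l =
      ∑ i ∈ range (R + 1), b i * ((i : ℤ) - k) ^ l :=
    (sum_subset (range_mono (by omega)) fun i _ hi => by
      rw [b3 i (by simpa using hi), zero_mul]).symm
  rw [sum_range_add, sum_eq_zero (fun i hi => by rw [k2 i (mem_range.1 hi), zero_mul]), zero_add,
    s1] at s2
  simpa using s2

end Pool.Agent.MP_47b17d_nt.H77
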