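import Pool.Agent.MP_47b17d_nt.H77.Spec2
import Pool.Agent.MP_47b17d_nt.H77.CH

/-! An exact multiplicative relation among partition numbers, by the pigeonhole principle. -/

set_option autoImplicit false

namespace Pool.Agent.MP_47b17d_nt.H77

open Finset Filter Real

namespace REL

theorem fact_le (n l : ℕ) : (pp n).factorization l ≤ n := by
  by_cases hl : l.Prime
  · have h1 : l ^ (pp n).factorization l ≤ pp n := Nat.ordProj_le l (CH.pp_pos n).ne'
    have h2 : 2 ^ (pp n).factorization l ≤ l ^ (pp n).factorization l :=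
      Nat.pow_le_pow_left hl.two_le _
    exact (Nat.pow_le_pow_iff_right (by norm_num)).mp (h2.trans (h1.trans (CH.pp_le n)))
  · rw [Nat.factorization_eq_zero_of_not_prime _ hl]
    exact Nat.zero_le _

theorem log_eq (S : Finset ℕ) (m : ℕ) (hS : m.primeFactors ⊆ S) :
    log (m : ℝ) = ∑ l ∈ S, (m.factorization l : ℝ) * log l := by
  rw [Real.log_nat_eq_sum_factorization, Finsupp.sum, Nat.support_factorization]
  refine Finset.sum_subset hS fun l _ hl => ?_
  rw [← Nat.support_factorization, Finsupp.mem_support_iff, not_not] at hl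
  rw [hl]
  simp

theorem count (a W J r : ℕ) (hW : W ^ 16 ≤ a) (hJ : J ≤ W + 1) (hr : 6 * r + 7 ≤ J) :
    (2 * Nat.sqrt (Nat.sqrt a) * J * a + 1) ^ (r + 1) < (Nat.sqrt (Nat.sqrt a) + 1) ^ J := by
  set T := Nat.sqrt a with hT
  set A := Nat.sqrt T with hA
  have hW2 : 2 ≤ W := by omega
  have h1 : W + 1 ≤ W ^ 2 := by nlinarith
  have h2 : 81 ≤ W ^ 8 := le_trans (by norm_num) (Nat.pow_le_pow_left hW2 8)
  have h3 : (9 * J ^ 2) ^ 2 ≤ a := by
    calc (9 * J ^ 2) ^ 2 = 81 * J ^ 4 := by ring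
      _ ≤ W ^ 8 * (W ^ 2) ^ 4 := Nat.mul_le_mul h2 (Nat.pow_le_pow_left (hJ.trans h1) 4)
      _ = W ^ 16 := by ring
      _ ≤ a := hW
  have h4 : 9 * J ^ 2 ≤ T := Nat.le_sqrt'.2 h3
  have h5 : A ^ 2 ≤ T := Nat.sqrt_le' T
  have h6 : T ^ 2 ≤ a := Nat.sqrt_le' a
  have hJ1 : 1 ≤ J := by omega
  have hT1 : 1 ≤ T := by nlinarith
  have hA1 : 1 ≤ A := Nat.le_sqrt'.2 (by simpa using hT1)
  have ha1 : 1 ≤ a := by nlinarith
  have h7 : 1 ≤ A * J * a := Nat.mul_pos (Nat.mul_pos hA1 hJ1) ha1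
  have h8 : (2 * A * J * a + 1) ^ 2 ≤ a ^ 3 := by
    calc (2 * A * J * a + 1) ^ 2 ≤ (3 * (A * J * a)) ^ 2 :=
          Nat.pow_le_pow_left (by nlinarith) 2
      _ = (9 * J ^ 2) * A ^ 2 * a ^ 2 := by ring
      _ ≤ T * T * a ^ 2 := Nat.mul_le_mul_right _ (Nat.mul_le_mul h4 h5)
      _ ≤ a * a ^ 2 := Nat.mul_le_mul_right _ (by nlinarith)
      _ = a ^ 3 := by ring
  have h9 : a < (A + 1) ^ 4 := by
    have e1 : a < (T + 1) ^ 2 := Nat.lt_succ_sqrt' a
    have e2 : T < (A + 1) ^ 2 := Nat.lt_succ_sqrt' T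
    calc a < (T + 1) ^ 2 := e1
      _ ≤ ((A + 1) ^ 2) ^ 2 := Nat.pow_le_pow_left e2 2
      _ = (A + 1) ^ 4 := by ring
  refine lt_of_pow_lt_pow_left₀ 4 (Nat.zero_le _) ?_
  calc ((2 * A * J * a + 1) ^ (r + 1)) ^ 4 = ((2 * A * J * a + 1) ^ 2) ^ (2 * r + 2) := by
        rw [← pow_mul, ← pow_mul]; congr 1; ring
    _ ≤ (a ^ 3) ^ (2 * r + 2) := Nat.pow_le_pow_left h8 _
    _ = a ^ (6 * r + 6) := by rw [← pow_mul]; congr 1; ring
    _ < ((A + 1) ^ 4) ^ (6 * r + 6) := Nat.pow_lt_pow_left h9 (by omega)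
    _ ≤ ((A + 1) ^ 4) ^ J := Nat.pow_le_pow_right (by positivity) (by omega)
    _ = ((A + 1) ^ J) ^ 4 := by rw [← pow_mul, ← pow_mul, mul_comm]

theorem sum_le (U : Finset ℕ) (v w : U → ℕ) (A M : ℕ) (hv : ∀ n, v n ≤ A) (hw : ∀ n, w n ≤ M) :
    ∑ n, v n * w n ≤ A * U.card * M := by
  calc ∑ n, v n * w n ≤ ∑ _n : U, A * M := sum_le_sum fun n _ => Nat.mul_le_mul (hv n) (hw n)
    _ = A * U.card * M := by
      rw [sum_const, card_univ, Fintype.card_coe, smul_eq_mul]; ring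

end REL

open REL in
theorem rowREL : RowREL := by
  classical
  refine ⟨1, fun a W U S ha hW hU hS hJ => ?_⟩
  have hJW : U.card ≤ W + 1 := by
    have := card_le_card hU
    rw [Nat.card_Icc] at this
    omega
  have hWa : W ≤ a := le_trans (Nat.le_self_pow (by norm_num) W) hW
  have hc := count a W U.card S.card hW hJW hJ
  set A := Nat.sqrt (Nat.sqrt a) with hA
  set B := 2 * A * U.card * a with hB
  have hA4 : A ^ 4 ≤ a := by
    calc A ^ 4 = (A ^ 2) ^ 2 := by ring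
      _ ≤ (Nat.sqrt a) ^ 2 := Nat.pow_le_pow_left (Nat.sqrt_le' _) 2
      _ ≤ a := Nat.sqrt_le' a
  obtain ⟨v, hv, v', hv', hne, heq⟩ := Finset.exists_ne_map_eq_of_card_lt_of_maps_to
    (s := Fintype.piFinset fun _ : U => range (A + 1))
    (t := range (B + 1) ×ˢ Fintype.piFinset fun _ : S => range (B + 1))
    (f := fun v => (∑ n, v n, fun l : S => ∑ n : U, v n * (pp n).factorization l))
    (by
      rw [card_product, Fintype.card_piFinset, Fintype.card_piFinset, prod_const, prod_const,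
        card_range, card_range, card_univ, card_univ, Fintype.card_coe, Fintype.card_coe,
        ← pow_succ']
      exact hc)
    (by
      intro v hv
      have hv1 : ∀ n, v n ≤ A := fun n =>
        Nat.lt_succ_iff.1 (mem_range.1 (Fintype.mem_piFinset.1 (mem_coe.1 hv) n))
      refine mem_coe.2 (mem_product.2 ⟨mem_range.2 (Nat.lt_succ_iff.2 ?_),
        Fintype.mem_piFinset.2 fun l => mem_range.2 (Nat.lt_succ_iff.2 ?_)⟩)
      · have := sum_le U v (fun _ => 1) A (2 * a) hv1 fun _ => by omega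
        simp only [mul_one] at this
        exact this.trans (le_of_eq (by rw [hB]; ring))
      · have := sum_le U v (fun n => (pp n).factorization l) A (2 * a) hv1 fun n => by
          have h1 := (mem_Icc.1 (hU n.2)).2
          have h2 := fact_le n l
          omega
        exact this.trans (le_of_eq (by rw [hB]; ring)))
  have hv1 : ∀ n, v n ≤ A := fun n => Nat.lt_succ_iff.1 (mem_range.1 (Fintype.mem_piFinset.1 hv n))
  have hv2 : ∀ n, v' n ≤ A := fun n =>
    Nat.lt_succ_iff.1 (mem_range.1 (Fintype.mem_piFinset.1 hv' n))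
  have e1 : ∑ n, v n = ∑ n, v' n := congrArg Prod.fst heq
  have e2 : ∀ l : S, ∑ n : U, v n * (pp n).factorization l =
      ∑ n : U, v' n * (pp n).factorization l := fun l => congrFun (congrArg Prod.snd heq) l
  obtain ⟨c, hcv⟩ : ∃ c : ℕ → ℤ, ∀ n : U, c n = (v n : ℤ) - v' n :=
    ⟨fun n => if h : n ∈ U then (v ⟨n, h⟩ : ℤ) - v' ⟨n, h⟩ else 0, fun n => dif_pos n.2⟩
  refine ⟨c, ?_, fun n hn => ?_, ?_, ?_⟩
  · obtain ⟨n, hn⟩ := Function.ne_iff.1 hne
    refine ⟨n, n.2, ?_⟩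
    rw [hcv]
    omega
  · have h1 : |c n| ≤ A := by
      have := hcv ⟨n, hn⟩
      have h2 := hv1 ⟨n, hn⟩
      have h3 := hv2 ⟨n, hn⟩
      rw [abs_le]
      simp only at this
      omega
    calc c n ^ 4 = |c n| ^ 4 := (Even.pow_abs (by decide) _).symm
      _ ≤ (A : ℤ) ^ 4 := pow_le_pow_left₀ (abs_nonneg _) h1 4
      _ ≤ a := by exact_mod_cast hA4
  · rw [← Finset.sum_coe_sort U]
    simp only [hcv, sum_sub_distrib]
    rw [sub_eq_zero]
    exact_mod_cast e1
  · rw [← Finset.sum_coe_sort U]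
    have e3 : ∀ n : U, (c n : ℝ) * log (pp n) =
        ∑ l : S, ((v n : ℝ) * (pp n).factorization l - (v' n : ℝ) * (pp n).factorization l) *
          log l := fun n => by
      rw [log_eq S _ (hS n n.2), ← Finset.sum_coe_sort S, mul_sum, hcv]
      refine sum_congr rfl fun l _ => ?_
      push_cast
      ring
    simp only [e3]
    rw [sum_comm]
    refine sum_eq_zero fun l _ => ?_
    rw [← sum_mul, sum_sub_distrib]
    have e4 : ∑ n : U, (v n : ℝ) * (pp n).factorization l =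
        ∑ n : U, (v' n : ℝ) * (pp n).factorization l := by exact_mod_cast e2 l
    rw [e4, sub_self, zero_mul]

end Pool.Agent.MP_47b17d_nt.H77
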