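import Pool.Agent.MP_47b17d_nt.H77.Spec

/-! The size of the divided differences of the logarithm of the partition function. -/

set_option autoImplicit false

namespace Pool.Agent.MP_47b17d_nt.H77

open Finset Filter Real

namespace SZ

theorem ev (c : ℝ) (hc : 0 < c) :
    ∀ᶠ a : ℕ in atTop, 16 * log (√(√(a : ℝ))) ≤ c * √(√(a : ℝ)) := by
  have h1 := Real.isLittleO_log_id_atTop.bound (c := c / 16) (by positivity)
  have h2 : Tendsto (fun a : ℕ => √(√(a : ℝ))) atTop atTop :=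
    tendsto_sqrt_atTop.comp (tendsto_sqrt_atTop.comp tendsto_natCast_atTop_atTop)
  filter_upwards [h2.eventually h1] with a ha
  simp only [id, Real.norm_eq_abs, abs_of_nonneg (sqrt_nonneg _)] at ha
  have := le_abs_self (log (√(√(a : ℝ))))
  linarith

theorem om_ge (j : ℕ) : (1 / 4 : ℝ) ^ j ≤ asc (1 / 2) j / (j + 1).factorial := by
  induction j with
  | zero => simp [asc]
  | succ j ih =>
    have h1 : asc (1 / 2) (j + 1) / (j + 1 + 1).factorial
        = asc (1 / 2) j / (j + 1).factorial * ((1 / 2 + j) / (j + 2)) := by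
      rw [asc, prod_range_succ, ← asc, Nat.factorial_succ (j + 1)]
      push_cast
      field_simp
      ring
    have h2 : (1 / 4 : ℝ) ≤ (1 / 2 + j) / (j + 2) := by
      rw [le_div_iff₀ (by positivity)]
      have : (0 : ℝ) ≤ j := Nat.cast_nonneg j
      linarith
    rw [h1, pow_succ]
    exact mul_le_mul ih h2 (by norm_num) (le_trans (by positivity) ih)

theorem mono {j : ℕ} {t : ℕ → ℕ} (ht : ∀ i, i ≤ j → t i < t (i + 1)) (i d : ℕ)
    (h : i + d ≤ j + 1) : t i + d ≤ t (i + d) := by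
  induction d with
  | zero => simp
  | succ d ih =>
    have h1 := ih (by omega)
    have h2 := ht (i + d) (by omega)
    rw [← Nat.add_assoc i d 1]
    omega

theorem one_le_prod {j : ℕ} {t : ℕ → ℕ} (ht : ∀ i, i ≤ j → t i < t (i + 1)) (i : ℕ)
    (hi : i ∈ range (j + 2)) :
    1 ≤ |∏ k ∈ (range (j + 2)).erase i, ((t i : ℝ) - t k)| := by
  rw [abs_prod]
  refine le_trans (le_of_eq prod_const_one.symm)
    (prod_le_prod (fun _ _ => zero_le_one) fun k hk => ?_)
  have h1 := mem_range.1 hi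
  have h2 := mem_range.1 (mem_of_mem_erase hk)
  rcases lt_or_gt_of_ne (ne_of_mem_erase hk) with h | h
  · obtain ⟨d, rfl⟩ := Nat.exists_eq_add_of_lt h
    have h3 := mono ht k (d + 1) (by omega)
    have h4 : (t k : ℝ) + 1 ≤ t (k + d + 1) := by
      have : t k + 1 ≤ t (k + d + 1) := by rw [Nat.add_assoc]; omega
      exact_mod_cast this
    exact le_trans (by linarith) (le_abs_self _)
  · obtain ⟨d, rfl⟩ := Nat.exists_eq_add_of_lt h
    have h3 := mono ht i (d + 1) (by omega)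
    have h4 : (t i : ℝ) + 1 ≤ t (i + d + 1) := by
      have : t i + 1 ≤ t (i + d + 1) := by rw [Nat.add_assoc]; omega
      exact_mod_cast this
    exact le_trans (by linarith) (neg_le_abs _)

theorem near {a W Z p : ℝ} (ha : 1 ≤ a) (hW : 1 ≤ W) (hWa : 4 * W ^ 2 ≤ a) (hp : 0 ≤ p)
    (hpW : p ≤ W) (h1 : a - 1 / 24 ≤ Z) (h2 : Z ≤ a + W) :
    3 / 4 * a ^ (-p) ≤ Z ^ (-p) ∧ Z ^ (-p) ≤ 4 / 3 * a ^ (-p) := by
  have a0 : 0 < a := by linarith
  have Z0 : 0 < Z := by linarith
  have e1 : log Z - log a ≤ W / a := by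
    rw [← log_div Z0.ne' a0.ne']
    refine (log_le_sub_one_of_pos (by positivity)).trans ?_
    rw [div_sub_one a0.ne']
    exact div_le_div_of_nonneg_right (by linarith) a0.le
  have e2 : log a - log Z ≤ W / a := by
    rw [← log_div a0.ne' Z0.ne']
    refine (log_le_sub_one_of_pos (by positivity)).trans ?_
    rw [div_sub_one Z0.ne', div_le_div_iff₀ Z0 a0]
    nlinarith
  have e3 : p * (W / a) ≤ 1 / 4 := by
    rw [← mul_div_assoc, div_le_iff₀ a0]
    nlinarith
  have e4 : (3 / 4 : ℝ) ≤ exp (-(1 / 4)) := by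
    have := add_one_le_exp (-(1 / 4) : ℝ)
    linarith
  have e5 := mul_le_mul_of_nonneg_left e1 hp
  have e6 := mul_le_mul_of_nonneg_left e2 hp
  rw [rpow_def_of_pos a0, rpow_def_of_pos Z0]
  constructor
  · refine (mul_le_mul_of_nonneg_right e4 (exp_pos _).le).trans ?_
    rw [← exp_add]
    exact exp_le_exp.2 (by linarith)
  · have e7 : 3 / 4 * exp (log Z * -p) ≤ exp (log a * -p) := by
      refine (mul_le_mul_of_nonneg_right e4 (exp_pos _).le).trans ?_
      rw [← exp_add]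
      exact exp_le_exp.2 (by linarith)
    linarith

theorem err {a W j : ℕ} {c : ℝ} (ha : 4 ≤ a) (hW : W ^ 4 ≤ a) (hj : j + 1 ≤ W)
    (h : 16 * log (√(√(a : ℝ))) ≤ min c (1 / 2) * √(√(a : ℝ))) :
    ((j : ℝ) + 2) * (exp (-(c * √a)) + (1 / 2) ^ a) ≤
      (1 / 4 : ℝ) ^ j * (a : ℝ) ^ (-(1 / 2 : ℝ) - j) / 4 := by
  have a4 : (4 : ℝ) ≤ a := by exact_mod_cast ha
  have a0 : (0 : ℝ) < a := by linarith
  set q := √(√(a : ℝ)) with hq
  have q2 : q * q = √(a : ℝ) := mul_self_sqrt (sqrt_nonneg _)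
  have q4 : q ^ 4 = a := by
    have : q ^ 4 = (q * q) * (q * q) := by ring
    rw [this, q2, mul_self_sqrt a0.le]
  have q0 : 0 ≤ q := sqrt_nonneg _
  have hWq : (W : ℝ) ≤ q := by
    refine le_of_pow_le_pow_left₀ (n := 4) (by norm_num) q0 ?_
    rw [q4]
    exact_mod_cast hW
  have hj' : (j : ℝ) + 1 ≤ W := by exact_mod_cast hj
  have j0 : (0 : ℝ) ≤ j := Nat.cast_nonneg j
  have hl : log a = 4 * log q := by rw [← q4, log_pow]; norm_num
  have l4 : log 4 ≤ log a := log_le_log (by norm_num) a4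
  have l0 : 0 ≤ log (4 : ℝ) := log_nonneg (by norm_num)
  set c' := min c (1 / 2) with hc'
  have s0 : 0 ≤ √(a : ℝ) := sqrt_nonneg _
  have e1 : exp (-(c * √a)) ≤ exp (-(c' * √a)) :=
    exp_le_exp.2 (neg_le_neg (mul_le_mul_of_nonneg_right (min_le_left _ _) s0))
  have e2 : (1 / 2 : ℝ) ^ a ≤ exp (-(c' * √a)) := by
    have h1 : (1 / 2 : ℝ) ≤ exp (-(1 / 2)) := by
      have := add_one_le_exp (-(1 / 2) : ℝ)
      linarith
    refine (pow_le_pow_left₀ (by norm_num) h1 a).trans ?_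
    rw [← exp_nat_mul]
    refine exp_le_exp.2 ?_
    have h2 : √(a : ℝ) ≤ a := by
      rw [sqrt_le_left a0.le]
      nlinarith
    have h3 := mul_le_mul_of_nonneg_right (min_le_right c (1 / 2)) s0
    linarith
  have e3 : ((j : ℝ) + 2) * 2 ≤ exp (log 4 + log a) := by
    rw [exp_add, exp_log (by norm_num), exp_log a0]
    have h1 : (W : ℝ) ≤ a := by
      have : W ≤ a := le_trans (Nat.le_self_pow (by norm_num) W) hW
      exact_mod_cast this
    linarith
  have e4 : (1 / 4 : ℝ) ^ j * (a : ℝ) ^ (-(1 / 2 : ℝ) - j) / 4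
      = exp (-((j + 1) * log 4) + log a * (-(1 / 2 : ℝ) - j)) := by
    rw [exp_add, ← rpow_def_of_pos a0, exp_neg]
    have : exp (((j : ℝ) + 1) * log 4) = 4 ^ (j + 1) := by
      rw [← Nat.cast_succ, exp_nat_mul, exp_log (by norm_num)]
    rw [this, pow_succ, one_div_pow]
    field_simp
  calc ((j : ℝ) + 2) * (exp (-(c * √a)) + (1 / 2) ^ a)
      ≤ ((j : ℝ) + 2) * (2 * exp (-(c' * √a))) :=
        mul_le_mul_of_nonneg_left (by linarith) (by linarith)
    _ = ((j : ℝ) + 2) * 2 * exp (-(c' * √a)) := by ring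
    _ ≤ exp (log 4 + log a) * exp (-(c' * √a)) :=
        mul_le_mul_of_nonneg_right e3 (exp_pos _).le
    _ ≤ _ := by
        rw [e4, ← exp_add]
        refine exp_le_exp.2 ?_
        have h1 : q * (16 * log q) ≤ q * (c' * q) := mul_le_mul_of_nonneg_left h q0
        have h2 : q * (c' * q) = c' * √a := by rw [← q2]; ring
        have h3 : ((j : ℝ) + 2) * log 4 ≤ (j + 2) * log a :=
          mul_le_mul_of_nonneg_left l4 (by linarith)
        have h4 : (2 * (j : ℝ) + 4) * log a ≤ (4 * q) * log a :=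
          mul_le_mul_of_nonneg_right (by linarith) (by linarith)
        have h5 : (4 * q) * log a = q * (16 * log q) := by rw [hl]; ring
        nlinarith

/-- the tower of derivatives -/
noncomputable def tw (F : ℝ → ℝ) (b : ℕ → ℝ) (K : ℕ) : ℕ → ℝ → ℝ
  | 0 => F
  | l + 1 => fun x => gd b K l (x - 1 / 24)

end SZ

theorem rowSZ (h1 : RowAPX) (h2 : RowDD) (h3 : RowDER) : RowSZ := by
  obtain ⟨c, n₀, b, hc, hb, hF⟩ := h1
  obtain ⟨a₁, ha₁⟩ := eventually_atTop.1 (SZ.ev (min c (1 / 2)) (lt_min hc (by norm_num)))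
  refine ⟨max (max n₀ a₁) 1600, fun a W j t ha hW ht h0 hl => ?_⟩
  have an : n₀ ≤ a := le_trans (le_trans (le_max_left _ _) (le_max_left _ _)) ha
  have a1 : a₁ ≤ a := le_trans (le_trans (le_max_right _ _) (le_max_left _ _)) ha
  have a2 : 1600 ≤ a := le_trans (le_max_right _ _) ha
  have a3 : (1600 : ℝ) ≤ a := by exact_mod_cast a2
  have hj : j + 1 ≤ W := by
    have := SZ.mono ht 0 (j + 1) (by omega)
    rw [Nat.zero_add] at this
    omega
  have hj' : (j : ℝ) + 1 ≤ W := by exact_mod_cast hj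
  have j0 : (0 : ℝ) ≤ j := Nat.cast_nonneg j
  have hW' : (W : ℝ) ^ 4 ≤ a := by exact_mod_cast hW
  have hW2 : 40 * (W : ℝ) ^ 2 ≤ a := by
    by_contra hn
    have h4 : (a : ℝ) < 40 * W ^ 2 := not_le.1 hn
    nlinarith
  obtain ⟨F, hF1, hF2⟩ := hF a
  obtain ⟨hd0, hd1, hd2⟩ := h3 b (a + 2)
  obtain ⟨ξ, hξ, hE⟩ := h2 (SZ.tw F b (a + 2)) a (a + W) (j + 1) (fun i => (t i : ℝ))
    (by
      intro l x hx
      have hx1 : (1 : ℝ) ≤ x := by linarith [hx.1]
      cases l with
      | zero =>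
        have := hF1 x hx1
        rw [← hd0] at this
        exact this
      | succ l => exact (hd1 l (x - 1 / 24) (by linarith)).comp_sub_const x (1 / 24))
    (fun i hi => by exact_mod_cast ht i (by omega)) (by exact_mod_cast h0)
    (by exact_mod_cast hl)
  have hZ := hd2 hb (by omega) j (ξ - 1 / 24) (by
    refine le_sqrt_of_sq_le ?_
    have h4 : (3 * (2 * (j : ℝ) + 1)) ^ 2 ≤ (6 * W) ^ 2 :=
      pow_le_pow_left₀ (by positivity) (by linarith) 2
    nlinarith [hξ.1])
  have hn := SZ.near (a := a) (W := W) (Z := ξ - 1 / 24) (p := 1 / 2 + j) (by linarith)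
    (by linarith) (by nlinarith) (by positivity) (by linarith) (by linarith [hξ.1])
    (by linarith [hξ.2])
  rw [show -(1 / 2 + (j : ℝ)) = -(1 / 2 : ℝ) - j by ring] at hn
  have he := SZ.err (c := c) (by omega) hW hj (ha₁ a a1)
  have ho := SZ.om_ge j
  have hA : (0 : ℝ) < (a : ℝ) ^ (-(1 / 2 : ℝ) - j) := rpow_pos_of_pos (by linarith) _
  have hf : (0 : ℝ) < (j + 1).factorial := by exact_mod_cast Nat.factorial_pos _
  have has : 0 ≤ asc (1 / 2) j := prod_nonneg fun i _ => by positivity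
  have hS : |∑ i ∈ range (j + 2), log (pp (t i)) / ∏ k ∈ (range (j + 2)).erase i,
      ((t i : ℝ) - t k) - gd b (a + 2) j (ξ - 1 / 24) / (j + 1).factorial| ≤
      ((j : ℝ) + 2) * (exp (-(c * √a)) + (1 / 2) ^ a) := by
    have hE' : gd b (a + 2) j (ξ - 1 / 24) / (j + 1).factorial = ∑ i ∈ range (j + 2),
        F (t i) / ∏ k ∈ (range (j + 2)).erase i, ((t i : ℝ) - t k) := hE.symm
    rw [hE', ← sum_sub_distrib]
    refine (abs_sum_le_sum_abs _ _).trans ?_
    refine (sum_le_card_nsmul _ _ (exp (-(c * √a)) + (1 / 2) ^ a) fun i hi => ?_).trans ?_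
    · rw [← sub_div, abs_div]
      refine (div_le_self (abs_nonneg _) (SZ.one_le_prod ht i hi)).trans ?_
      have h4 : a ≤ t i := by
        have := SZ.mono ht 0 i (by have := mem_range.1 hi; omega)
        rw [Nat.zero_add] at this
        omega
      refine (hF2 (t i) (an.trans h4)).trans (add_le_add_left ?_ _)
      refine exp_le_exp.2 (neg_le_neg (mul_le_mul_of_nonneg_left (sqrt_le_sqrt ?_) hc.le))
      exact_mod_cast h4
    · rw [card_range, nsmul_eq_mul]
      push_cast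
      exact le_rfl
  set X := ∑ i ∈ range (j + 2), log (pp (t i)) / ∏ k ∈ (range (j + 2)).erase i,
    ((t i : ℝ) - t k) with hX
  set A := (a : ℝ) ^ (-(1 / 2 : ℝ) - j) with hAd
  set om := asc (1 / 2) j / (j + 1).factorial with hom
  have hM : |gd b (a + 2) j (ξ - 1 / 24) / (j + 1).factorial|
      = |gd b (a + 2) j (ξ - 1 / 24)| / (j + 1).factorial := by
    rw [abs_div, abs_of_pos hf]
  have hlo : 3 / 8 * (om * A) ≤ |gd b (a + 2) j (ξ - 1 / 24) / (j + 1).factorial| := by
    rw [hM, le_div_iff₀ hf, hom]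
    have h4 := mul_le_mul_of_nonneg_left hn.1 has
    have h5 : 3 / 8 * (asc (1 / 2) j / (j + 1).factorial * A) * (j + 1).factorial
        = asc (1 / 2) j * (3 / 4 * A) / 2 := by
      field_simp
      ring
    rw [h5]
    linarith [hZ.1]
  have hup : |gd b (a + 2) j (ξ - 1 / 24) / (j + 1).factorial| ≤ 4 * (om * A) := by
    rw [hM, div_le_iff₀ hf, hom]
    have h4 := mul_le_mul_of_nonneg_left hn.2 has
    have h5 : 4 * (asc (1 / 2) j / (j + 1).factorial * A) * (j + 1).factorial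
        = 3 * (asc (1 / 2) j * (4 / 3 * A)) := by
      field_simp
    rw [h5]
    linarith [hZ.2]
  have h6 : (1 / 4 : ℝ) ^ j * A ≤ om * A := mul_le_mul_of_nonneg_right ho hA.le
  have h7 := abs_sub_abs_le_abs_sub X (gd b (a + 2) j (ξ - 1 / 24) / (j + 1).factorial)
  have h8 := abs_sub_abs_le_abs_sub (gd b (a + 2) j (ξ - 1 / 24) / (j + 1).factorial) X
  rw [abs_sub_comm] at h8
  have h9 : 0 ≤ om * A := le_trans (by positivity) h6
  constructor <;> linarith

end Pool.Agent.MP_47b17d_nt.H77
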