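import Mathlib

/-! Prime factors of partition numbers: definitions and rows. -/

set_option autoImplicit false

namespace Pool.Agent.MP_47b17d_nt.H77

open Finset Filter Real MeasureTheory

/-- the number of partitions -/
def pp (n : ℕ) : ℕ := Fintype.card (Nat.Partition n)

/-- the Euler product -/
noncomputable def QQ (q : ℂ) : ℂ := ∏' k : ℕ, (1 - q ^ (k + 1))

/-- the constant `π² / 6` -/
noncomputable def be : ℝ := π ^ 2 / 6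

/-- the exponent of Hardy and Ramanujan -/
noncomputable def mu (x : ℝ) : ℝ := 2 * √(be * (x - 1 / 24))

/-- the logarithm of the main term -/
noncomputable def ff (x : ℝ) : ℝ :=
  log (be / √3) - 2 * log (mu x) + log (1 - 1 / mu x) + mu x

/-- a combination of negative half-integer powers -/
noncomputable def gg (b : ℕ → ℝ) (K : ℕ) (Z : ℝ) : ℝ :=
  ∑ k ∈ range K, b k * Z ^ (-(((k : ℝ) + 1) / 2))

/-- admissible coefficients -/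
def Adm (b : ℕ → ℝ) : Prop := 1 ≤ b 0 ∧ b 0 ≤ 2 ∧ ∀ k, |b (k + 1)| ≤ 1

/-- rising factorial -/
noncomputable def asc (s : ℝ) (j : ℕ) : ℝ := ∏ i ∈ range j, (s + i)

/-- the derivatives of `gg` -/
noncomputable def gd (b : ℕ → ℝ) (K j : ℕ) (Z : ℝ) : ℝ :=
  ∑ k ∈ range K, b k * ((-1) ^ j * asc (((k : ℝ) + 1) / 2) j) * Z ^ (-(((k : ℝ) + 1) / 2) - j)

/-- `y` is an integer combination, of total weight at most `B`, of the logarithms of the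
members of `S` -/
def Comb (S : Finset ℕ) (B y : ℝ) : Prop :=
  ∃ e : ℕ → ℤ, y = ∑ l ∈ S, (e l : ℝ) * log l ∧ ∑ l ∈ S, |(e l : ℝ)| ≤ B

/-- an exponential sum -/
noncomputable def ph (a : ℕ → ℤ) (R : ℕ) (u : ℝ) : ℝ :=
  ∑ i ∈ range (R + 1), (a i : ℝ) * exp (-(i * u))

/-- its Laplace transform against `y ^ (-1/2)` -/
noncomputable def EE (a : ℕ → ℤ) (R : ℕ) (s X : ℝ) : ℝ :=
  ∫ y in Set.Ioi (0 : ℝ), y ^ (-(1 / 2) : ℝ) * exp (-(X * y)) * ph a R (s * y) ^ 2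

/-! ### The asymptotic formula -/

/-- Cauchy's formula. -/
def RowGEN : Prop := ∀ a : ℝ, 0 < a →
  (Continuous fun θ : ℝ => (QQ (Complex.exp (-((a : ℂ) + θ * Complex.I))))⁻¹) ∧
  ∀ n : ℕ, (2 * π * pp n : ℂ) = ∫ θ in (-π)..π,
    Complex.exp (n * ((a : ℂ) + θ * Complex.I)) *
      (QQ (Complex.exp (-((a : ℂ) + θ * Complex.I))))⁻¹

/-- The modular transformation. -/
def RowMOD : Prop := ∀ z : ℂ, 0 < z.re →
  (QQ (Complex.exp (-z)))⁻¹ = Complex.sqrt (z / (2 * π)) * Complex.exp (be / z - z / 24) *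
    (QQ (Complex.exp (-(4 * π ^ 2 / z))))⁻¹

/-- The product near zero. -/
def RowQB : Prop := ∀ q : ℂ, ‖q‖ ≤ 1 / 4 → ‖(QQ q)⁻¹ - 1‖ ≤ 4 * ‖q‖

/-- The minor arc. -/
def RowMIN : Prop := ∀ a θ : ℝ, 0 < a → a ≤ 1 → a / 2 ≤ |θ| → |θ| ≤ π →
  ‖(QQ (Complex.exp (-((a : ℂ) + θ * Complex.I))))⁻¹‖ ≤
    exp (-(1 / 1000 / a)) * ‖(QQ (Complex.exp (-(a : ℂ))))⁻¹‖

/-- The saddle point integral. -/
def RowARC : Prop := ∃ c C : ℝ, 0 < c ∧ ∀ m : ℝ, 1 ≤ m →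
  |(∫ t in (-(1 / 2) : ℝ)..(1 / 2), Complex.sqrt (1 + t * Complex.I) *
      Complex.exp (m / 2 * ((1 + t * Complex.I) + (1 + t * Complex.I)⁻¹))).re -
    2 * √(π / (2 * m)) * (1 - 1 / m) * exp m| ≤ C * exp ((1 - c) * m)

/-- Hardy and Ramanujan with an exponentially small error. -/
def RowHR : Prop := ∃ c : ℝ, 0 < c ∧ ∀ᶠ n : ℕ in atTop, |log (pp n) - ff n| ≤ exp (-(c * √n))

/-- The approximation by a function with a simple derivative. -/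
def RowAPX : Prop := ∃ (c : ℝ) (n₀ : ℕ) (b : ℕ → ℝ), 0 < c ∧ Adm b ∧ ∀ K : ℕ, ∃ F : ℝ → ℝ,
  (∀ x : ℝ, 1 ≤ x → HasDerivAt F (gg b (K + 2) (x - 1 / 24)) x) ∧
  ∀ n : ℕ, n₀ ≤ n → |log (pp n) - F n| ≤ exp (-(c * √n)) + (1 / 2) ^ K

/-! ### Chains of small combinations of logarithms -/

/-- Closure properties. -/
structure RowCOMB : Prop where
  base : ∀ (S : Finset ℕ) (n : ℕ), (pp n).primeFactors ⊆ S → Comb S n (log (pp n))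
  mono : ∀ (S : Finset ℕ) (B B' y : ℝ), Comb S B y → B ≤ B' → Comb S B' y
  abs : ∀ (S : Finset ℕ) (B y : ℝ), Comb S B y → Comb S B |y|
  sub : ∀ (S : Finset ℕ) (B B' y y' : ℝ), Comb S B y → Comb S B' y' → Comb S (B + B') (y - y')
  sum : ∀ (ι : Type) (S : Finset ℕ) (t : Finset ι) (c : ι → ℤ) (B : ℝ) (y : ι → ℝ),
    (∀ i ∈ t, Comb S B (y i)) → Comb S ((∑ i ∈ t, |(c i : ℝ)|) * B) (∑ i ∈ t, (c i : ℝ) * y i)

/-- The chain lemma (Dirichlet's box principle). -/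
def RowCH : Prop := ∀ (S : Finset ℕ) (K Δ : ℕ) (B Γ : ℝ) (x : ℕ → ℝ), 1 ≤ Γ → 0 < Δ →
  4 * B * Γ ≤ Δ → (∀ k, k ≤ K → 0 < x k ∧ Comb S B (x k)) →
  (∀ k, k < K → x k ≤ Γ * x (k + 1)) → x 0 ≤ (Δ : ℝ) ^ S.card * x K

/-! ### All integers: squares of short polynomials -/

/-- A polynomial with coefficients `0, 1, -1` and a zero of high order at one. -/
def RowPIG : Prop := ∀ R J : ℕ, ((R + 1) ^ J + 1) ^ J < 2 ^ (R + 1) →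
  ∃ a : ℕ → ℤ, |a 0| = 1 ∧ (∀ i, |a i| ≤ 1) ∧
    ∀ l, l < J → ∑ i ∈ range (R + 1), a i * (i : ℤ) ^ l = 0

/-- Upper bound. -/
def RowUP : Prop := ∀ (a : ℕ → ℤ) (R J : ℕ) (s X : ℝ), (∀ i, |a i| ≤ 1) →
  (∀ l, l < J → ∑ i ∈ range (R + 1), a i * (i : ℤ) ^ l = 0) → 0 ≤ s → 2 ≤ X →
  EE a R s X ≤ 2 * ((R : ℝ) + 1) ^ 2 * (4 * R * s / X) ^ (2 * J)

/-- A large value (Chebyshev polynomials). -/
def RowCHE : Prop := ∀ (a : ℕ → ℤ) (R Y m : ℕ), |a 0| = 1 → (∀ i, |a i| ≤ 1) → 1 ≤ Y →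
  2 * (R : ℝ) + 2 ≤ (1 + 1 / (Y : ℝ)) ^ m →
  ∃ k : ℕ, k ≤ m ∧ (1 / 8 : ℝ) ^ m ≤ |ph a R (k / (Y : ℝ) ^ 2)|

/-- Lower bound. -/
def RowLOW : Prop := ∀ (a : ℕ → ℤ) (R Y m : ℕ) (s X : ℝ), |a 0| = 1 → (∀ i, |a i| ≤ 1) →
  1 ≤ R → 1 ≤ Y → Y ≤ m → 2 * (R : ℝ) + 2 ≤ (1 + 1 / (Y : ℝ)) ^ m → 0 < X →
  X ≤ 2 * s * (Y : ℝ) ^ 2 → (m : ℝ) + 1 ≤ s * (Y : ℝ) ^ 2 →
  exp (-(9 * m + 2)) / (8 * s * (R : ℝ) ^ 2) ≤ EE a R s X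

/-- Monotonicity and slow variation. -/
def RowMON : Prop := ∀ (a : ℕ → ℤ) (R : ℕ) (s : ℝ), (∀ i, |a i| ≤ 1) → 0 ≤ s →
  (∀ X X' : ℝ, 0 < X → X ≤ X' → EE a R s X' ≤ EE a R s X) ∧
  ∀ X : ℝ, 2 ≤ X → EE a R s X ≤ 2 * EE a R s (X + 2) + 2 * ((R : ℝ) + 1) ^ 2 * exp (-(X / 200))

/-- The first term dominates. -/
def RowLAP : Prop := ∀ (a : ℕ → ℤ) (R K : ℕ) (b : ℕ → ℝ) (s Z : ℝ), (∀ i, |a i| ≤ 1) → Adm b →
  0 ≤ s → 4 ≤ Z →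
  EE a R s Z / 4 - 4 * ((R : ℝ) + 1) ^ 2 * exp (-(Z / 200)) ≤
    ∑ i ∈ range (R + 1), ∑ j ∈ range (R + 1),
      (a i : ℝ) * a j * gg b (K + 1) (Z + ((i : ℝ) + j) * s) ∧
  ∑ i ∈ range (R + 1), ∑ j ∈ range (R + 1),
      (a i : ℝ) * a j * gg b (K + 1) (Z + ((i : ℝ) + j) * s) ≤
    2 * EE a R s Z + 4 * ((R : ℝ) + 1) ^ 2 * exp (-(Z / 200))

/-- The members of the chain. -/
def RowMEM : Prop := ∃ (c : ℝ) (n₀ : ℕ), 0 < c ∧ ∀ (a : ℕ → ℤ) (R s m : ℕ), (∀ i, |a i| ≤ 1) →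
  n₀ ≤ m →
  EE a R s ((m : ℝ) + 1) / 4 - ((R : ℝ) + 1) ^ 2 * exp (-(c * √m)) ≤
    ∑ i ∈ range (R + 1), ∑ j ∈ range (R + 1),
      (a i : ℝ) * a j * (log (pp (m + (i + j) * s + 1)) - log (pp (m + (i + j) * s))) ∧
  ∑ i ∈ range (R + 1), ∑ j ∈ range (R + 1),
      (a i : ℝ) * a j * (log (pp (m + (i + j) * s + 1)) - log (pp (m + (i + j) * s))) ≤
    2 * EE a R s ((m : ℝ) - 1) + ((R : ℝ) + 1) ^ 2 * exp (-(c * √m))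

/-- The main inequality for all integers. -/
def RowA : Prop := ∃ C : ℝ, 1 ≤ C ∧ ∀ (T P N : ℕ) (S : Finset ℕ), 1 ≤ P → C ≤ T →
  C * log N ≤ T → T ^ 12 * P ^ 2 ≤ N → (∀ n, 1 ≤ n → n ≤ N → (pp n).primeFactors ⊆ S) →
  P ≤ S.card

/-- First result. -/
def GoalA : Prop := ∀ᶠ N : ℕ in atTop,
  √N / log N ^ 7 ≤ ((∏ n ∈ Icc 1 N, Fintype.card (Nat.Partition n)).primeFactors.card : ℝ)

/-! ### Sparse sets: divided differences -/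

/-- The mean value theorem for divided differences. -/
def RowDD : Prop := ∀ (F : ℕ → ℝ → ℝ) (u v : ℝ) (j : ℕ) (t : ℕ → ℝ),
  (∀ l, ∀ x ∈ Set.Icc u v, HasDerivAt (F l) (F (l + 1) x) x) →
  (∀ i, i < j → t i < t (i + 1)) → u ≤ t 0 → t j ≤ v →
  ∃ ξ ∈ Set.Icc u v, ∑ i ∈ range (j + 1), F 0 (t i) / ∏ k ∈ (range (j + 1)).erase i, (t i - t k) =
    F j ξ / j.factorial

/-- The derivatives. -/
def RowDER : Prop := ∀ (b : ℕ → ℝ) (K : ℕ), (∀ Z, gd b K 0 Z = gg b K Z) ∧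
  (∀ (j : ℕ) (Z : ℝ), 0 < Z → HasDerivAt (gd b K j) (gd b K (j + 1) Z) Z) ∧
  (Adm b → 1 ≤ K → ∀ (j : ℕ) (Z : ℝ), 3 * (2 * (j : ℝ) + 1) ≤ √Z →
    asc (1 / 2) j * Z ^ (-(1 / 2 : ℝ) - j) / 2 ≤ |gd b K j Z| ∧
    |gd b K j Z| ≤ 3 * (asc (1 / 2) j * Z ^ (-(1 / 2 : ℝ) - j)))

/-- The size of the divided differences of `log p`. -/
def RowSZ : Prop := ∃ a₀ : ℕ, ∀ (a W j : ℕ) (t : ℕ → ℕ), a₀ ≤ a → W ^ 4 ≤ a →
  (∀ i, i ≤ j → t i < t (i + 1)) → a ≤ t 0 → t (j + 1) ≤ a + W →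
  asc (1 / 2) j / (j + 1).factorial * (a : ℝ) ^ (-(1 / 2 : ℝ) - j) / 8 ≤
    |∑ i ∈ range (j + 2), log (pp (t i)) / ∏ k ∈ (range (j + 2)).erase i, ((t i : ℝ) - t k)| ∧
  |∑ i ∈ range (j + 2), log (pp (t i)) / ∏ k ∈ (range (j + 2)).erase i, ((t i : ℝ) - t k)| ≤
    6 * (asc (1 / 2) j / (j + 1).factorial * (a : ℝ) ^ (-(1 / 2 : ℝ) - j))

/-- The local inequality. -/
def RowLOC : Prop := ∃ a₀ : ℕ, ∀ (a W J D : ℕ) (t : ℕ → ℕ) (S : Finset ℕ), a₀ ≤ a → W ^ 4 ≤ a →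
  (∀ i, i < J → t i < t (i + 1)) → a ≤ t 0 → t J ≤ a + W → 0 < D →
  (∀ i, i ≤ J → (∏ k ∈ (range (J + 1)).erase i, ((t i : ℤ) - t k)) ∣ (D : ℤ)) →
  (∀ i, i ≤ J → (pp (t i)).primeFactors ⊆ S) →
  ((J : ℝ) - 2) * log a ≤ S.card * (log D + 4 * log a)

/-- Common denominators. -/
def RowDEN : Prop := ∀ (a W J : ℕ) (t : ℕ → ℕ), (∀ i, i < J → t i < t (i + 1)) → a ≤ t 0 →
  t J ≤ a + W → ∃ D : ℕ, 0 < D ∧
    (∀ i, i ≤ J → (∏ k ∈ (range (J + 1)).erase i, ((t i : ℤ) - t k)) ∣ (D : ℤ)) ∧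
    log D ≤ min (2 * W * log W) (J * (J + 1) * log W)

/-- Covering by windows. -/
def RowWIN : Prop := ∃ a₀ : ℕ, ∀ (a N W J : ℕ) (S : Finset ℕ), a₀ ≤ a → 1 ≤ W → W ^ 4 ≤ a →
  2 ≤ J → S.card * (min (2 * W * log W) (J * (J + 1) * log W) + 4 * log N) < ((J : ℝ) - 2) * log a →
  ((Icc 1 N).filter fun n => (pp n).primeFactors ⊆ S).card ≤ a + J * (N / W + 1)

/-- Second result. -/
def GoalB : Prop := ∃ C : ℝ, ∀ ε : ℝ, 0 < ε → ∀ᶠ N : ℕ in atTop,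
  (((Icc 1 N).filter fun n => ∀ l ∈ (Fintype.card (Nat.Partition n)).primeFactors,
    (l : ℝ) ≤ ε * log N).card : ℝ) ≤ C * ε * N

/-- A small exceptional set. -/
def RowC : Prop := ∀ A : ℕ, ∀ᶠ N : ℕ in atTop,
  (((Icc 1 N).filter fun n => ∀ l ∈ (pp n).primeFactors, (l : ℝ) ≤ √(log N)).card : ℝ) ≤
    N / log N ^ A

/-- Third result. -/
def GoalD : Prop := Tendsto (fun N : ℕ =>
  (((Icc 1 N).filter fun q => q.Prime ∧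
    ∃ l ∈ (Fintype.card (Nat.Partition (q - 1))).primeFactors, √(log q) < (l : ℝ)).card : ℝ) /
    Nat.primeCounting N) atTop (nhds 1)

end Pool.Agent.MP_47b17d_nt.H77
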