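import Pool.Agent.MP_47b17d_nt.H77.Spec

/-! Prime factors of partition numbers: sharper rows for sparse sets. -/

set_option autoImplicit false

namespace Pool.Agent.MP_47b17d_nt.H77

open Finset Filter Real

/-- An exact multiplicative relation. -/
def RowREL : Prop := ∃ a₀ : ℕ, ∀ (a W : ℕ) (U S : Finset ℕ), a₀ ≤ a → W ^ 16 ≤ a →
  U ⊆ Icc a (a + W) → (∀ n ∈ U, (pp n).primeFactors ⊆ S) → 6 * S.card + 7 ≤ U.card →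
  ∃ c : ℕ → ℤ, (∃ n ∈ U, c n ≠ 0) ∧ (∀ n ∈ U, c n ^ 4 ≤ a) ∧ ∑ n ∈ U, c n = 0 ∧
    ∑ n ∈ U, (c n : ℝ) * log (pp n) = 0

/-- No short relation in a short window. -/
def RowNEW : Prop := ∃ a₀ : ℕ, ∀ (a W : ℕ) (U : Finset ℕ) (c : ℕ → ℤ), a₀ ≤ a → W ^ 16 ≤ a →
  U ⊆ Icc a (a + W) → (∀ j, j ≤ U.card → (W + 1).choose j ^ 2 ≤ a) →
  (∀ n ∈ U, c n ^ 4 ≤ a) → ∑ n ∈ U, c n = 0 → ∑ n ∈ U, (c n : ℝ) * log (pp n) = 0 →
  ∀ n ∈ U, c n = 0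

/-- Covering by windows. -/
def RowWIN2 : Prop := ∃ a₀ : ℕ, ∀ (a N W : ℕ) (S : Finset ℕ), a₀ ≤ a → 1 ≤ W → W ^ 16 ≤ a →
  (∀ j, j ≤ 6 * S.card + 7 → (W + 1).choose j ^ 2 ≤ a) →
  ((Icc 1 N).filter fun n => (pp n).primeFactors ⊆ S).card ≤ a + (6 * S.card + 6) * (N / W + 1)

/-- Second result. -/
def GoalE : Prop := ∃ c C : ℝ, 0 < c ∧ ∀ (N : ℕ) (S : Finset ℕ), S.Nonempty →
  (((Icc 1 N).filter fun n => (Fintype.card (Nat.Partition n)).primeFactors ⊆ S).card : ℝ) ≤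
    C * (N : ℝ) ^ (1 - c / S.card)

/-- A small exceptional set. -/
def RowC2 : Prop := ∃ c : ℝ, 0 < c ∧ ∀ᶠ N : ℕ in atTop,
  (((Icc 1 N).filter fun n => ∀ l ∈ (pp n).primeFactors, (l : ℝ) ≤ c * log N).card : ℝ) ≤
    N / log N ^ 2

/-- Third result. -/
def GoalD2 : Prop := ∃ c : ℝ, 0 < c ∧ Tendsto (fun N : ℕ =>
  (((Icc 1 N).filter fun q => q.Prime ∧
    ∃ l ∈ (Fintype.card (Nat.Partition (q - 1))).primeFactors, c * log q < (l : ℝ)).card : ℝ) /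
    Nat.primeCounting N) atTop (nhds 1)

end Pool.Agent.MP_47b17d_nt.H77
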