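import Pool.Agent.MP_47b17d_nt.H77.Spec

/-! Upper bound, monotonicity and slow variation of the Laplace transform. -/

set_option autoImplicit false

namespace Pool.Agent.MP_47b17d_nt.H77

open Finset Filter Real MeasureTheory

namespace UP

/-- Taylor bound for exponential sums with vanishing moments. -/
theorem taylor (n J : ℕ) : ∀ (w : ℕ → ℝ), (∀ l, l < J → ∑ i ∈ range n, w i * (i : ℝ) ^ l = 0) →
    ∀ u : ℝ, 0 ≤ u → |∑ i ∈ range n, w i * exp (-(i * u))| ≤
      (∑ i ∈ range n, |w i| * (i : ℝ) ^ J) * u ^ J / J.factorial := by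
  induction J with
  | zero =>
    intro w _ u hu
    simp only [pow_zero, mul_one, Nat.factorial_zero, Nat.cast_one, div_one]
    refine (abs_sum_le_sum_abs _ _).trans (sum_le_sum fun i _ => ?_)
    rw [abs_mul, abs_of_pos (exp_pos _)]
    have h1 : exp (-((i : ℝ) * u)) ≤ 1 := by
      rw [exp_le_one_iff]
      have : 0 ≤ (i : ℝ) * u := by positivity
      linarith
    exact mul_le_of_le_one_right (abs_nonneg _) h1
  | succ J ih =>
    intro w hw u hu
    have hd : ∀ x : ℝ, HasDerivAt (fun x : ℝ => ∑ i ∈ range n, w i * exp (-(i * x)))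
        (∑ i ∈ range n, (-(w i * i)) * exp (-(i * x))) x := by
      intro x
      refine HasDerivAt.fun_sum fun i _ => ?_
      have h1 : HasDerivAt (fun x : ℝ => -((i : ℝ) * x)) (-(i : ℝ)) x := by
        simpa using ((hasDerivAt_id x).const_mul (i : ℝ)).fun_neg
      have h2 := (h1.exp).const_mul (w i)
      exact h2.congr_deriv (by ring)
    have hB : ∀ x : ℝ, HasDerivAt
        (fun x : ℝ => (∑ i ∈ range n, |w i| * (i : ℝ) ^ (J + 1)) * x ^ (J + 1) / (J + 1).factorial)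
        ((∑ i ∈ range n, |w i| * (i : ℝ) ^ (J + 1)) * x ^ J / J.factorial) x := by
      intro x
      have h1 := ((hasDerivAt_pow (J + 1) x).const_mul
        (∑ i ∈ range n, |w i| * (i : ℝ) ^ (J + 1))).div_const ((J + 1).factorial : ℝ)
      refine h1.congr_deriv ?_
      rw [Nat.factorial_succ]
      have : (J.factorial : ℝ) ≠ 0 := by positivity
      push_cast
      field_simp
    have hw' : ∀ l, l < J → ∑ i ∈ range n, (-(w i * i)) * (i : ℝ) ^ l = 0 := by
      intro l hl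
      have h1 := hw (l + 1) (by omega)
      have h2 : ∑ i ∈ range n, (-(w i * i)) * (i : ℝ) ^ l =
          -∑ i ∈ range n, w i * (i : ℝ) ^ (l + 1) := by
        rw [← sum_neg_distrib]
        exact sum_congr rfl fun i _ => by ring
      rw [h2, h1, neg_zero]
    have key := image_norm_le_of_norm_deriv_right_le_deriv_boundary
      (f := fun x : ℝ => ∑ i ∈ range n, w i * exp (-(i * x))) (a := 0) (b := u)
      (fun x _ => (hd x).continuousAt.continuousWithinAt)
      (fun x _ => (hd x).hasDerivWithinAt)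
      (B := fun x : ℝ =>
        (∑ i ∈ range n, |w i| * (i : ℝ) ^ (J + 1)) * x ^ (J + 1) / (J + 1).factorial)
      (by
        have h0 := hw 0 (by omega)
        simp only [pow_zero, mul_one] at h0
        simp [h0]) hB
      (by
        intro x hx
        have h1 := ih (fun i => -(w i * i)) hw' x hx.1
        rw [Real.norm_eq_abs]
        refine h1.trans (le_of_eq ?_)
        congr 2
        refine sum_congr rfl fun i _ => ?_
        rw [abs_neg, abs_mul, abs_of_nonneg (Nat.cast_nonneg (α := ℝ) i)]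
        ring)
    simpa [Real.norm_eq_abs] using key (x := u) ⟨hu, le_rfl⟩

theorem abs_cast_le (a : ℕ → ℤ) (ha : ∀ i, |a i| ≤ 1) (i : ℕ) : |(a i : ℝ)| ≤ 1 := by
  exact_mod_cast ha i

/-- The bound for `ph` under vanishing moments. -/
theorem ph_le (a : ℕ → ℤ) (R J : ℕ) (ha : ∀ i, |a i| ≤ 1)
    (hm : ∀ l, l < J → ∑ i ∈ range (R + 1), a i * (i : ℤ) ^ l = 0) (u : ℝ) (hu : 0 ≤ u) :
    |ph a R u| ≤ ((R : ℝ) + 1) * (R : ℝ) ^ J * u ^ J / J.factorial := by
  have h1 := taylor (R + 1) J (fun i => (a i : ℝ)) (fun l hl => by exact_mod_cast hm l hl) u hu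
  refine h1.trans ?_
  have h2 : ∑ i ∈ range (R + 1), |(a i : ℝ)| * (i : ℝ) ^ J ≤ ((R : ℝ) + 1) * (R : ℝ) ^ J := by
    have h3 : ∀ i ∈ range (R + 1), |(a i : ℝ)| * (i : ℝ) ^ J ≤ (R : ℝ) ^ J := by
      intro i hi
      have hi' : (i : ℝ) ≤ R := by exact_mod_cast Nat.lt_succ_iff.mp (mem_range.mp hi)
      calc |(a i : ℝ)| * (i : ℝ) ^ J ≤ 1 * (R : ℝ) ^ J := by
            gcongr
            exact abs_cast_le a ha i
        _ = _ := one_mul _
    have h4 := sum_le_card_nsmul _ _ _ h3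
    simpa using h4
  gcongr

theorem ph_sq_le (a : ℕ → ℤ) (R : ℕ) (ha : ∀ i, |a i| ≤ 1) (u : ℝ) (hu : 0 ≤ u) :
    ph a R u ^ 2 ≤ ((R : ℝ) + 1) ^ 2 := by
  have h1 := ph_le a R 0 ha (fun l hl => absurd hl (by omega)) u hu
  simp only [pow_zero, mul_one, Nat.factorial_zero, Nat.cast_one, div_one] at h1
  rw [← sq_abs]
  gcongr

theorem int_base (r : ℝ) (hr : 0 < r) :
    IntegrableOn (fun y : ℝ => y ^ (-(1 / 2) : ℝ) * exp (-(r * y))) (Set.Ioi 0) := by
  have h := integrableOn_rpow_mul_exp_neg_mul_rpow (s := -(1 / 2)) (p := 1) (b := r)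
    (by norm_num) one_pos hr
  simpa [rpow_one, neg_mul] using h

theorem int_val (r : ℝ) (hr : 1 ≤ r) :
    ∫ y in Set.Ioi (0 : ℝ), y ^ (-(1 / 2) : ℝ) * exp (-(r * y)) ≤ 2 := by
  have h := Real.integral_rpow_mul_exp_neg_mul_Ioi (a := 1 / 2) (r := r) (by norm_num)
    (by linarith)
  have e : (1 / 2 - 1 : ℝ) = -(1 / 2) := by norm_num
  rw [e] at h
  rw [h, Real.Gamma_one_half_eq]
  have h1 : (1 / r) ^ (1 / 2 : ℝ) ≤ 1 := by
    apply rpow_le_one (by positivity) _ (by norm_num)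
    rw [div_le_one (by linarith)]
    exact hr
  have h2 : √π ≤ 2 := by
    rw [Real.sqrt_le_iff]
    exact ⟨by norm_num, by linarith [pi_le_four]⟩
  calc (1 / r) ^ (1 / 2 : ℝ) * √π ≤ 1 * 2 := by gcongr
    _ = 2 := by norm_num

theorem cont_ph (a : ℕ → ℤ) (R : ℕ) (s : ℝ) : Continuous fun y : ℝ => ph a R (s * y) ^ 2 := by
  unfold ph
  fun_prop

theorem int_EE (a : ℕ → ℤ) (R : ℕ) (ha : ∀ i, |a i| ≤ 1) (s X : ℝ) (hs : 0 ≤ s) (hX : 0 < X) :
    IntegrableOn (fun y : ℝ => y ^ (-(1 / 2) : ℝ) * exp (-(X * y)) * ph a R (s * y) ^ 2)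
      (Set.Ioi 0) := by
  refine Integrable.mul_bdd (c := ((R : ℝ) + 1) ^ 2) (int_base X hX)
    (cont_ph a R s).aestronglyMeasurable ?_
  refine (ae_restrict_iff' measurableSet_Ioi).mpr (Eventually.of_forall fun y hy => ?_)
  rw [Real.norm_eq_abs, abs_of_nonneg (sq_nonneg _)]
  exact ph_sq_le a R ha _ (mul_nonneg hs (le_of_lt hy))

theorem fact_le (J : ℕ) : ((2 * J).factorial : ℝ) ≤ 4 ^ J * (J.factorial : ℝ) ^ 2 := by
  have h1 : (2 * J).choose J * J.factorial * J.factorial = (2 * J).factorial := by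
    have h := Nat.choose_mul_factorial_mul_factorial (n := 2 * J) (k := J) (by omega)
    rwa [show 2 * J - J = J by omega] at h
  have h2 : (2 * J).choose J ≤ 4 ^ J := by
    have h := Nat.choose_le_two_pow (2 * J) J
    rwa [pow_mul] at h
  have h3 : (2 * J).factorial ≤ 4 ^ J * J.factorial ^ 2 := by
    rw [← h1, sq, mul_assoc]
    exact Nat.mul_le_mul_right _ h2
  exact_mod_cast h3

theorem point_up (a : ℕ → ℤ) (R J : ℕ) (ha : ∀ i, |a i| ≤ 1)
    (hm : ∀ l, l < J → ∑ i ∈ range (R + 1), a i * (i : ℤ) ^ l = 0) (s X y : ℝ) (hs : 0 ≤ s)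
    (hX : 0 < X) (hy : 0 ≤ y) :
    exp (-(X * y)) * ph a R (s * y) ^ 2 ≤
      ((R : ℝ) + 1) ^ 2 * (4 * R * s / X) ^ (2 * J) * exp (-(X / 2 * y)) := by
  have h1 := ph_le a R J ha hm (s * y) (mul_nonneg hs hy)
  have h2 : ph a R (s * y) ^ 2 ≤
      (((R : ℝ) + 1) * (R : ℝ) ^ J * (s * y) ^ J / J.factorial) ^ 2 := by
    rw [← sq_abs]
    gcongr
  have h3 : (X / 2 * y) ^ (2 * J) / (2 * J).factorial ≤ exp (X / 2 * y) :=
    Real.pow_div_factorial_le_exp _ (by positivity) _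
  have hf : (0 : ℝ) < J.factorial := by positivity
  have hf2 : (0 : ℝ) < (2 * J).factorial := by positivity
  have h4 : (X / 2 * y) ^ (2 * J) ≤ 4 ^ J * (J.factorial : ℝ) ^ 2 * exp (X / 2 * y) := by
    rw [div_le_iff₀ hf2] at h3
    calc (X / 2 * y) ^ (2 * J) ≤ exp (X / 2 * y) * (2 * J).factorial := h3
      _ ≤ exp (X / 2 * y) * (4 ^ J * (J.factorial : ℝ) ^ 2) := by
          gcongr
          exact fact_le J
      _ = _ := by ring
  have h5 : (((R : ℝ) + 1) * (R : ℝ) ^ J * (s * y) ^ J / J.factorial) ^ 2 =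
      ((R : ℝ) + 1) ^ 2 * (4 * R * s / X) ^ (2 * J) *
        ((X / 2 * y) ^ (2 * J) / (4 ^ J * (J.factorial : ℝ) ^ 2)) := by
    have e1 : (4 * R * s / X) ^ (2 * J) * (X / 2 * y) ^ (2 * J) =
        4 ^ J * ((R : ℝ) ^ J * (s * y) ^ J) ^ 2 := by
      rw [← mul_pow]
      have e2 : 4 * R * s / X * (X / 2 * y) = 2 * (R * (s * y)) := by
        field_simp
        ring
      rw [e2, mul_pow, pow_mul, ← mul_pow (R : ℝ), ← pow_mul (R * (s * y)), mul_comm J 2]
      norm_num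
    rw [mul_assoc (((R : ℝ) + 1) ^ 2), ← mul_div_assoc, e1]
    field_simp
  have h6 : (X / 2 * y) ^ (2 * J) / (4 ^ J * (J.factorial : ℝ) ^ 2) ≤ exp (X / 2 * y) := by
    rw [div_le_iff₀ (by positivity)]
    linarith
  have h7 : exp (-(X * y)) * exp (X / 2 * y) = exp (-(X / 2 * y)) := by
    rw [← exp_add]
    congr 1
    ring
  calc exp (-(X * y)) * ph a R (s * y) ^ 2
      ≤ exp (-(X * y)) * (((R : ℝ) + 1) ^ 2 * (4 * R * s / X) ^ (2 * J) * exp (X / 2 * y)) := by
        gcongr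
        refine h2.trans ?_
        rw [h5]
        gcongr
    _ = ((R : ℝ) + 1) ^ 2 * (4 * R * s / X) ^ (2 * J) * (exp (-(X * y)) * exp (X / 2 * y)) := by
        ring
    _ = _ := by rw [h7]

theorem point_mon (P C X y : ℝ) (hP : 0 ≤ P) (hC : P ≤ C) (hX : 0 ≤ X) :
    exp (-(X * y)) * P ≤
      2 * (exp (-((X + 2) * y)) * P) + C * exp (-(X / 200)) * exp (-(X / 2 * y)) := by
  have hC0 : 0 ≤ C := hP.trans hC
  rcases le_total y (1 / 100) with hy | hy
  · have h1 : exp (-(X * y)) ≤ 2 * exp (-((X + 2) * y)) := by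
      have e : exp (-((X + 2) * y)) = exp (-(X * y)) * exp (-(2 * y)) := by
        rw [← exp_add]
        congr 1
        ring
      have h2 : -(2 * y) + 1 ≤ exp (-(2 * y)) := add_one_le_exp _
      have h3 := exp_pos (-(X * y))
      rw [e]
      nlinarith
    have h4 : 0 ≤ C * exp (-(X / 200)) * exp (-(X / 2 * y)) := by positivity
    have h5 : exp (-(X * y)) * P ≤ 2 * exp (-((X + 2) * y)) * P := by gcongr
    linarith
  · have h1 : exp (-(X * y)) ≤ exp (-(X / 200)) * exp (-(X / 2 * y)) := by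
      rw [← exp_add, exp_le_exp]
      nlinarith
    have h4 : 0 ≤ 2 * (exp (-((X + 2) * y)) * P) := by positivity
    have h5 : exp (-(X * y)) * P ≤ exp (-(X / 200)) * exp (-(X / 2 * y)) * C := by gcongr
    linarith

end UP

theorem rowUP : RowUP := by
  intro a R J s X ha hm hs hX
  have hX0 : 0 < X := by linarith
  have hc : 0 ≤ ((R : ℝ) + 1) ^ 2 * (4 * R * s / X) ^ (2 * J) := by positivity
  have h1 : EE a R s X ≤ ∫ y in Set.Ioi (0 : ℝ), ((R : ℝ) + 1) ^ 2 * (4 * R * s / X) ^ (2 * J) *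
      (y ^ (-(1 / 2) : ℝ) * exp (-(X / 2 * y))) := by
    refine setIntegral_mono_on (UP.int_EE a R ha s X hs hX0)
      ((UP.int_base (X / 2) (by linarith)).const_mul _) measurableSet_Ioi fun y hy => ?_
    have hy0 : 0 ≤ y := le_of_lt hy
    have h2 := UP.point_up a R J ha hm s X y hs hX0 hy0
    have h3 : 0 ≤ y ^ (-(1 / 2) : ℝ) := rpow_nonneg hy0 _
    have h4 := mul_le_mul_of_nonneg_left h2 h3
    linarith
  rw [integral_const_mul] at h1
  have h5 := mul_le_mul_of_nonneg_left (UP.int_val (X / 2) (by linarith)) hc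
  linarith

theorem rowMON : RowMON := by
  intro a R s ha hs
  refine ⟨fun X X' hX hXX => ?_, fun X hX => ?_⟩
  · refine setIntegral_mono_on (UP.int_EE a R ha s X' hs (by linarith))
      (UP.int_EE a R ha s X hs hX) measurableSet_Ioi fun y hy => ?_
    have hy0 : 0 ≤ y := le_of_lt hy
    have h3 : 0 ≤ y ^ (-(1 / 2) : ℝ) := rpow_nonneg hy0 _
    have h4 : exp (-(X' * y)) ≤ exp (-(X * y)) := by
      rw [exp_le_exp]
      nlinarith
    gcongr
  · have hX0 : 0 < X := by linarith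
    have hc : 0 ≤ ((R : ℝ) + 1) ^ 2 * exp (-(X / 200)) := by positivity
    have i1 := (UP.int_EE a R ha s (X + 2) hs (by linarith)).const_mul 2
    have i2 := (UP.int_base (X / 2) (by linarith)).const_mul (((R : ℝ) + 1) ^ 2 * exp (-(X / 200)))
    have h1 : EE a R s X ≤ ∫ y in Set.Ioi (0 : ℝ),
        (2 * (y ^ (-(1 / 2) : ℝ) * exp (-((X + 2) * y)) * ph a R (s * y) ^ 2) +
          ((R : ℝ) + 1) ^ 2 * exp (-(X / 200)) * (y ^ (-(1 / 2) : ℝ) * exp (-(X / 2 * y)))) := by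
      refine setIntegral_mono_on (UP.int_EE a R ha s X hs hX0) (i1.add i2) measurableSet_Ioi
        fun y hy => ?_
      have hy0 : 0 ≤ y := le_of_lt hy
      have h2 := UP.point_mon (ph a R (s * y) ^ 2) (((R : ℝ) + 1) ^ 2) X y (sq_nonneg _)
        (UP.ph_sq_le a R ha _ (mul_nonneg hs hy0)) hX0.le
      have h3 : 0 ≤ y ^ (-(1 / 2) : ℝ) := rpow_nonneg hy0 _
      have h4 := mul_le_mul_of_nonneg_left h2 h3
      linarith
    rw [integral_add i1 i2, integral_const_mul, integral_const_mul] at h1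
    have h5 := mul_le_mul_of_nonneg_left (UP.int_val (X / 2) (by linarith)) hc
    have e : EE a R s (X + 2) = ∫ y in Set.Ioi (0 : ℝ),
        y ^ (-(1 / 2) : ℝ) * exp (-((X + 2) * y)) * ph a R (s * y) ^ 2 := rfl
    rw [← e] at h1
    linarith

end Pool.Agent.MP_47b17d_nt.H77
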