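import Pool.Agent.MP_47b17d_nt.H77.Spec

/-! Common denominators and the covering by windows. -/

set_option autoImplicit false

namespace Pool.Agent.MP_47b17d_nt.H77

open Finset Filter Real

namespace WIN

theorem lt_of_step {t : ℕ → ℕ} {J : ℕ} (h : ∀ i, i < J → t i < t (i + 1)) {i j : ℕ} (hij : i < j)
    (hj : j ≤ J) : t i < t j := by
  induction j with
  | zero => omega
  | succ j ih =>
    rcases Nat.lt_succ_iff_lt_or_eq.1 hij with h1 | h1
    · exact (ih h1 (by omega)).trans (h j (by omega))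
    · rw [h1]; exact h j (by omega)

theorem le_of_step {t : ℕ → ℕ} {J : ℕ} (h : ∀ i, i < J → t i < t (i + 1)) {i j : ℕ} (hij : i ≤ j)
    (hj : j ≤ J) : t i ≤ t j := by
  rcases hij.eq_or_lt with h1 | h1
  · rw [h1]
  · exact (lt_of_step h h1 hj).le

theorem prod_dvd_fact (s : Finset ℕ) (g : ℕ → ℕ) (W : ℕ) (h1 : Set.InjOn g s)
    (h2 : ∀ k ∈ s, 1 ≤ g k ∧ g k ≤ W) : ∏ k ∈ s, g k ∣ W.factorial := by
  rw [← Finset.prod_Ico_id_eq_factorial, ← Finset.prod_image (f := fun m => m) h1]
  refine Finset.prod_dvd_prod_of_subset _ _ _ fun m hm => ?_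
  obtain ⟨k, hk, rfl⟩ := Finset.mem_image.1 hm
  exact Finset.mem_Ico.2 ⟨(h2 k hk).1, Nat.lt_succ_of_le (h2 k hk).2⟩

theorem dvd_of_natAbs (s : Finset ℕ) (f : ℕ → ℤ) (D : ℕ) (h : ∏ k ∈ s, (f k).natAbs ∣ D) :
    ∏ k ∈ s, f k ∣ (D : ℤ) := by
  rw [← Int.natAbs_dvd, Int.natCast_dvd_natCast]
  have h1 : (∏ k ∈ s, f k).natAbs = ∏ k ∈ s, (f k).natAbs := map_prod Int.natAbsHom f s
  rwa [h1]

end WIN

open WIN in
theorem rowDEN : RowDEN := by
  intro a W J t ht h0 hJ
  have hb : ∀ i, i ≤ J → ∀ k ∈ (range (J + 1)).erase i,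
      1 ≤ ((t i : ℤ) - t k).natAbs ∧ ((t i : ℤ) - t k).natAbs ≤ W := by
    intro i hi k hk
    obtain ⟨h1, h2⟩ := Finset.mem_erase.1 hk
    have h3 : k ≤ J := Nat.lt_succ_iff.1 (Finset.mem_range.1 h2)
    have h4 := le_of_step ht (Nat.zero_le i) hi
    have h5 := le_of_step ht (Nat.zero_le k) h3
    have h6 := le_of_step ht hi le_rfl
    have h7 := le_of_step ht h3 le_rfl
    rcases lt_or_gt_of_ne h1 with h8 | h8
    · have := lt_of_step ht h8 hi
      omega
    · have := lt_of_step ht h8 h3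
      omega
  have hinj : ∀ k, k ≤ J → ∀ l, l ≤ J → t k = t l → k = l := by
    intro k hk l hl e
    rcases lt_trichotomy k l with h | h | h
    · exact absurd e (lt_of_step ht h hl).ne
    · exact h
    · exact absurd e.symm (lt_of_step ht h hk).ne
  rcases le_total (2 * (W : ℝ) * log W) (J * (J + 1) * log W) with hm | hm
  · rw [min_eq_left hm]
    refine ⟨W.factorial * W.factorial, Nat.mul_pos W.factorial_pos W.factorial_pos,
      fun i hi => dvd_of_natAbs _ _ _ ?_, ?_⟩
    · rw [← Finset.prod_filter_mul_prod_filter_not _ fun k => k < i]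
      refine Nat.mul_dvd_mul (prod_dvd_fact _ _ _ ?_ fun k hk => hb i hi k (mem_filter.1 hk).1)
        (prod_dvd_fact _ _ _ ?_ fun k hk => hb i hi k (mem_filter.1 hk).1)
      · intro k hk l hl e
        simp only [coe_filter, mem_erase, mem_range, Set.mem_ofPred_eq] at hk hl e
        have h1 := lt_of_step ht hk.2 hi
        have h2 := lt_of_step ht hl.2 hi
        exact hinj k (by omega) l (by omega) (by omega)
      · intro k hk l hl e
        simp only [coe_filter, mem_erase, mem_range, Set.mem_ofPred_eq] at hk hl e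
        have h1 := le_of_step ht (not_lt.1 hk.2) (by omega)
        have h2 := le_of_step ht (not_lt.1 hl.2) (by omega)
        exact hinj k (by omega) l (by omega) (by omega)
    · have h1 : ((W.factorial : ℕ) : ℝ) ≤ (W : ℝ) ^ W := by exact_mod_cast W.factorial_le_pow
      have h2 : (0 : ℝ) < W.factorial := by exact_mod_cast W.factorial_pos
      have h3 := Real.log_le_log h2 h1
      rw [Real.log_pow] at h3
      rw [Nat.cast_mul, Real.log_mul h2.ne' h2.ne']
      linarith
  · rw [min_eq_right hm]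
    have hpos : 0 < ∏ i ∈ range (J + 1), ∏ k ∈ (range (J + 1)).erase i,
        ((t i : ℤ) - t k).natAbs :=
      Finset.prod_pos fun i hi => Finset.prod_pos fun k hk =>
        (hb i (Nat.lt_succ_iff.1 (mem_range.1 hi)) k hk).1
    refine ⟨_, hpos, fun i hi => dvd_of_natAbs _ _ _ ?_, ?_⟩
    · exact Finset.dvd_prod_of_mem
        (fun i => ∏ k ∈ (range (J + 1)).erase i, ((t i : ℤ) - t k).natAbs)
        (mem_range.2 (Nat.lt_succ_of_le hi))
    · have h1 : ∏ i ∈ range (J + 1), ∏ k ∈ (range (J + 1)).erase i,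
          ((t i : ℤ) - t k).natAbs ≤ (W ^ J) ^ (J + 1) := by
        refine (Finset.prod_le_pow_card _ _ (W ^ J) fun i hi => ?_).trans (by rw [card_range])
        refine (Finset.prod_le_pow_card _ _ W fun k hk =>
          (hb i (Nat.lt_succ_iff.1 (mem_range.1 hi)) k hk).2).trans ?_
        rw [card_erase_of_mem hi, card_range, Nat.add_sub_cancel]
      have h2 := Real.log_le_log (Nat.cast_pos.2 hpos) (Nat.cast_le.2 h1)
      refine h2.trans (le_of_eq ?_)
      rw [Nat.cast_pow, Nat.cast_pow, Real.log_pow, Real.log_pow]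
      push_cast
      ring

theorem rowWIN (h1 : RowLOC) (h2 : RowDEN) : RowWIN := by
  obtain ⟨a₀, h1⟩ := h1
  refine ⟨a₀, fun a N W J S ha hW hWa hJ hS => ?_⟩
  set G := (Icc 1 N).filter fun n => (pp n).primeFactors ⊆ S with hG
  have ha1 : 1 ≤ a := (Nat.one_le_pow _ _ hW).trans hWa
  rw [← Finset.card_filter_add_card_filter_not (s := G) fun n => n < a]
  refine add_le_add ?_ ?_
  · refine (Finset.card_le_card (t := range a) fun n hn => ?_).trans (card_range a).le
    exact mem_range.2 (mem_filter.1 hn).2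
  · refine (Finset.card_le_mul_card_image_of_maps_to (f := fun n => (n - a) / W)
      (t := range (N / W + 1)) (fun n hn => ?_) J fun i _ => ?_).trans (by rw [card_range])
    · have h3 := (mem_Icc.1 (mem_filter.1 (mem_filter.1 hn).1).1).2
      exact mem_range.2 (Nat.lt_succ_of_le (Nat.div_le_div_right (by omega)))
    · by_contra hc
      set T := (G.filter fun n => ¬ n < a).filter fun n => (n - a) / W = i with hT
      have hc' : J < T.card := not_le.1 hc
      have hm : ∀ n ∈ T, a + i * W ≤ n ∧ n ≤ a + i * W + W ∧ n ≤ N ∧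
          (pp n).primeFactors ⊆ S := by
        intro n hn
        obtain ⟨h3, h4⟩ := mem_filter.1 hn
        obtain ⟨h5, h6⟩ := mem_filter.1 h3
        obtain ⟨h7, h8⟩ := mem_filter.1 h5
        have h9 := Nat.div_mul_le_self (n - a) W
        have h10 := Nat.lt_div_mul_add (a := n - a) (b := W) hW
        rw [h4] at h9 h10
        exact ⟨by omega, by omega, (mem_Icc.1 h7).2, h8⟩
      set t : ℕ → ℕ := fun k => if h : k < T.card then T.orderEmbOfFin rfl ⟨k, h⟩ else 0 with ht
      have t1 : ∀ k, k ≤ J → t k ∈ T := by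
        intro k hk
        simp only [ht, dif_pos (hk.trans_lt hc')]
        exact Finset.orderEmbOfFin_mem _ _ _
      have t2 : ∀ k, k < J → t k < t (k + 1) := by
        intro k hk
        simp only [ht, dif_pos (hk.trans hc'), dif_pos (show k + 1 < T.card by omega)]
        exact (T.orderEmbOfFin rfl).strictMono (Fin.mk_lt_mk.2 (Nat.lt_succ_self k))
      have t3 := hm _ (t1 0 (Nat.zero_le _))
      have t4 := hm _ (t1 J le_rfl)
      obtain ⟨D, d1, d2, d3⟩ := h2 (a + i * W) W J t t2 t3.1 t4.2.1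
      have h3 := h1 (a + i * W) W J D t S (by omega) (by omega) t2 t3.1 t4.2.1 d1 d2
        fun k hk => (hm _ (t1 k hk)).2.2.2
      have h4 : (0 : ℝ) < a := by exact_mod_cast ha1
      have h5 : log (a : ℝ) ≤ log ((a + i * W : ℕ) : ℝ) :=
        Real.log_le_log h4 (Nat.cast_le.2 (by omega))
      have h6 : log ((a + i * W : ℕ) : ℝ) ≤ log (N : ℝ) :=
        Real.log_le_log (Nat.cast_pos.2 (by omega)) (Nat.cast_le.2 (by omega))
      have h7 : (0 : ℝ) ≤ (J : ℝ) - 2 := by
        have : (2 : ℝ) ≤ J := by exact_mod_cast hJ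
        linarith
      have h8 := mul_le_mul_of_nonneg_left h5 h7
      have h9 := mul_le_mul_of_nonneg_left
        (add_le_add d3 (mul_le_mul_of_nonneg_left h6 (by norm_num : (0 : ℝ) ≤ 4)))
        (Nat.cast_nonneg (α := ℝ) S.card)
      linarith

end Pool.Agent.MP_47b17d_nt.H77
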