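import Pool.Agent.MP_47b17d_nt.H77.Spec2

/-! Covering by windows, sharper form. -/

set_option autoImplicit false

namespace Pool.Agent.MP_47b17d_nt.H77

open Finset Filter Real

theorem rowWIN2 (h1 : RowREL) (h2 : RowNEW) : RowWIN2 := by
  obtain ⟨a₁, h1⟩ := h1
  obtain ⟨a₂, h2⟩ := h2
  refine ⟨max a₁ a₂, fun a N W S ha hW hWa hch => ?_⟩
  have ha1 : a₁ ≤ a := (le_max_left _ _).trans ha
  have ha2 : a₂ ≤ a := (le_max_right _ _).trans ha
  set G := (Icc 1 N).filter fun n => (pp n).primeFactors ⊆ S with hG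
  rw [← Finset.card_filter_add_card_filter_not (s := G) fun n => n < a]
  refine add_le_add ?_ ?_
  · refine (Finset.card_le_card (t := range a) fun n hn => ?_).trans (card_range a).le
    exact mem_range.2 (mem_filter.1 hn).2
  · refine (Finset.card_le_mul_card_image_of_maps_to (f := fun n => (n - a) / W)
      (t := range (N / W + 1)) (fun n hn => ?_) (6 * S.card + 6) fun i _ => ?_).trans
      (by rw [card_range])
    · have h3 := (mem_Icc.1 (mem_filter.1 (mem_filter.1 hn).1).1).2
      exact mem_range.2 (Nat.lt_succ_of_le (Nat.div_le_div_right (by omega)))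
    · by_contra hc
      set T := (G.filter fun n => ¬ n < a).filter fun n => (n - a) / W = i with hT
      have hc' : 6 * S.card + 7 ≤ T.card := not_le.1 hc
      have hm : ∀ n ∈ T, n ∈ Icc (a + i * W) (a + i * W + W) ∧ (pp n).primeFactors ⊆ S := by
        intro n hn
        obtain ⟨h3, h4⟩ := mem_filter.1 hn
        obtain ⟨h5, h6⟩ := mem_filter.1 h3
        obtain ⟨-, h8⟩ := mem_filter.1 h5
        have h9 := Nat.div_mul_le_self (n - a) W
        have h10 := Nat.lt_div_mul_add (a := n - a) (b := W) hW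
        rw [h4] at h9 h10
        exact ⟨mem_Icc.2 ⟨by omega, by omega⟩, h8⟩
      obtain ⟨U, hU, hUc⟩ := Finset.exists_subset_card_eq hc'
      have hU1 : U ⊆ Icc (a + i * W) (a + i * W + W) := fun n hn => (hm n (hU hn)).1
      obtain ⟨c, ⟨n, hn, hn0⟩, c1, c2, c3⟩ := h1 (a + i * W) W U S (by omega) (by omega) hU1
        (fun n hn => (hm n (hU hn)).2) hUc.ge
      exact hn0 (h2 (a + i * W) W U c (by omega) (by omega) hU1
        (fun j hj => (hch j (hj.trans hUc.le)).trans (Nat.le_add_right _ _)) c1 c2 c3 n hn)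

end Pool.Agent.MP_47b17d_nt.H77
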